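import Pool.Agent.W_2cf66e_h88.DefsO

/-!
# MP_2cf66e_nt, one inequality in the same dimension, leaf O12: integer coefficients (helper68)
-/

set_option autoImplicit false

noncomputable section

open MeasureTheory Set Filter Topology

namespace Pool.Agent.WSP

/-- Clearing denominators. -/
theorem clear_den68 {m : ℕ} (f : MvPolynomial (Fin m) ℚ) :
    ∃ (D : ℕ) (F : MvPolynomial (Fin m) ℤ), 0 < D ∧
      MvPolynomial.map (Int.castRingHom ℚ) F = MvPolynomial.C (D : ℚ) * f := by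
  induction f using MvPolynomial.induction_on with
  | C a =>
    refine ⟨a.den, MvPolynomial.C a.num, a.den_pos, ?_⟩
    rw [MvPolynomial.map_C, ← MvPolynomial.C_mul]
    congr 1
    have h := Rat.mul_den_eq_num a
    simp only [eq_intCast]
    rw [mul_comm]
    exact h.symm
  | add p q hp hq =>
    obtain ⟨D₁, F₁, h1, e1⟩ := hp
    obtain ⟨D₂, F₂, h2, e2⟩ := hq
    refine ⟨D₁ * D₂, MvPolynomial.C (D₂ : ℤ) * F₁ + MvPolynomial.C (D₁ : ℤ) * F₂,
      Nat.mul_pos h1 h2, ?_⟩
    rw [map_add, map_mul, map_mul, e1, e2, MvPolynomial.map_C, MvPolynomial.map_C]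
    push_cast
    simp only [map_mul, eq_intCast, Int.cast_natCast]
    ring
  | mul_X p i hp =>
    obtain ⟨D, F, h1, e1⟩ := hp
    refine ⟨D, F * MvPolynomial.X i, h1, ?_⟩
    rw [map_mul, e1, MvPolynomial.map_X, mul_assoc]

theorem PS_int {m : ℕ} (f : MvPolynomial (Fin m) ℚ) : ∃ F : MvPolynomial (Fin m) ℤ,
    {z : Fin m → ℝ | 0 < (MvPolynomial.aeval z F : ℝ)} = PS f := by
  obtain ⟨D, F, hD, hF⟩ := clear_den68 f
  refine ⟨F, ?_⟩
  ext z
  have h1 : (MvPolynomial.aeval z F : ℝ) = (D : ℝ) * MvPolynomial.aeval z f := by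
    have h2 : (MvPolynomial.aeval z (MvPolynomial.map (Int.castRingHom ℚ) F) : ℝ) =
        MvPolynomial.aeval z F := by
      have h3 := MvPolynomial.aeval_map_algebraMap (A := ℚ) (B := ℝ) z F
      exact h3
    rw [← h2, hF, map_mul, MvPolynomial.aeval_C]
    simp
  have hD' : (0 : ℝ) < (D : ℝ) := by exact_mod_cast hD
  change 0 < (MvPolynomial.aeval z F : ℝ) ↔ 0 < (MvPolynomial.aeval z f : ℝ)
  rw [h1]
  exact mul_pos_iff_of_pos_left hD'

end Pool.Agent.WSP
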