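import Pool.Agent.W_2cf66e_h46.Defs

/-!
# MP_2cf66e_nt (periods), minima of quadratics: definitions (helper88)

Paper proof: /team-store/MINQ_h88.md and table `proofs`.
-/

set_option autoImplicit false

noncomputable section

open MeasureTheory MvPolynomial

namespace Pool.Agent.MinQ

open Pool.Agent.QVol (box)

/-- `x` is a rational number minus the integral over a cube `[-1,1]^ι` of a maximum of finitely
many rational polynomials of degree at most two. -/
def Kq (x : ℝ) : Prop :=
  ∃ (ι : Type) (_ : Fintype ι) (α : Type) (_ : Fintype α) (_ : Nonempty α)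
    (r : α → MvPolynomial ι ℚ) (c : ℚ), (∀ a, (r a).totalDegree ≤ 2) ∧
    x = c - ∫ z in box ι, ⨆ a, (aeval z (r a) : ℝ)

/-- Both `x` and `-x` are in the class `Kq`. -/
def Dq (x : ℝ) : Prop := Kq x ∧ Kq (-x)

/-- Products of high powers of the positive parts of the polynomials `f i`, with an arbitrary
polynomial factor, have their integrals over the cube in `D`. -/
def GoodF (D : ℝ → Prop) {κ β : Type} [Fintype κ] [Fintype β] (f : β → MvPolynomial κ ℚ) : Prop :=
  ∃ E : ℕ, ∀ e : β → ℕ, (∀ i, E ≤ e i) → ∀ p : MvPolynomial κ ℚ,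
    D (∫ z in box κ, (aeval z p : ℝ) * ∏ i, (max (aeval z (f i) : ℝ) 0) ^ (e i))

end Pool.Agent.MinQ
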