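import Pool.Agent.W_2cf66e_h88.Defs
import Pool.Agent.W_2cf66e_h65.JSub
import Pool.Agent.W_2cf66e_h65.ISet
import Pool.Agent.W_2cf66e_h46.QF
import Pool.Agent.W_2cf66e_h3.AV

/-!
# Minima of quadratics: the integral of a minimum of polynomials is a period (helper88)
-/

set_option autoImplicit false

noncomputable section

open MeasureTheory MvPolynomial
open Pool.Agent.QVol (cont_aeval)
open Pool.Agent.CVol (IsPR IsSA IsPeriod period_of_smooth)

namespace Pool.Agent.MinQ

theorem pr_min {ι : Type} {f g : (ι → ℝ) → ℝ} (hf : IsPR f) (hg : IsPR g) :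
    IsPR (fun z => min (f z) (g z)) := by
  have hd : IsPR (fun z => f z + ((-1 : ℚ) : ℝ) * g z) := hf.add (hg.smul (-1))
  have hS : IsSA {z | 0 ≤ f z + ((-1 : ℚ) : ℝ) * g z} := hd.nonneg
  have hi := hd.ind_mul hS 1
  have h := hf.add (hi.smul (-1))
  have e : (fun z => min (f z) (g z)) = fun z => f z + ((-1 : ℚ) : ℝ) *
      {z | 0 ≤ f z + ((-1 : ℚ) : ℝ) * g z}.indicator
        (fun z => aeval z (1 : MvPolynomial ι ℚ) * (f z + ((-1 : ℚ) : ℝ) * g z)) z := by
    funext z
    by_cases hz : z ∈ {z | 0 ≤ f z + ((-1 : ℚ) : ℝ) * g z}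
    · rw [Set.indicator_of_mem hz]
      have h1 : g z ≤ f z := by
        have h2 : 0 ≤ f z + ((-1 : ℚ) : ℝ) * g z := hz
        push_cast at h2
        linarith
      rw [min_eq_right h1, map_one]
      push_cast
      ring
    · rw [Set.indicator_of_notMem hz]
      have h1 : f z ≤ g z := by
        have h2 : ¬ 0 ≤ f z + ((-1 : ℚ) : ℝ) * g z := hz
        push_cast at h2
        linarith
      rw [min_eq_left h1]
      ring
  rw [e]
  exact h

theorem pr_inf' {ι α : Type} (T : Finset α) (hT : T.Nonempty) (f : α → (ι → ℝ) → ℝ)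
    (h : ∀ a, IsPR (f a)) : IsPR (fun z => T.inf' hT (fun a => f a z)) := by
  classical
  induction hT using Finset.Nonempty.cons_induction with
  | singleton a => simpa using h a
  | cons a s ha hs ih =>
    have e : (fun z => (Finset.cons a s ha).inf' (Finset.cons_nonempty ha) (fun a => f a z)) =
        fun z => min (f a z) (s.inf' hs (fun a => f a z)) := by
      funext z
      rw [Finset.inf'_cons]
    rw [e]
    exact pr_min (h a) ih

theorem pr_iInf {ι α : Type} [Fintype α] [Nonempty α] (q : α → MvPolynomial ι ℚ) :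
    IsPR (fun z => ⨅ a, (aeval z (q a) : ℝ)) := by
  have e : (fun z : ι → ℝ => ⨅ a, (aeval z (q a) : ℝ)) =
      fun z => Finset.univ.inf' Finset.univ_nonempty (fun a => (aeval z (q a) : ℝ)) := by
    funext z
    rw [Finset.inf'_univ_eq_ciInf]
  rw [e]
  exact pr_inf' _ _ _ fun a => IsPR.poly (q a)

theorem cont_iInf {ι α : Type} [Fintype α] [Nonempty α] (q : α → MvPolynomial ι ℚ) :
    Continuous (fun z : ι → ℝ => ⨅ a, (aeval z (q a) : ℝ)) := by
  have e : (fun z : ι → ℝ => ⨅ a, (aeval z (q a) : ℝ)) =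
      fun z => Finset.univ.inf' Finset.univ_nonempty (fun a => (aeval z (q a) : ℝ)) := by
    funext z
    rw [Finset.inf'_univ_eq_ciInf]
  rw [e]
  exact Continuous.finset_inf'_apply Finset.univ_nonempty fun a _ => cont_aeval (q a)

/-- The integral of a minimum of rational polynomials over the unit cube is a period. -/
theorem period_of_min {n : ℕ} {α : Type} [Fintype α] [Nonempty α]
    (q : α → MvPolynomial (Fin n) ℚ) :
    IsPeriod (∫ z in Set.Icc (0 : Fin n → ℝ) 1, ⨅ a, (aeval z (q a) : ℝ)) := by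
  obtain ⟨u, hu⟩ : ∃ u : ℚ, u = (1 / 2 : ℚ) ^ n := ⟨_, rfl⟩
  have hu0 : (0 : ℝ) ≤ (u : ℝ) := by
    rw [hu]
    positivity
  have hu1 : (2 : ℝ) ^ n * (u : ℝ) = 1 := by
    rw [hu]
    push_cast
    rw [← mul_pow]
    norm_num
  obtain ⟨q', hq'⟩ : ∃ q' : α → MvPolynomial (Fin n) ℚ, q' = fun a =>
      C u * bind₁ (fun i => C (1 / 2 : ℚ) * (1 + X i)) (q a) := ⟨_, rfl⟩
  have h1 := period_of_smooth (fun z : Fin n → ℝ => ⨅ a, (aeval z (q' a) : ℝ)) (pr_iInf q')
    (cont_iInf q')
  rw [Pool.Agent.OneIneq.box_ucube, ← integral_const_mul] at h1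
  have e : ∀ z : Fin n → ℝ, (2 : ℝ) ^ n * (⨅ a, (aeval (fun i => 2 * z i - 1) (q' a) : ℝ)) =
      ⨅ a, (aeval z (q a) : ℝ) := by
    intro z
    rw [Real.mul_iInf_of_nonneg (by positivity)]
    refine iInf_congr fun a => ?_
    rw [hq', map_mul, aeval_C, aeval_bind₁, eq_ratCast, ← mul_assoc, hu1, one_mul]
    congr 2
    funext i
    simp only [map_mul, map_add, map_one, aeval_C, aeval_X, eq_ratCast]
    push_cast
    ring
  simp only [e] at h1
  exact h1

end Pool.Agent.MinQ
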