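import Pool.Agent.W_2cf66e_h3.Main3

/-!
# MP_2cf66e_nt, one inequality in the same dimension: definitions of the statement (helper88)
-/

set_option autoImplicit false

noncomputable section

open MeasureTheory

namespace Pool.Agent.OneIneq

/-- The set of the points of `ℝ^m` where the polynomial is positive. -/
def pos {m : ℕ} (f : MvPolynomial (Fin m) ℤ) : Set (Fin m → ℝ) :=
  {u | 0 < (MvPolynomial.aeval u f : ℝ)}

/-- The set of the points of `ℝ^m` where the determinant is positive. -/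
def dpos {m N : ℕ} (c : Fin N → Fin N → Fin (m + 2)) : Set (Fin m → ℝ) :=
  {u | 0 < (mat c u).det}

/-- The open unit cube of `ℝ^m`. -/
def ocube (m : ℕ) : Set (Fin m → ℝ) := {u | ∀ i, 0 < u i ∧ u i < 1}

/-- The mean value over the cube `[0,1]^m` of the sign of the polynomial. -/
def msg {m : ℕ} (f : MvPolynomial (Fin m) ℤ) : ℝ :=
  ∫ u in {u : Fin m → ℝ | ∀ i, 0 ≤ u i ∧ u i ≤ 1}, (SignType.sign (MvPolynomial.aeval u f : ℝ) : ℝ)

/-- For some homogeneous polynomial `F(t, z_0, ..., z_n)` with integer coefficients, some `K` and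
all integers `T ≥ 1`: the integer points `z` with `0 < F(T, z)` satisfy `|z_i| ≤ K T` and
`z / T ∈ O`, and their number differs from `x T ^ (n + 1)` by at most `K T ^ n`. -/
def Lat (n : ℕ) (x : ℝ) (O : Set (Fin (n + 1) → ℝ)) : Prop :=
  ∃ (d K : ℕ) (F : MvPolynomial (Fin (n + 2)) ℤ), F.IsHomogeneous d ∧
    ∀ T : ℕ, 0 < T →
      (∀ z : Fin (n + 1) → ℤ, 0 < MvPolynomial.eval (Fin.cons (T : ℤ) z : Fin (n + 2) → ℤ) F →
        (∀ i, |z i| ≤ K * T) ∧ (fun i => (z i : ℝ) / T) ∈ O) ∧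
      |({z : Fin (n + 1) → ℤ |
          0 < MvPolynomial.eval (Fin.cons (T : ℤ) z : Fin (n + 2) → ℤ) F}.ncard : ℝ) -
        x * (T : ℝ) ^ (n + 1)| ≤ K * (T : ℝ) ^ n

end Pool.Agent.OneIneq
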