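import Pool.Agent.W_2cf66e_h23.DefsU

/-!
# MP_2cf66e_nt, one inequality in the same dimension: definitions (helper88)
-/

set_option autoImplicit false

noncomputable section

open MeasureTheory Set Filter Topology

namespace Pool.Agent.WSP

/-- The positivity set of a polynomial. -/
def PS {m : ℕ} (f : MvPolynomial (Fin m) ℚ) : Set (Fin m → ℝ) :=
  {z | 0 < (MvPolynomial.aeval z f : ℝ)}

/-- Volumes of bounded positivity sets of one polynomial in `m` variables. -/
def V1 (m : ℕ) (x : ℝ) : Prop :=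
  ∃ f : MvPolynomial (Fin m) ℚ, f ≠ 0 ∧ Bornology.IsBounded (PS f) ∧ (volume (PS f)).toReal = x

/-- The positivity set between the walls of the coordinates `1, .., j`. -/
def WS {n : ℕ} (j : ℕ) (P : MvPolynomial (Fin (n + 1)) ℚ) : Set (Fin (n + 1) → ℝ) :=
  {z | (∀ i : Fin n, (i : ℕ) < j → 0 < z i.succ ∧ z i.succ < 1) ∧
    0 < (MvPolynomial.aeval z P : ℝ)}

/-- Constant leading coefficient in the coordinate `0`. -/
def LC {n : ℕ} (P : MvPolynomial (Fin (n + 1)) ℚ) : Prop :=
  ∃ a : ℚ, a ≠ 0 ∧ (MvPolynomial.finSuccEquiv ℚ n P).leadingCoeff = MvPolynomial.C a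

/-- The folding map in the coordinates `0` and `i.succ`. -/
def FM {n : ℕ} (i : Fin n) (z : Fin (n + 1) → ℝ) : Fin (n + 1) → ℝ :=
  Function.update (Function.update z i.succ ((z i.succ) ^ 2 / ((z i.succ) ^ 2 + (z 0) ^ 2))) 0
    (((z i.succ) ^ 2 + (z 0) ^ 2) ^ 2 / (2 * z i.succ * z 0))

end Pool.Agent.WSP
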