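import Pool.Agent.W_2cf66e_h88.Defs
import Pool.Agent.W_2cf66e_h46.QB
import Pool.Agent.W_2cf66e_h65.CBox

/-!
# MinQ, part A2: raising the degree (helper12)

`D` is any predicate on real numbers. If all integrals over cubes of polynomials times products of
high powers of positive parts of quadratic polynomials have the property `D`, then so have the
same integrals for arbitrary polynomials. The step is the identity
`(ζ A + B)_+^(a+b+1) / (a+b+1)! = ζ^(a+1) ∫ (A - s)_+^a / a! (B + ζ s)_+^b / b! ds`.
-/

set_option autoImplicit false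

noncomputable section

open MeasureTheory MvPolynomial

namespace Pool.Agent.MinQ

open Pool.Agent.QVol (box)

/-! ### The real identity -/

theorem beta12 (a : ℕ) : ∀ (b : ℕ) (u v : ℝ), ∫ s in u..v, (v - s) ^ a * (s - u) ^ b =
    (a.factorial * b.factorial : ℝ) / (a + b + 1).factorial * (v - u) ^ (a + b + 1) := by
  induction a with
  | zero =>
    intro b u v
    have h1 : ∫ s in u..v, (v - s) ^ 0 * (s - u) ^ b = ∫ s in u..v, (s - u) ^ b := by
      simp
    rw [h1, intervalIntegral.integral_comp_sub_right (fun x => x ^ b) u, integral_pow,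
      show 0 + b + 1 = b + 1 by ring, Nat.factorial_succ]
    have h2 : ((b : ℝ) + 1) ≠ 0 := by positivity
    have h3 : (b.factorial : ℝ) ≠ 0 := by positivity
    push_cast
    rw [sub_self, zero_pow (by omega)]
    field_simp
    simp
  | succ a ih =>
    intro b u v
    have h2 : ((b : ℝ) + 1) ≠ 0 := by positivity
    have hu : ∀ s ∈ Set.uIcc u v, HasDerivAt (fun s => (v - s) ^ (a + 1))
        (-((a : ℝ) + 1) * (v - s) ^ a) s := by
      intro s _
      have h := ((hasDerivAt_id' s).const_sub v).pow (a + 1)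
      have e : ((a + 1 : ℕ) : ℝ) * (v - s) ^ (a + 1 - 1) * (-1) =
          -((a : ℝ) + 1) * (v - s) ^ a := by
        rw [Nat.add_sub_cancel]
        push_cast
        ring
      rw [← e]
      exact h
    have hv : ∀ s ∈ Set.uIcc u v, HasDerivAt (fun s => (s - u) ^ (b + 1) / ((b : ℝ) + 1))
        ((s - u) ^ b) s := by
      intro s _
      have h := (((hasDerivAt_id' s).sub_const u).pow (b + 1)).div_const ((b : ℝ) + 1)
      have e : ((b + 1 : ℕ) : ℝ) * (s - u) ^ (b + 1 - 1) * 1 / ((b : ℝ) + 1) =
          (s - u) ^ b := by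
        rw [Nat.add_sub_cancel]
        push_cast
        field_simp
      rw [← e]
      exact h
    have h := intervalIntegral.integral_mul_deriv_eq_deriv_mul hu hv
      (by apply Continuous.intervalIntegrable; fun_prop)
      (by apply Continuous.intervalIntegrable; fun_prop)
    rw [h, sub_self, sub_self, zero_pow (by omega : a + 1 ≠ 0), zero_pow (by omega : b + 1 ≠ 0)]
    have h4 : ∫ x in u..v, -((a : ℝ) + 1) * (v - x) ^ a * ((x - u) ^ (b + 1) / ((b : ℝ) + 1)) =
        -(((a : ℝ) + 1) / ((b : ℝ) + 1)) * ∫ x in u..v, (v - x) ^ a * (x - u) ^ (b + 1) := by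
      rw [← intervalIntegral.integral_const_mul]
      congr 1
      ext x
      field_simp
    rw [h4, ih (b + 1) u v, show a + 1 + b + 1 = a + (b + 1) + 1 by ring, Nat.factorial_succ a,
      Nat.factorial_succ b]
    push_cast
    field_simp
    ring

theorem split12 {a b : ℕ} (ha : 1 ≤ a) (hb : 1 ≤ b) {ζ A B M : ℝ} (hζ : 0 < ζ) (hA : A ≤ M)
    (hB : B ≤ M * ζ) :
    (max (ζ * A + B) 0) ^ (a + b + 1) = ((a + b + 1).factorial : ℝ) /
      (a.factorial * b.factorial) * ζ ^ (a + 1) *
      ∫ s in (-M)..M, (max (A - s) 0) ^ a * (max (B + ζ * s) 0) ^ b := by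
  have hcont : Continuous fun s : ℝ => (max (A - s) 0) ^ a * (max (B + ζ * s) 0) ^ b := by
    fun_prop
  have hint : ∀ u v : ℝ, IntervalIntegrable
      (fun s : ℝ => (max (A - s) 0) ^ a * (max (B + ζ * s) 0) ^ b) volume u v :=
    fun u v => hcont.intervalIntegrable u v
  rcases le_or_gt (ζ * A + B) 0 with h | h
  · have h1 : ∀ s : ℝ, (max (A - s) 0) ^ a * (max (B + ζ * s) 0) ^ b = 0 := by
      intro s
      rcases le_or_gt A s with h2 | h2
      · rw [max_eq_right (by linarith), zero_pow (by omega), zero_mul]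
      · have h3 : B + ζ * s ≤ 0 := by nlinarith
        rw [max_eq_right h3, zero_pow (by omega), mul_zero]
    simp only [h1]
    rw [max_eq_right h, zero_pow (by omega)]
    simp
  · have h0 : -M ≤ -(B / ζ) := by
      rw [neg_le_neg_iff, div_le_iff₀ hζ]
      exact hB
    have hs : -(B / ζ) < A := by
      have h2 : -(B / ζ) * ζ < A * ζ := by
        have h3 : -(B / ζ) * ζ = -B := by field_simp
        rw [h3]
        linarith
      exact lt_of_mul_lt_mul_right h2 hζ.le
    have e1 : ∫ s in (-M)..(-(B / ζ)), (max (A - s) 0) ^ a * (max (B + ζ * s) 0) ^ b = 0 := by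
      have h2 : ∫ s in (-M)..(-(B / ζ)), (max (A - s) 0) ^ a * (max (B + ζ * s) 0) ^ b =
          ∫ s in (-M)..(-(B / ζ)), (0 : ℝ) := by
        refine intervalIntegral.integral_congr fun s hs' => ?_
        rw [Set.uIcc_of_le h0] at hs'
        have h3 : B + ζ * s ≤ 0 := by
          have h4 : s * ζ ≤ -(B / ζ) * ζ := mul_le_mul_of_nonneg_right hs'.2 hζ.le
          have h5 : -(B / ζ) * ζ = -B := by field_simp
          rw [h5] at h4
          linarith
        show (max (A - s) 0) ^ a * (max (B + ζ * s) 0) ^ b = 0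
        rw [max_eq_right h3, zero_pow (by omega), mul_zero]
      rw [h2]
      simp
    have e3 : ∫ s in A..M, (max (A - s) 0) ^ a * (max (B + ζ * s) 0) ^ b = 0 := by
      have h2 : ∫ s in A..M, (max (A - s) 0) ^ a * (max (B + ζ * s) 0) ^ b =
          ∫ s in A..M, (0 : ℝ) := by
        refine intervalIntegral.integral_congr fun s hs' => ?_
        rw [Set.uIcc_of_le hA] at hs'
        show (max (A - s) 0) ^ a * (max (B + ζ * s) 0) ^ b = 0
        rw [max_eq_right (by linarith [hs'.1]), zero_pow (by omega), zero_mul]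
      rw [h2]
      simp
    have e2 : ∫ s in (-(B / ζ))..A, (max (A - s) 0) ^ a * (max (B + ζ * s) 0) ^ b =
        ζ ^ b * ∫ s in (-(B / ζ))..A, (A - s) ^ a * (s - (-(B / ζ))) ^ b := by
      rw [← intervalIntegral.integral_const_mul]
      refine intervalIntegral.integral_congr fun s hs' => ?_
      rw [Set.uIcc_of_le hs.le] at hs'
      have h3 : B + ζ * s = ζ * (s - (-(B / ζ))) := by
        field_simp
        ring
      show (max (A - s) 0) ^ a * (max (B + ζ * s) 0) ^ b = _
      rw [h3, max_eq_left (by linarith [hs'.2]),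
        max_eq_left (mul_nonneg hζ.le (by linarith [hs'.1])), mul_pow]
      ring
    have hsum : ∫ s in (-M)..M, (max (A - s) 0) ^ a * (max (B + ζ * s) 0) ^ b =
        ζ ^ b * ∫ s in (-(B / ζ))..A, (A - s) ^ a * (s - (-(B / ζ))) ^ b := by
      rw [← intervalIntegral.integral_add_adjacent_intervals (hint (-M) (-(B / ζ)))
        (hint (-(B / ζ)) M), ← intervalIntegral.integral_add_adjacent_intervals
        (hint (-(B / ζ)) A) (hint A M), e1, e2, e3]
      ring
    rw [hsum, beta12, max_eq_left h.le]
    have h6 : A - -(B / ζ) = (ζ * A + B) / ζ := by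
      field_simp
      ring
    rw [h6, div_pow, show a + b + 1 = (a + 1) + b by ring, pow_add ζ (a + 1) b]
    have h7 : ((a + 1 + b).factorial : ℝ) ≠ 0 := by positivity
    have h8 : (a.factorial : ℝ) ≠ 0 := by positivity
    have h9 : (b.factorial : ℝ) ≠ 0 := by positivity
    field_simp

/-! ### Cubes -/

theorem mem_box12 {κ : Type} {z : κ → ℝ} : z ∈ box κ ↔ ∀ i, -1 ≤ z i ∧ z i ≤ 1 := by
  unfold box
  rw [Pool.Agent.CVol.box_eq]
  rfl

theorem cpt12 (κ : Type) : IsCompact (box κ) := isCompact_Icc

theorem cont12 {κ : Type} (p : MvPolynomial κ ℚ) :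
    Continuous fun z : κ → ℝ => (aeval z p : ℝ) := by
  induction p using MvPolynomial.induction_on with
  | C a =>
    simp only [aeval_C]
    exact continuous_const
  | add p q hp hq =>
    simp only [map_add]
    exact hp.add hq
  | mul_X p i hp =>
    simp only [map_mul, aeval_X]
    exact hp.mul (continuous_apply i)

theorem unit12 (f : (Unit → ℝ) → ℝ) :
    ∫ s in box Unit, f s = ∫ t in (-1 : ℝ)..1, f (fun _ => t) := by
  have hm : MeasurableSet (box Unit) := (cpt12 Unit).measurableSet
  rw [intervalIntegral.integral_of_le (by norm_num), ← integral_Icc_eq_integral_Ioc,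
    ← integral_indicator hm, Pool.Agent.QVol.int_unit, ← integral_indicator measurableSet_Icc]
  refine integral_congr_ae (Filter.Eventually.of_forall (fun t => ?_))
  have hiff : (fun _ : Unit => t) ∈ box Unit ↔ t ∈ Set.Icc (-1 : ℝ) 1 := by
    rw [mem_box12]
    simp [Set.mem_Icc]
  show (box Unit).indicator f (fun _ => t) =
    (Set.Icc (-1 : ℝ) 1).indicator (fun t => f (fun _ => t)) t
  by_cases h : t ∈ Set.Icc (-1 : ℝ) 1
  · rw [Set.indicator_of_mem (hiff.mpr h), Set.indicator_of_mem h]
  · rw [Set.indicator_of_notMem (fun h' => h (hiff.mp h')), Set.indicator_of_notMem h]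

/-- A rational bound on the cube. -/
theorem bdd12 {κ : Type} [Fintype κ] (p : MvPolynomial κ ℚ) :
    ∃ M : ℚ, 0 < M ∧ ∀ z ∈ box κ, |(aeval z p : ℝ)| ≤ M := by
  obtain ⟨C, hC⟩ := (cpt12 κ).exists_bound_of_continuousOn (cont12 p).continuousOn
  obtain ⟨M, hM⟩ := exists_rat_gt (max C 0)
  refine ⟨M, ?_, fun z hz => ?_⟩
  · have : (0 : ℝ) < M := lt_of_le_of_lt (le_max_right _ _) hM
    exact_mod_cast this
  · have h := hC z hz
    rw [Real.norm_eq_abs] at h
    exact h.trans ((le_max_left _ _).trans hM.le)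

/-- A family with one more member. -/
def cons12 {κ β : Type} (q : MvPolynomial κ ℚ) (f : β → MvPolynomial κ ℚ) :
    Option β → MvPolynomial κ ℚ := fun o => o.elim q f

theorem GoodF.congr {D : ℝ → Prop} {κ β β' : Type} [Fintype κ] [Fintype β] [Fintype β']
    {f : β → MvPolynomial κ ℚ} {f' : β' → MvPolynomial κ ℚ} (h : GoodF D f) (σ : β ≃ β')
    (hσ : ∀ i, f' (σ i) = f i) : GoodF D f' := by
  obtain ⟨E, hE⟩ := h
  refine ⟨E, fun e he p => ?_⟩
  have h1 := hE (fun i => e (σ i)) (fun i => he _) p
  have h2 : ∀ z : κ → ℝ, ∏ i, (max (aeval z (f i) : ℝ) 0) ^ (e (σ i)) =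
      ∏ i, (max (aeval z (f' i) : ℝ) 0) ^ (e i) := by
    intro z
    refine Fintype.prod_equiv σ _ _ fun i => ?_
    rw [hσ]
  simp only [h2] at h1
  exact h1

/-- The split identity for families. -/
theorem GoodF.split {D : ℝ → Prop} {κ α : Type} [Fintype κ] [Fintype α]
    {F : α → MvPolynomial κ ℚ} {ζ A B : MvPolynomial κ ℚ} {M : ℚ} (hM : 0 < M)
    (hζ : ∀ z ∈ box κ, (0 : ℝ) < aeval z ζ) (hA : ∀ z ∈ box κ, (aeval z A : ℝ) ≤ M)
    (hB : ∀ z ∈ box κ, (aeval z B : ℝ) ≤ M * aeval z ζ)
    (h : GoodF D (cons12 (rename Sum.inl B + C M * rename Sum.inl ζ * X (Sum.inr ()))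
      (cons12 (rename Sum.inl A - C M * X (Sum.inr ()))
        (fun i => (rename Sum.inl (F i) : MvPolynomial (κ ⊕ Unit) ℚ))))) :
    GoodF D (cons12 (ζ * A + B) F) := by
  obtain ⟨E, hE⟩ := h
  refine ⟨2 * E + 3, fun e he p => ?_⟩
  obtain ⟨a, b, ha, hb, hab⟩ : ∃ a b : ℕ, E + 1 ≤ a ∧ E + 1 ≤ b ∧ e none = a + b + 1 :=
    ⟨E + 1, e none - (E + 2), le_rfl, by have := he none; omega, by have := he none; omega⟩
  set c : ℚ := M * ((a + b + 1).factorial / (a.factorial * b.factorial)) with hc
  have h1 := hE (fun o => o.elim b (fun o' => o'.elim a (fun i => e (some i))))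
    (by
      rintro (_ | _ | i)
      · show E ≤ b
        omega
      · show E ≤ a
        omega
      · exact le_trans (by omega) (he (some i)))
    (C c * rename Sum.inl (p * ζ ^ (a + 1)))
  convert h1 using 1
  rw [Pool.Agent.CVol.int_box_sum]
  · refine setIntegral_congr_fun (cpt12 κ).measurableSet fun x hx => ?_
    have hs : ∀ s : ℝ, (Sum.elim x (fun _ : Unit => s) : κ ⊕ Unit → ℝ) ∘ Sum.inl = x := fun s => by
      ext i
      rfl
    show _ = ∫ u in box Unit, _
    rw [unit12]
    simp only [Fintype.prod_option, cons12, Option.elim_none, Option.elim_some, map_add, map_mul,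
      map_sub, aeval_rename, aeval_C, aeval_X, Sum.elim_inr, hs, eq_ratCast, map_pow]
    rw [hab, split12 (by omega : 1 ≤ a) (by omega : 1 ≤ b) (hζ x hx) (hA x hx) (hB x hx)]
    have hM' : (0 : ℝ) < M := by exact_mod_cast hM
    have h3 : ∫ s in (-(M : ℝ))..M, (max ((aeval x A : ℝ) - s) 0) ^ a *
        (max ((aeval x B : ℝ) + aeval x ζ * s) 0) ^ b =
        M * ∫ t in (-1 : ℝ)..1, (max ((aeval x A : ℝ) - M * t) 0) ^ a *
          (max ((aeval x B : ℝ) + aeval x ζ * (M * t)) 0) ^ b := by
      have h4 := intervalIntegral.mul_integral_comp_mul_left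
        (f := fun s : ℝ => (max ((aeval x A : ℝ) - s) 0) ^ a *
          (max ((aeval x B : ℝ) + aeval x ζ * s) 0) ^ b) (c := (M : ℝ)) (a := -1) (b := 1)
      rw [h4]
      congr 1 <;> ring
    rw [h3]
    have h5 : ∀ K : ℝ, ∫ t in (-1 : ℝ)..1, (c : ℝ) * (aeval x p * (aeval x ζ : ℝ) ^ (a + 1)) *
        ((max ((aeval x B : ℝ) + M * aeval x ζ * t) 0) ^ b *
          ((max ((aeval x A : ℝ) - M * t) 0) ^ a * K)) =
        (c : ℝ) * (aeval x p * (aeval x ζ : ℝ) ^ (a + 1)) * K *
        ∫ t in (-1 : ℝ)..1, (max ((aeval x A : ℝ) - M * t) 0) ^ a *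
          (max ((aeval x B : ℝ) + aeval x ζ * (M * t)) 0) ^ b := by
      intro K
      rw [← intervalIntegral.integral_const_mul]
      refine intervalIntegral.integral_congr fun t _ => ?_
      show _ = _
      rw [show (aeval x B : ℝ) + M * aeval x ζ * t = aeval x B + aeval x ζ * (M * t) by ring]
      ring
    rw [h5]
    have h6 : (c : ℝ) = M * ((a + b + 1).factorial / (a.factorial * b.factorial)) := by
      rw [hc]
      push_cast
      ring
    rw [h6]
    ring
  · refine (cont12 _).mul (continuous_finsetProd _ fun i _ => ?_)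
    exact ((cont12 _).max continuous_const).pow _

/-- Good together with all families of quadratics in all extensions of the cube. -/
def SG (D : ℝ → Prop) {κ β : Type} [Fintype κ] [Fintype β] (f : β → MvPolynomial κ ℚ) : Prop :=
  ∀ (κ' : Type) [Fintype κ'] (e : κ → κ') (β' : Type) [Fintype β']
    (u : β' → MvPolynomial κ' ℚ), (∀ i, (u i).totalDegree ≤ 2) →
    GoodF D (Sum.elim (fun i => rename e (f i)) u)

theorem SG.ren {D : ℝ → Prop} {κ κ' β : Type} [Fintype κ] [Fintype κ'] [Fintype β]
    {f : β → MvPolynomial κ ℚ} (h : SG D f) (e : κ → κ') :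
    SG D (fun i => rename e (f i)) := by
  intro κ'' _ e' β' _ u hu
  have h1 := h κ'' (e' ∘ e) β' u hu
  refine h1.congr (Equiv.refl _) fun i => ?_
  rcases i with i | i
  · simp [rename_rename]
  · rfl

theorem SG.congr {D : ℝ → Prop} {κ β β' : Type} [Fintype κ] [Fintype β] [Fintype β']
    {f : β → MvPolynomial κ ℚ} {f' : β' → MvPolynomial κ ℚ} (h : SG D f) (σ : β ≃ β')
    (hσ : ∀ i, f' (σ i) = f i) : SG D f' := by
  intro κ'' _ e' β'' _ u hu
  refine (h κ'' e' β'' u hu).congr (Equiv.sumCongr σ (Equiv.refl _)) fun i => ?_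
  rcases i with i | i
  · simp [hσ]
  · rfl

theorem deg_ren12 {κ κ' : Type} (e : κ → κ') {q : MvPolynomial κ ℚ} {n : ℕ}
    (h : q.totalDegree ≤ n) : (rename e q).totalDegree ≤ n :=
  (totalDegree_rename_le e q).trans h

/-- Quadratics may be added. -/
theorem SG.quad {D : ℝ → Prop} {κ β : Type} [Fintype κ] [Fintype β]
    {f : β → MvPolynomial κ ℚ} (h : SG D f) {q : MvPolynomial κ ℚ} (hq : q.totalDegree ≤ 2) :
    SG D (cons12 q f) := by
  intro κ' _ e β' _ u hu
  have h1 := h κ' e (Option β') (cons12 (rename e q) u) (by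
    rintro (_ | i)
    · exact deg_ren12 e hq
    · exact hu i)
  refine h1.congr ⟨fun i => i.elim (fun j => Sum.inl (some j))
      (fun o => o.elim (Sum.inl none) (fun j => Sum.inr j)),
    fun i => i.elim (fun o => o.elim (Sum.inr none) (fun j => Sum.inl j))
      (fun j => Sum.inr (some j)), ?_, ?_⟩ ?_
  · rintro (i | _ | i) <;> rfl
  · rintro ((_ | i) | i) <;> rfl
  · rintro (i | _ | i) <;> rfl

theorem SG.good {D : ℝ → Prop} {κ β : Type} [Fintype κ] [Fintype β]
    {f : β → MvPolynomial κ ℚ} (h : SG D f) : GoodF D f := by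
  have h1 := h κ id Empty (fun i => i.elim) (fun i => i.elim)
  refine h1.congr (Equiv.sumEmpty β Empty) fun i => ?_
  rcases i with i | i
  · simp [rename_id]
  · exact i.elim

/-- The split step for strongly good families. -/
theorem SG.split {D : ℝ → Prop} {κ α : Type} [Fintype κ] [Fintype α]
    {F : α → MvPolynomial κ ℚ} {ζ A B : MvPolynomial κ ℚ} {M : ℚ} (hM : 0 < M)
    (hζ : ∀ z ∈ box κ, (0 : ℝ) < aeval z ζ) (hA : ∀ z ∈ box κ, (aeval z A : ℝ) ≤ M)
    (hB : ∀ z ∈ box κ, (aeval z B : ℝ) ≤ M * aeval z ζ)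
    (h : SG D (cons12 (rename Sum.inl B + C M * rename Sum.inl ζ * X (Sum.inr ()))
      (cons12 (rename Sum.inl A - C M * X (Sum.inr ()))
        (fun i => (rename Sum.inl (F i) : MvPolynomial (κ ⊕ Unit) ℚ))))) :
    SG D (cons12 (ζ * A + B) F) := by
  intro κ' _ e β' _ u hu
  have hbox : ∀ z ∈ box κ', (fun i => z (e i)) ∈ box κ := by
    intro z hz
    rw [mem_box12] at hz ⊢
    exact fun i => hz (e i)
  have h1 := h (κ' ⊕ Unit) (Sum.map e id) β' (fun i => rename Sum.inl (u i))
    (fun i => deg_ren12 _ (hu i))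
  have h2 : GoodF D (cons12 (rename Sum.inl (rename e B) +
      C M * rename Sum.inl (rename e ζ) * X (Sum.inr ()))
      (cons12 (rename Sum.inl (rename e A) - C M * X (Sum.inr ()))
        (fun i => (rename Sum.inl ((Sum.elim (fun i => rename e (F i)) u : α ⊕ β' → _) i) :
          MvPolynomial (κ' ⊕ Unit) ℚ)))) := by
    refine h1.congr ⟨fun i => i.elim (fun o => o.elim none
        (fun o' => o'.elim (some none) (fun j => some (some (Sum.inl j)))))
        (fun j => some (some (Sum.inr j))),
      fun o => o.elim (Sum.inl none) (fun o' => o'.elim (Sum.inl (some none))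
        (fun i => i.elim (fun j => Sum.inl (some (some j))) (fun j => Sum.inr j))), ?_, ?_⟩ ?_
    · rintro ((_ | _ | i) | i) <;> rfl
    · rintro (_ | _ | i | i) <;> rfl
    · rintro ((_ | _ | i) | i)
      · simp only [Equiv.coe_fn_mk, Sum.elim_inl, Option.elim_none, cons12, map_add, map_mul,
          rename_rename, rename_C, rename_X, Sum.map_inr, id_eq]
        rfl
      · simp only [Equiv.coe_fn_mk, Sum.elim_inl, Option.elim_none, Option.elim_some, cons12,
          map_sub, map_mul, rename_rename, rename_C, rename_X, Sum.map_inr, id_eq]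
        rfl
      · simp only [Equiv.coe_fn_mk, Sum.elim_inl, Option.elim_some, cons12, rename_rename]
        rfl
      · rfl
  have h3 := GoodF.split (D := D) (F := (Sum.elim (fun i => rename e (F i)) u : α ⊕ β' → _))
    (ζ := rename e ζ) (A := rename e A) (B := rename e B) hM
    (fun z hz => by rw [aeval_rename]; exact hζ _ (hbox z hz))
    (fun z hz => by rw [aeval_rename]; exact hA _ (hbox z hz))
    (fun z hz => by rw [aeval_rename, aeval_rename]; exact hB _ (hbox z hz)) h2
  refine h3.congr ⟨fun o => o.elim (Sum.inl none)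
      (fun i => i.elim (fun j => Sum.inl (some j)) (fun j => Sum.inr j)),
    fun i => i.elim (fun o => o.elim none (fun j => some (Sum.inl j)))
      (fun j => some (Sum.inr j)), ?_, ?_⟩ ?_
  · rintro (_ | i | i) <;> rfl
  · rintro ((_ | i) | i) <;> rfl
  · rintro (_ | i | i)
    · simp only [Equiv.coe_fn_mk, Sum.elim_inl, Option.elim_none, cons12, map_add, map_mul]
    · rfl
    · rfl

/-- The structural induction. -/
theorem sg_poly {D : ℝ → Prop} {ι : Type} (f : MvPolynomial ι ℚ) :
    ∀ (κ : Type) [Fintype κ] (e : ι → κ) (α : Type) [Fintype α] (F : α → MvPolynomial κ ℚ),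
      SG D F → ∀ (c : ℚ) (u : MvPolynomial κ ℚ), u.totalDegree ≤ 2 →
      SG D (cons12 (C c * rename e f + u) F) := by
  induction f using MvPolynomial.induction_on with
  | C a =>
    intro κ _ e α _ F hF c u hu
    refine hF.quad ?_
    rw [rename_C, ← C_mul]
    refine (totalDegree_add _ _).trans (max_le ?_ hu)
    rw [totalDegree_C]
    exact Nat.zero_le 2
  | add f g hf hg =>
    intro κ _ e α _ F hF c u hu
    obtain ⟨M₁, hM₁, hA⟩ := bdd12 (C c * rename e f)
    obtain ⟨M₂, hM₂, hB⟩ := bdd12 (C c * rename e g + u)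
    have h1 := hf (κ ⊕ Unit) (Sum.inl ∘ e) α (fun i => rename Sum.inl (F i)) (hF.ren Sum.inl) c
      (-(C (M₁ + M₂) * X (Sum.inr ()))) (by
        rw [totalDegree_neg]
        refine (totalDegree_mul _ _).trans ?_
        rw [totalDegree_C, totalDegree_X]
        omega)
    have h2 := hg (κ ⊕ Unit) (Sum.inl ∘ e) _ _ h1 c
      (rename Sum.inl u + C (M₁ + M₂) * X (Sum.inr ())) (by
        refine (totalDegree_add _ _).trans (max_le (deg_ren12 _ hu) ?_)
        refine (totalDegree_mul _ _).trans ?_
        rw [totalDegree_C, totalDegree_X]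
        omega)
    have h3 := SG.split (D := D) (F := F) (ζ := 1) (A := C c * rename e f)
      (B := C c * rename e g + u) (M := M₁ + M₂) (by linarith)
      (fun z _ => by simp)
      (fun z hz => by
        have := (abs_le.1 (hA z hz)).2
        have h5 : (0 : ℝ) < M₂ := by exact_mod_cast hM₂
        push_cast
        linarith)
      (fun z hz => by
        have := (abs_le.1 (hB z hz)).2
        have h5 : (0 : ℝ) < M₁ := by exact_mod_cast hM₁
        push_cast
        rw [map_one]
        linarith)
      (by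
        refine h2.congr (Equiv.refl _) ?_
        rintro (_ | _ | i)
        · simp only [Equiv.refl_apply, cons12, Option.elim_none, map_add, map_mul, rename_C,
            rename_rename, map_one, mul_one]
          ring
        · simp only [Equiv.refl_apply, cons12, Option.elim_none, Option.elim_some, map_add,
            map_mul, rename_C, rename_rename]
          ring
        · simp only [Equiv.refl_apply, cons12, Option.elim_some])
    refine h3.congr (Equiv.refl _) ?_
    rintro (_ | i)
    · simp only [Equiv.refl_apply, cons12, Option.elim_none, map_add]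
      ring
    · simp only [Equiv.refl_apply, cons12, Option.elim_some]
  | mul_X g i hg =>
    intro κ _ e α _ F hF c u hu
    obtain ⟨M₁, hM₁, hA⟩ := bdd12 (C c * rename e g)
    obtain ⟨M₂, hM₂, hB⟩ := bdd12 (C (-2 * c) * rename e g + u)
    have h1 := hg (κ ⊕ Unit) (Sum.inl ∘ e) α (fun i => rename Sum.inl (F i)) (hF.ren Sum.inl) c
      (-(C (M₁ + M₂) * X (Sum.inr ()))) (by
        rw [totalDegree_neg]
        refine (totalDegree_mul _ _).trans ?_
        rw [totalDegree_C, totalDegree_X]
        omega)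
    have h2 := hg (κ ⊕ Unit) (Sum.inl ∘ e) _ _ h1 (-2 * c)
      (rename Sum.inl u + C (M₁ + M₂) * (X (Sum.inl (e i)) + C 2) * X (Sum.inr ())) (by
        refine (totalDegree_add _ _).trans (max_le (deg_ren12 _ hu) ?_)
        refine (totalDegree_mul _ _).trans ?_
        rw [totalDegree_X]
        have h6 := (totalDegree_mul (C (M₁ + M₂) : MvPolynomial (κ ⊕ Unit) ℚ)
          (X (Sum.inl (e i)) + C 2))
        have h7 := totalDegree_add (X (Sum.inl (e i)) : MvPolynomial (κ ⊕ Unit) ℚ) (C 2)
        rw [totalDegree_C] at h6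
        rw [totalDegree_C, totalDegree_X] at h7
        omega)
    have h3 := SG.split (D := D) (F := F) (ζ := X (e i) + C 2) (A := C c * rename e g)
      (B := C (-2 * c) * rename e g + u) (M := M₁ + M₂) (by linarith)
      (fun z hz => by
        have h5 := (mem_box12.1 hz (e i)).1
        simp only [map_add, aeval_X, aeval_C, eq_ratCast]
        push_cast
        linarith)
      (fun z hz => by
        have := (abs_le.1 (hA z hz)).2
        have h5 : (0 : ℝ) < M₂ := by exact_mod_cast hM₂
        push_cast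
        linarith)
      (fun z hz => by
        have h6 := (abs_le.1 (hB z hz)).2
        have h5 := (mem_box12.1 hz (e i)).1
        have h7 : (0 : ℝ) < M₁ := by exact_mod_cast hM₁
        have h8 : (0 : ℝ) < M₂ := by exact_mod_cast hM₂
        have h9 : (aeval z (X (e i) + C 2 : MvPolynomial κ ℚ) : ℝ) = z (e i) + 2 := by
          simp only [map_add, aeval_X, aeval_C, eq_ratCast]
          push_cast
          ring
        rw [h9]
        push_cast
        have h10 : ((M₁ : ℝ) + M₂) * 1 ≤ (M₁ + M₂) * (z (e i) + 2) :=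
          mul_le_mul_of_nonneg_left (by linarith) (by linarith)
        linarith)
      (by
        refine h2.congr (Equiv.refl _) ?_
        rintro (_ | _ | j)
        · simp only [Equiv.refl_apply, cons12, Option.elim_none, map_add, map_mul, rename_C,
            rename_rename, rename_X]
          ring
        · simp only [Equiv.refl_apply, cons12, Option.elim_none, Option.elim_some, map_add,
            map_mul, rename_C, rename_rename]
          ring
        · simp only [Equiv.refl_apply, cons12, Option.elim_some])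
    refine h3.congr (Equiv.refl _) ?_
    rintro (_ | j)
    · simp only [Equiv.refl_apply, cons12, Option.elim_none, map_mul, rename_X, neg_mul, map_neg]
      ring
    · simp only [Equiv.refl_apply, cons12, Option.elim_some]

theorem sg_all (D : ℝ → Prop)
    (h : ∀ (κ β : Type) [Fintype κ] [Fintype β] (u : β → MvPolynomial κ ℚ),
      (∀ i, (u i).totalDegree ≤ 2) → GoodF D u) (β : Type) [Fintype β] :
    ∀ (κ : Type) [Fintype κ] (f : β → MvPolynomial κ ℚ), SG D f := by
  refine Fintype.induction_empty_option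
    (P := fun β _ => ∀ (κ : Type) [Fintype κ] (f : β → MvPolynomial κ ℚ), SG D f) ?_ ?_ ?_ β
  · intro α β' _ σ hα κ _ f
    let _ := Fintype.ofEquiv β' σ.symm
    exact (hα κ (fun i => f (σ i))).congr σ fun i => rfl
  · intro κ _ f κ' _ e β' _ u hu
    refine h κ' _ _ ?_
    rintro (i | i)
    · exact i.elim
    · exact hu i
  · intro α _ hα κ _ f
    have h1 := sg_poly (D := D) (f none) κ id α (fun i => f (some i)) (hα κ _) 1 0 (by simp)
    refine h1.congr (Equiv.refl _) ?_
    rintro (_ | i)
    · simp [cons12, rename_id]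
    · simp only [Equiv.refl_apply, cons12, Option.elim_some]

/-- Quadratic families suffice. -/
theorem good_all (D : ℝ → Prop)
    (h : ∀ (κ β : Type) [Fintype κ] [Fintype β] (u : β → MvPolynomial κ ℚ),
      (∀ i, (u i).totalDegree ≤ 2) → GoodF D u) {κ β : Type} [Fintype κ] [Fintype β]
    (f : β → MvPolynomial κ ℚ) : GoodF D f :=
  (sg_all D h β κ f).good

end Pool.Agent.MinQ
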