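import Pool.Agent.W_2cf66e_h88.Defs

/-!
# MP_2cf66e_nt (periods), minima of quadratics: weights (helper14)

Polynomials are combinations of products of large powers of the polynomials `X j + c`, `c ≥ 2`,
which are positive on the cube; so a polynomial weight costs nothing.
-/

set_option autoImplicit false

noncomputable section

namespace Pool.Agent.MinQ.Wt14

open MeasureTheory MvPolynomial

open Pool.Agent.QVol (box)

variable {ι : Type} [Fintype ι]

/-- The generators. -/
def gen14 (ι : Type) [Fintype ι] (k : ℕ) : Set (MvPolynomial ι ℚ) :=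
  {q | ∃ (c : ι → ℚ) (K : ι → ℕ), (∀ j, 2 ≤ c j) ∧ (∀ j, k ≤ K j) ∧
    q = ∏ j, (X j + C (c j)) ^ (K j)}

lemma X_mul_mem14 (k : ℕ) (j : ι) {p : MvPolynomial ι ℚ}
    (hp : p ∈ Submodule.span ℚ (gen14 ι k)) : X j * p ∈ Submodule.span ℚ (gen14 ι k) := by
  classical
  induction hp using Submodule.span_induction with
  | mem q hq =>
    obtain ⟨c, K, hc, hK, rfl⟩ := hq
    have h1 : X j * ∏ i, (X i + C (c i) : MvPolynomial ι ℚ) ^ (K i) =
        ∏ i, (X i + C (c i)) ^ (K i + if i = j then 1 else 0) -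
          (c j) • ∏ i, (X i + C (c i)) ^ (K i) := by
      have h2 : ∏ i, (X i + C (c i) : MvPolynomial ι ℚ) ^ (K i + if i = j then 1 else 0) =
          (X j + C (c j)) * ∏ i, (X i + C (c i)) ^ (K i) := by
        simp only [pow_add]
        rw [Finset.prod_mul_distrib, mul_comm]
        congr 1
        rw [Finset.prod_eq_single j]
        · rw [if_pos rfl, pow_one]
        · intro i _ hi
          rw [if_neg hi, pow_zero]
        · intro h
          exact absurd (Finset.mem_univ j) h
      rw [h2, smul_eq_C_mul]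
      ring
    rw [h1]
    refine Submodule.sub_mem _ (Submodule.subset_span ?_)
      (Submodule.smul_mem _ _ (Submodule.subset_span ⟨c, K, hc, hK, rfl⟩))
    refine ⟨c, fun i => K i + if i = j then 1 else 0, hc, fun i => ?_, rfl⟩
    exact (hK i).trans (Nat.le_add_right _ _)
  | zero => rw [mul_zero]; exact Submodule.zero_mem _
  | add x y _ _ hx hy => rw [mul_add]; exact Submodule.add_mem _ hx hy
  | smul a x _ hx => rw [mul_smul_comm]; exact Submodule.smul_mem _ _ hx

lemma mul_mem14 (k : ℕ) (r : MvPolynomial ι ℚ) {p : MvPolynomial ι ℚ}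
    (hp : p ∈ Submodule.span ℚ (gen14 ι k)) : r * p ∈ Submodule.span ℚ (gen14 ι k) := by
  induction r using MvPolynomial.induction_on with
  | C a =>
    rw [← smul_eq_C_mul]
    exact Submodule.smul_mem _ _ hp
  | add x y hx hy => rw [add_mul]; exact Submodule.add_mem _ hx hy
  | mul_X x j hx =>
    rw [mul_assoc, mul_comm x, mul_assoc, mul_comm p x]
    exact X_mul_mem14 k j hx

lemma one_mem14 (k : ℕ) : (1 : MvPolynomial ι ℚ) ∈ Submodule.span ℚ (gen14 ι k) := by
  classical
  have hco : ∀ j : ι, ∃ a b : MvPolynomial ι ℚ,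
      a * (X j + C 2) ^ k + b * (X j + C 3) ^ k = 1 := by
    intro j
    have h1 : IsCoprime (X j + C 2 : MvPolynomial ι ℚ) (X j + C 3) := by
      refine ⟨-1, 1, ?_⟩
      have h2 : (C 3 : MvPolynomial ι ℚ) = C 2 + 1 := by
        rw [← C_1, ← C_add]
        norm_num
      rw [h2]
      ring
    exact h1.pow
  choose a b hab using hco
  have h1 : (1 : MvPolynomial ι ℚ) =
      ∏ j, (a j * (X j + C 2) ^ k + b j * (X j + C 3) ^ k) := by
    rw [Finset.prod_congr rfl fun j _ => hab j, Finset.prod_const_one]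
  rw [h1, Finset.prod_add]
  refine Submodule.sum_mem _ fun t _ => ?_
  have h2 : (∏ i ∈ t, a i * (X i + C 2) ^ k) * ∏ i ∈ Finset.univ \ t, b i * (X i + C 3) ^ k =
      ((∏ i ∈ t, a i) * ∏ i ∈ Finset.univ \ t, b i) *
        ∏ i, (X i + C (if i ∈ t then 2 else 3) : MvPolynomial ι ℚ) ^ k := by
    have h3 : ∏ i, (X i + C (if i ∈ t then 2 else 3) : MvPolynomial ι ℚ) ^ k =
        (∏ i ∈ t, (X i + C 2) ^ k) * ∏ i ∈ Finset.univ \ t, (X i + C 3) ^ k := by
      rw [← Finset.prod_sdiff (Finset.subset_univ t), mul_comm]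
      congr 1
      · refine Finset.prod_congr rfl fun i hi => ?_
        rw [if_pos hi]
      · refine Finset.prod_congr rfl fun i hi => ?_
        rw [if_neg (Finset.mem_sdiff.1 hi).2]
    rw [h3, Finset.prod_mul_distrib, Finset.prod_mul_distrib]
    ring
  rw [h2]
  refine mul_mem14 k _ (Submodule.subset_span ?_)
  refine ⟨fun i => if i ∈ t then 2 else 3, fun _ => k, fun i => ?_, fun _ => le_rfl, rfl⟩
  dsimp only
  split_ifs <;> norm_num

/-- Every polynomial is a combination of products of powers, all exponents at least `k`, of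
`X j + c`, `c ≥ 2`. -/
theorem wt_span (k : ℕ) (p : MvPolynomial ι ℚ) :
    p ∈ Submodule.span ℚ {q : MvPolynomial ι ℚ | ∃ (c : ι → ℚ) (K : ι → ℕ),
      (∀ j, 2 ≤ c j) ∧ (∀ j, k ≤ K j) ∧ q = ∏ j, (X j + C (c j)) ^ (K j)} := by
  have h1 := mul_mem14 k p (one_mem14 (ι := ι) k)
  rw [mul_one] at h1
  exact h1

omit [Fintype ι] in
lemma cont_aeval14 (p : MvPolynomial ι ℚ) : Continuous fun z : ι → ℝ => (aeval z p : ℝ) := by
  have h1 : (fun z : ι → ℝ => (aeval z p : ℝ)) =
      fun z : ι → ℝ => eval z (map (algebraMap ℚ ℝ) p) := by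
    funext z
    rw [aeval_def, eval₂_eq_eval_map]
  rw [h1]
  exact continuous_eval _

/-- Polynomial weights: the form with an abstract class `D`. -/
theorem wt_good_abs (D : ℝ → Prop) (h0 : D 0) (hadd : ∀ x y : ℝ, D x → D y → D (x + y))
    (hsm : ∀ (q : ℚ) (x : ℝ), D x → D ((q : ℝ) * x))
    (hboth : ∀ {β ι : Type} [Fintype β] [Fintype ι] (u : β → MvPolynomial ι ℚ),
      (∀ i, (u i).totalDegree ≤ 2) → ∀ k : β → ℕ, (∀ i, 2 * Fintype.card β ≤ k i) →
        D (∫ z in box ι, ∏ i, (max (aeval z (u i) : ℝ) 0) ^ (k i)))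
    {β : Type} [Fintype β] (u : β → MvPolynomial ι ℚ) (hu : ∀ i, (u i).totalDegree ≤ 2) :
    GoodF D u := by
  classical
  refine ⟨2 * Fintype.card (β ⊕ ι), fun e he p => ?_⟩
  have hcont : ∀ q : MvPolynomial ι ℚ, Continuous fun z : ι → ℝ =>
      (aeval z q : ℝ) * ∏ i, (max (aeval z (u i) : ℝ) 0) ^ (e i) := fun q =>
    (cont_aeval14 q).mul (continuous_finsetProd _ fun i _ =>
      ((cont_aeval14 (u i)).max continuous_const).pow (e i))
  have hbox : IsCompact (box ι) := isCompact_Icc
  have hint : ∀ q : MvPolynomial ι ℚ, IntegrableOn (fun z : ι → ℝ =>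
      (aeval z q : ℝ) * ∏ i, (max (aeval z (u i) : ℝ) 0) ^ (e i)) (box ι) := fun q =>
    (hcont q).continuousOn.integrableOn_compact hbox
  have hp := wt_span (2 * Fintype.card (β ⊕ ι)) p
  induction hp using Submodule.span_induction with
  | mem q hq =>
    obtain ⟨c, K, hc, hK, rfl⟩ := hq
    have h1 := hboth (Sum.elim u (fun j => X j + C (c j) : ι → MvPolynomial ι ℚ))
      (by
        rintro (i | j)
        · exact hu i
        · refine (totalDegree_add _ _).trans (max_le ?_ ?_)
          · rw [totalDegree_X]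
            norm_num
          · rw [totalDegree_C]
            norm_num)
      (Sum.elim e K) (by
        rintro (i | j)
        · exact he i
        · exact hK j)
    have h2 : ∫ z in box ι, (aeval z (∏ j, (X j + C (c j) : MvPolynomial ι ℚ) ^ (K j)) : ℝ) *
        ∏ i, (max (aeval z (u i) : ℝ) 0) ^ (e i) =
        ∫ z in box ι, ∏ i, (max (aeval z (Sum.elim u
          (fun j => X j + C (c j) : ι → MvPolynomial ι ℚ) i) : ℝ) 0) ^ (Sum.elim e K i) := by
      refine setIntegral_congr_fun measurableSet_Icc fun z hz => ?_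
      rw [Fintype.prod_sum_type, mul_comm]
      congr 1
      rw [map_prod]
      refine Finset.prod_congr rfl fun j _ => ?_
      rw [Sum.elim_inr, Sum.elim_inr, map_pow]
      congr 1
      rw [max_eq_left]
      rw [map_add, aeval_X, aeval_C]
      have h3 : (-1 : ℝ) ≤ z j := hz.1 j
      have h4 : (2 : ℝ) ≤ (c j : ℝ) := by exact_mod_cast hc j
      have h5 : (algebraMap ℚ ℝ) (c j) = (c j : ℝ) := rfl
      rw [h5]
      linarith
    rw [h2]
    exact h1
  | zero =>
    have h1 : ∫ z in box ι, (aeval z (0 : MvPolynomial ι ℚ) : ℝ) *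
        ∏ i, (max (aeval z (u i) : ℝ) 0) ^ (e i) = 0 := by
      simp only [map_zero, zero_mul, integral_zero]
    rw [h1]
    exact h0
  | add x y _ _ hx hy =>
    have h1 : ∫ z in box ι, (aeval z (x + y) : ℝ) *
        ∏ i, (max (aeval z (u i) : ℝ) 0) ^ (e i) =
        (∫ z in box ι, (aeval z x : ℝ) * ∏ i, (max (aeval z (u i) : ℝ) 0) ^ (e i)) +
          ∫ z in box ι, (aeval z y : ℝ) * ∏ i, (max (aeval z (u i) : ℝ) 0) ^ (e i) := by
      rw [← integral_add (hint x) (hint y)]
      refine setIntegral_congr_fun measurableSet_Icc fun z _ => ?_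
      rw [map_add, add_mul]
    rw [h1]
    exact hadd _ _ hx hy
  | smul a x _ hx =>
    have h1 : ∫ z in box ι, (aeval z (a • x) : ℝ) *
        ∏ i, (max (aeval z (u i) : ℝ) 0) ^ (e i) =
        (a : ℝ) * ∫ z in box ι, (aeval z x : ℝ) * ∏ i, (max (aeval z (u i) : ℝ) 0) ^ (e i) := by
      rw [← integral_const_mul]
      refine setIntegral_congr_fun measurableSet_Icc fun z _ => ?_
      rw [map_smul, Rat.smul_def, mul_assoc]
    rw [h1]
    exact hsm a _ hx

end Pool.Agent.MinQ.Wt14
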