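import Pool.Agent.W_2cf66e_h88.Conv88
import Pool.Agent.W_2cf66e_h88.Wt14
import Pool.Agent.W_2cf66e_h88.Deg12
import Pool.Agent.W_2cf66e_h57.Kq57
import Pool.Agent.W_2cf66e_h6.KClo6
import Pool.Agent.W_2cf66e_h6.KBoth6
import Pool.Agent.W_2cf66e_h46.QJf

/-!
# Minima of quadratics: every period is in the class `Dq`, and the equivalences (helper88)
-/

set_option autoImplicit false

noncomputable section

open MeasureTheory MvPolynomial
open Pool.Agent.QVol (box cont_aeval Apow period_apow)
open Pool.Agent.CVol (IsPeriod)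

namespace Pool.Agent.MinQ

theorem good_quad {κ β : Type} [Fintype κ] [Fintype β] (u : β → MvPolynomial κ ℚ)
    (hu : ∀ i, (u i).totalDegree ≤ 2) : GoodF Pool.Agent.TopK.Dq u := by
  refine Wt14.wt_good_abs Pool.Agent.TopK.Dq ?_ (fun x y => Pool.Agent.TopK.Dq_add)
    (fun q x h => Pool.Agent.TopK.Dq_smul h q) ?_ u hu
  · have h := Pool.Agent.TopK.Dq_rat 0
    simpa using h
  · intro β ι _ _ u hu k hk
    exact Pool.Agent.TopK.both6 u hu k hk

theorem good_poly {κ β : Type} [Fintype κ] [Fintype β] (f : β → MvPolynomial κ ℚ) :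
    GoodF Pool.Agent.TopK.Dq f :=
  good_all Pool.Agent.TopK.Dq (fun κ β _ _ u hu => good_quad u hu) f

/-- Every period is, with both signs, a rational number plus the integral of a maximum of
quadratic polynomials. -/
theorem period_dq {x : ℝ} (h : IsPeriod x) : Pool.Agent.TopK.Dq x := by
  obtain ⟨ι, _, J, P, hP⟩ := period_apow h
  choose E hE using fun j => good_poly (fun _ : Unit => P j)
  obtain ⟨H, hH⟩ := hP (∑ j, E j + 1) (by omega)
  rw [hH]
  refine Pool.Agent.TopK.Dq_sum _ _ fun j _ => ?_
  have h1 : E j ≤ 2 * (∑ j, E j + 1) := by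
    have h2 := Finset.single_le_sum (f := E) (fun i _ => Nat.zero_le _) (Finset.mem_univ j)
    omega
  have h3 := hE j (fun _ => 2 * (∑ j, E j + 1)) (fun _ => h1) (H j)
  simpa only [Fintype.univ_ofSubsingleton, Finset.prod_const, Finset.card_singleton, pow_one,
    Finset.univ_unique, Finset.prod_singleton] using h3

theorem period_kq {x : ℝ} (h : IsPeriod x) : Kq x := by
  obtain ⟨-, ι, i1, α, i2, i3, r, c, hr, hx⟩ := period_dq h
  refine ⟨ι, i1, α, i2, i3, r, -c, hr, ?_⟩
  push_cast
  linarith

/-- A real number is a period if and only if it is the integral over a unit cube of a minimum of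
finitely many rational polynomials of degree at most two. -/
theorem period_iff_min (x : ℝ) : IsPeriod x ↔
    ∃ (n m : ℕ) (q : Fin (m + 1) → MvPolynomial (Fin n) ℚ), (∀ j, (q j).totalDegree ≤ 2) ∧
      x = ∫ z in Set.Icc (0 : Fin n → ℝ) 1, ⨅ j, (aeval z (q j) : ℝ) := by
  constructor
  · intro h
    exact kq_unit57 (period_kq h)
  · rintro ⟨n, m, q, -, rfl⟩
    exact period_of_min q

end Pool.Agent.MinQ
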