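import Pool.Agent.W_2cf66e_h3.Main3

/-!
# MP_2cf66e_nt, one inequality in the same dimension: lattice points (helper88; the proofs of
helper3 in a fixed dimension)
-/

set_option autoImplicit false

noncomputable section

open MeasureTheory MvPolynomial Filter
open scoped ENNReal Topology Pointwise

namespace Pool.Agent.OneIneq

open Pool.Agent.CVol

/-- From the volume to the lattice points, same dimension. -/
theorem lat_of_vol {n : ℕ} {x : ℝ} (hx : 0 < x) (f : MvPolynomial (Fin n) ℤ)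
    (h1 : Bornology.IsBounded {u : Fin n → ℝ | 0 < (aeval u f : ℝ)})
    (h2 : volume {u : Fin n → ℝ | 0 < (aeval u f : ℝ)} = ENNReal.ofReal x) :
    ∃ (d K : ℕ) (F : MvPolynomial (Fin (n + 1)) ℤ), F.IsHomogeneous d ∧
      ∀ T : ℕ, 0 < T →
        (∀ z : Fin n → ℤ, 0 < eval (Fin.cons (T : ℤ) z : Fin (n + 1) → ℤ) F →
          ∀ i, |z i| ≤ K * T) ∧
        |({z : Fin n → ℤ | 0 < eval (Fin.cons (T : ℤ) z : Fin (n + 1) → ℤ) F}.ncard : ℝ) -
          x * (T : ℝ) ^ n| * T ≤ K * (T : ℝ) ^ n := by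
  obtain ⟨d, F, hF, hFf⟩ := homog f
  have hS : Sset F = {u : Fin n → ℝ | 0 < (aeval u f : ℝ)} := by
    ext u
    have h3 := hFf 1 u
    simp only [one_mul, one_pow] at h3
    rw [Sset, Set.mem_ofPred_eq, Set.mem_ofPred_eq, h3]
  obtain ⟨C0, hC0⟩ := isBounded_iff_forall_norm_le.1 h1
  obtain ⟨C, hC⟩ := exists_nat_ge C0
  obtain ⟨D, hD⟩ := PF.poly f
  obtain ⟨K0, hK0, hdav⟩ := dav D C n
  obtain ⟨K, hK⟩ := exists_nat_ge K0
  have hcont : Continuous fun u : Fin n → ℝ => (aeval u f : ℝ) := by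
    have h3 := HCell_cont (map (Int.castRingHom ℚ) f)
    simp only [toRat] at h3
    exact h3
  have hbox : ∀ u : Fin n → ℝ, 0 < (aeval u f : ℝ) → ∀ i, |u i| ≤ C := by
    intro u hu i
    have h4 := (norm_le_pi_norm u i).trans ((hC0 u hu).trans hC)
    rwa [Real.norm_eq_abs] at h4
  -- the volume
  have hV : Vc C n (fun u : Fin n → ℝ => (aeval u f : ℝ)) = x := by
    have hm : MeasurableSet {u : Fin n → ℝ | 0 < (aeval u f : ℝ)} :=
      (isOpen_lt continuous_const hcont).measurableSet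
    have h3 : (fun u : Fin n → ℝ => ps (aeval u f : ℝ)) =
        {u : Fin n → ℝ | 0 < (aeval u f : ℝ)}.indicator fun _ => 1 := by
      funext u
      rw [Set.indicator_apply]
      rfl
    have h4 : rbox C n ∩ {u : Fin n → ℝ | 0 < (aeval u f : ℝ)} =
        {u : Fin n → ℝ | 0 < (aeval u f : ℝ)} := by
      refine Set.inter_eq_right.2 fun u hu => ?_
      have h5 := fun i => abs_le.1 (hbox u hu i)
      exact ⟨fun i => (h5 i).1, fun i => (h5 i).2⟩
    unfold Vc
    rw [h3, setIntegral_indicator hm, h4, setIntegral_const, measureReal_def, h2,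
      ENNReal.toReal_ofReal hx.le, smul_eq_mul, mul_one]
  refine ⟨d, max C K, F, hF, fun T hT => ?_⟩
  have hT' : (0 : ℝ) < T := by exact_mod_cast hT
  have hzb : ∀ z : Fin n → ℤ, 0 < eval (Fin.cons (T : ℤ) z : Fin (n + 1) → ℤ) F →
      ∀ i, |z i| ≤ C * T := by
    intro z hz i
    have h3 := (Sset_scale hF hT z).2 hz
    rw [hS] at h3
    have h4 := hbox _ h3 i
    rw [abs_div, Nat.abs_cast, div_le_iff₀ hT'] at h4
    exact_mod_cast h4
  refine ⟨fun z hz i => ?_, ?_⟩
  · refine (hzb z hz i).trans ?_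
    have : (C : ℤ) ≤ (max C K : ℕ) := by exact_mod_cast le_max_left C K
    exact mul_le_mul_of_nonneg_right this (by positivity)
  · have hNc : (({z : Fin n → ℤ | 0 < eval (Fin.cons (T : ℤ) z : Fin (n + 1) → ℤ) F}.ncard
        : ℕ) : ℝ) = Nc C T n (fun u : Fin n → ℝ => (aeval u f : ℝ)) := by
      classical
      have h5 : {z : Fin n → ℤ | 0 < eval (Fin.cons (T : ℤ) z : Fin (n + 1) → ℤ) F} =
          ((lbox C T n).filter fun z => 0 < (aeval (fun i => (z i : ℝ) / T) f : ℝ)) := by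
        ext z
        rw [Finset.coe_filter, Set.mem_ofPred_eq, Set.mem_ofPred_eq]
        have h6 := Sset_scale hF hT z
        rw [hS, Set.mem_ofPred_eq] at h6
        rw [← h6]
        constructor
        · intro h7
          refine ⟨?_, h7⟩
          rw [lbox, Fintype.mem_piFinset]
          intro i
          rw [Finset.mem_Icc]
          exact abs_le.1 (hzb z (h6.1 h7) i)
        · rintro ⟨-, h7⟩
          exact h7
      rw [h5, Set.ncard_coe_finset, Nc, Finset.card_filter]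
      push_cast
      rfl
    have h6 := hdav _ hcont hD T hT
    rw [hV] at h6
    rw [hNc, mul_comm x]
    refine h6.trans (mul_le_mul_of_nonneg_right ?_ (by positivity))
    have : (K : ℝ) ≤ (max C K : ℕ) := by exact_mod_cast le_max_right C K
    exact hK.trans this

/-- From the lattice points to the volume, same dimension. -/
theorem vol_of_lat {n : ℕ} {x : ℝ} (hx : 0 < x) {d K : ℕ} {F : MvPolynomial (Fin (n + 1)) ℤ}
    (hF : F.IsHomogeneous d)
    (hall : ∀ T : ℕ, 0 < T →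
        (∀ z : Fin n → ℤ, 0 < eval (Fin.cons (T : ℤ) z : Fin (n + 1) → ℤ) F →
          ∀ i, |z i| ≤ K * T) ∧
        |({z : Fin n → ℤ | 0 < eval (Fin.cons (T : ℤ) z : Fin (n + 1) → ℤ) F}.ncard : ℝ) -
          x * (T : ℝ) ^ n| * T ≤ K * (T : ℝ) ^ n) :
    ∃ f : MvPolynomial (Fin n) ℤ,
      Bornology.IsBounded {u : Fin n → ℝ | 0 < (aeval u f : ℝ)} ∧
      volume {u : Fin n → ℝ | 0 < (aeval u f : ℝ)} = ENNReal.ofReal x := by
  obtain ⟨C, hC⟩ : ∃ C : ℕ, ∀ (T : ℕ) (z : Fin n → ℤ), 0 < T →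
      0 < eval (Fin.cons (T : ℤ) z : Fin (n + 1) → ℤ) F → ∀ i, |z i| ≤ C * T :=
    ⟨K, fun T z hT hz => (hall T hT).1 z hz⟩
  have hlim : Tendsto (fun T : ℕ =>
        ({z : Fin n → ℤ | 0 < eval (Fin.cons (T : ℤ) z : Fin (n + 1) → ℤ) F}.ncard : ℝ) /
          (T : ℝ) ^ n) atTop (𝓝 x) := by
    rw [tendsto_iff_norm_sub_tendsto_zero]
    refine squeeze_zero' (g := fun T : ℕ => (K : ℝ) / T)
      (Eventually.of_forall fun T => norm_nonneg _) ?_
      (tendsto_const_div_atTop_nhds_zero_nat _)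
    filter_upwards [eventually_gt_atTop 0] with T hT
    have hT' : (0 : ℝ) < T := by exact_mod_cast hT
    have h1 := (hall T hT).2
    have h2 : (0 : ℝ) < (T : ℝ) ^ n := by positivity
    rw [Real.norm_eq_abs, le_div_iff₀ hT']
    have h3 : ({z : Fin n → ℤ | 0 < eval (Fin.cons (T : ℤ) z : Fin (n + 1) → ℤ) F}.ncard : ℝ) /
        (T : ℝ) ^ n - x =
        (({z : Fin n → ℤ | 0 < eval (Fin.cons (T : ℤ) z : Fin (n + 1) → ℤ) F}.ncard : ℝ) -
          x * (T : ℝ) ^ n) / (T : ℝ) ^ n := by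
      field_simp
    rw [h3, abs_div, abs_of_pos h2, div_mul_eq_mul_div, div_le_iff₀ h2]
    exact h1
  obtain ⟨f, hf⟩ := dehom F
  have hS : Sset F = {u : Fin n → ℝ | 0 < (aeval u f : ℝ)} := by
    ext u
    rw [Sset, Set.mem_ofPred_eq, Set.mem_ofPred_eq, hf]
  have hopen : IsOpen (Sset F) := by
    have h3 := Sset_open (map (Int.castRingHom ℚ) f)
    simp only [toRat] at h3
    rw [hS]
    exact h3
  have hbd : Bornology.IsBounded (Sset F) := by
    refine isBounded_iff_forall_norm_le.2 ⟨C, fun u hu => ?_⟩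
    rw [pi_norm_le_iff_of_nonneg (Nat.cast_nonneg C)]
    intro i
    by_contra hc
    have hc' : (C : ℝ) < |u i| := not_le.1 hc
    -- a rational point in the open set
    have hO : IsOpen (Sset F ∩ {v : Fin n → ℝ | (C : ℝ) < |v i|}) :=
      hopen.inter (isOpen_lt continuous_const (continuous_apply i).abs)
    have hdense : DenseRange (fun (q : Fin n → ℚ) (j : Fin n) => ((q j : ℚ) : ℝ)) :=
      DenseRange.piMap fun _ => Rat.denseRange_cast
    obtain ⟨q, hq⟩ := hdense.exists_mem_open hO ⟨u, hu, hc'⟩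
    let T : ℕ := ∏ j, (q j).den
    have hT : 0 < T := Finset.prod_pos fun j _ => (q j).den_pos
    have hT' : (0 : ℝ) < T := by exact_mod_cast hT
    have hz : ∀ j, ∃ z : ℤ, (z : ℝ) = q j * T := by
      intro j
      refine ⟨(q j).num * ∏ j' ∈ Finset.univ.erase j, ((q j').den : ℤ), ?_⟩
      have h5 : (T : ℝ) = (q j).den * ∏ j' ∈ Finset.univ.erase j, ((q j').den : ℝ) := by
        simp only [T]
        push_cast
        exact (Finset.mul_prod_erase Finset.univ (fun j' => ((q j').den : ℝ))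
          (Finset.mem_univ j)).symm
      have h6 : ((q j : ℚ) : ℝ) * ((q j).den : ℝ) = ((q j).num : ℝ) := by
        have := Rat.mul_den_eq_num (q j)
        exact_mod_cast this
      rw [h5, ← mul_assoc, h6]
      push_cast
      rfl
    choose z hz using hz
    have hzu : (fun j => ((z j : ℤ) : ℝ) / T : Fin n → ℝ) = fun j => ((q j : ℚ) : ℝ) := by
      funext j
      rw [hz]
      field_simp
    have h7 := (Sset_scale hF hT z).1 (by rw [hzu]; exact hq.1)
    have h8 := hC T z hT h7 i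
    have h9 : |((z i : ℤ) : ℝ)| ≤ C * T := by exact_mod_cast h8
    have h10 : (C : ℝ) < |((q i : ℚ) : ℝ)| := hq.2
    rw [hz, abs_mul, Nat.abs_cast] at h9
    exact absurd (le_of_mul_le_mul_right h9 hT') (not_le.2 h10)
  by_cases h0 : map (Int.castRingHom ℚ) f = 0
  · exfalso
    have hem : Sset F = ∅ := by
      rw [hS]
      ext u
      rw [Set.mem_ofPred_eq, ← toRat, h0]
      simp
    have h3 : ∀ᶠ T : ℕ in atTop,
        ({z : Fin n → ℤ | 0 < eval (Fin.cons (T : ℤ) z : Fin (n + 1) → ℤ) F}.ncard : ℝ) /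
        (T : ℝ) ^ n = 0 := by
      filter_upwards [eventually_gt_atTop 0] with T hT
      have h4 : {z : Fin n → ℤ | 0 < eval (Fin.cons (T : ℤ) z : Fin (n + 1) → ℤ) F} = ∅ := by
        ext z
        rw [Set.mem_ofPred_eq, ← Sset_scale hF hT, hem]
        simp
      rw [h4]
      simp
    have h4 := tendsto_nhds_unique (hlim.congr' h3) tendsto_const_nhds
    linarith
  · have hg : ∀ u : Fin n → ℝ, (aeval u (map (Int.castRingHom ℚ) f) : ℝ) =
        aeval (Fin.cons 1 u : Fin (n + 1) → ℝ) F := by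
      intro u
      rw [toRat, hf]
    have h3 := tendsto_count hF _ hg h0 hbd
    have h4 := tendsto_nhds_unique hlim h3
    have h5 : volume (Sset F) ≠ ⊤ := hbd.measure_lt_top.ne
    refine ⟨f, by rw [← hS]; exact hbd, ?_⟩
    rw [← hS, h4, measureReal_def, ENNReal.ofReal_toReal h5]

end Pool.Agent.OneIneq
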