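import Pool.Agent.W_2cf66e_h88.LoB
import Pool.Agent.W_2cf66e_h88.LoL

/-!
# MP_2cf66e_nt, one inequality in the same dimension: mean signs (helper88)
-/

set_option autoImplicit false

noncomputable section

open MeasureTheory Set Filter Topology

namespace Pool.Agent.WSP

theorem cube_lt_top88 {n : ℕ} : volume (cube n) < ⊤ := by
  have h : cube n = Set.Icc (fun _ => (0 : ℝ)) (fun _ => (1 : ℝ)) := by
    ext u
    simp [cube, Pi.le_def, forall_and]
  rw [h]
  exact isCompact_Icc.measure_lt_top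

theorem measurable_sg88 : Measurable sg := by
  have h : sg = fun s => (Ioi (0 : ℝ)).indicator (fun _ => (1 : ℝ)) s -
      (Iio (0 : ℝ)).indicator (fun _ => (1 : ℝ)) s := by
    funext s
    rcases lt_trichotomy s 0 with h | h | h
    · rw [sg_neg h, indicator_of_notMem (by simp [h.le]), indicator_of_mem (by simpa using h)]
      ring
    · subst h
      simp [sg_zero]
    · rw [sg_pos h, indicator_of_mem (by simpa using h), indicator_of_notMem (by simp [h.le])]
      ring
  rw [h]
  exact (measurable_const.indicator measurableSet_Ioi).sub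
    (measurable_const.indicator measurableSet_Iio)

theorem sg_abs_le88 (s : ℝ) : ‖sg s‖ ≤ 1 := by
  rcases lt_trichotomy s 0 with h | h | h
  · rw [sg_neg h]; norm_num
  · subst h; rw [sg_zero]; norm_num
  · rw [sg_pos h]; norm_num

/-- clearing denominators keeps the sign -/
theorem sg_int88 {m : ℕ} (f : MvPolynomial (Fin m) ℚ) : ∃ F : MvPolynomial (Fin m) ℤ,
    ∀ z : Fin m → ℝ, sg (MvPolynomial.aeval z F) = sg (MvPolynomial.aeval z f) := by
  obtain ⟨D, F, hD, hF⟩ := clear_den68 f
  refine ⟨F, fun z => ?_⟩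
  have h1 : (MvPolynomial.aeval z F : ℝ) = (D : ℝ) * MvPolynomial.aeval z f := by
    have h2 : (MvPolynomial.aeval z (MvPolynomial.map (Int.castRingHom ℚ) F) : ℝ) =
        MvPolynomial.aeval z F := by
      have h3 := MvPolynomial.aeval_map_algebraMap (A := ℚ) (B := ℝ) z F
      exact h3
    rw [← h2, hF, map_mul, MvPolynomial.aeval_C]
    simp
  have hD' : (0 : ℝ) < (D : ℝ) := by exact_mod_cast hD
  rw [h1, sg_mul, sg_pos hD', one_mul]

/-- the half sign has mean zero on the cube -/
theorem half88 (n : ℕ) : ∫ z in cube (n + 1), sg (1 / 2 - z 0) = 0 := by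
  have hm := cube_meas (n + 1)
  rw [← integral_indicator hm]
  have h1 : ∀ z : Fin (n + 1) → ℝ, (cube (n + 1)).indicator (fun z => sg (1 / 2 - z 0)) (1 - z) =
      -(cube (n + 1)).indicator (fun z => sg (1 / 2 - z 0)) z := by
    intro z
    by_cases hz : z ∈ cube (n + 1)
    · have hz' : 1 - z ∈ cube (n + 1) := by
        intro i
        have h2 := hz i
        simp only [Pi.sub_apply, Pi.one_apply]
        constructor <;> linarith [h2.1, h2.2]
      rw [indicator_of_mem hz, indicator_of_mem hz']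
      simp only [Pi.sub_apply, Pi.one_apply]
      have h3 : (1 : ℝ) / 2 - (1 - z 0) = (-1) * (1 / 2 - z 0) := by ring
      rw [h3, sg_mul, sg_neg (by norm_num : (-1 : ℝ) < 0)]
      ring
    · have hz' : 1 - z ∉ cube (n + 1) := by
        intro h4
        refine hz fun i => ?_
        have h2 := h4 i
        simp only [Pi.sub_apply, Pi.one_apply] at h2
        constructor <;> linarith [h2.1, h2.2]
      rw [indicator_of_notMem hz, indicator_of_notMem hz', neg_zero]
  have h2 := integral_sub_left_eq_self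
    ((cube (n + 1)).indicator (fun z : Fin (n + 1) → ℝ => sg (1 / 2 - z 0))) volume
    (1 : Fin (n + 1) → ℝ)
  simp only [h1] at h2
  rw [integral_neg] at h2
  linarith

/-- volumes of bounded positivity sets as multiples of a mean sign -/
theorem sgn_V188 {n : ℕ} {x : ℝ} (h : V1 (n + 1) x) :
    ∃ (M : ℕ) (f : MvPolynomial (Fin (n + 1)) ℚ),
      x = M * ∫ z in cube (n + 1), sg (MvPolynomial.aeval z f) := by
  obtain ⟨f, hf0, hb, hv⟩ := h
  obtain ⟨R, hR⟩ := isBounded_iff_forall_norm_le.1 hb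
  obtain ⟨K, hK⟩ := exists_nat_gt (max R 0)
  have hK0 : (0 : ℝ) < K := lt_of_le_of_lt (le_max_right _ _) hK
  have hKR : R < K := lt_of_le_of_lt (le_max_left _ _) hK
  have hKq : (0 : ℚ) < K := by exact_mod_cast hK0
  obtain ⟨g, hg0, hg1, hg2, -⟩ := aff f hf0 (fun _ => 1 / 4) (fun _ => 1 / (4 * K))
    (fun _ => by positivity)
  have hsub : ∀ z ∈ PS g, ∀ i, 0 < z i ∧ z i < 1 / 2 := by
    intro z hz i
    have h1 := (norm_le_pi_norm _ i).trans (hR _ ((hg1 z).1 hz))
    rw [Real.norm_eq_abs] at h1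
    have h2 := abs_lt.1 (h1.trans_lt hKR)
    push_cast at h2
    have h3 : (z i - 1 / 4) / (1 / (4 * (K : ℝ))) = 4 * K * z i - K := by
      field_simp
    rw [h3] at h2
    constructor
    · by_contra hcon
      push Not at hcon
      nlinarith [h2.1]
    · by_contra hcon
      push Not at hcon
      nlinarith [h2.2]
  refine ⟨2 ^ (2 * n + 1) * K ^ (n + 1), (MvPolynomial.C (1 / 2) - MvPolynomial.X 0) * g, ?_⟩
  have hcm := cube_meas (n + 1)
  have hPm : MeasurableSet (PS g) := PS.meas g
  have hae : ∀ᵐ z : Fin (n + 1) → ℝ, (MvPolynomial.aeval z g : ℝ) ≠ 0 := by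
    rw [ae_iff]
    simp only [not_not]
    exact Pool.Agent.CVol.null_rat g hg0
  have hfun : ∀ᵐ z : Fin (n + 1) → ℝ, z ∈ cube (n + 1) →
      sg (MvPolynomial.aeval z ((MvPolynomial.C (1 / 2) - MvPolynomial.X 0) * g)) =
        2 * (PS g).indicator (fun _ => (1 : ℝ)) z - sg (1 / 2 - z 0) := by
    filter_upwards [hae] with z hz _
    have h4 : (MvPolynomial.aeval z ((MvPolynomial.C (1 / 2) - MvPolynomial.X 0) * g) : ℝ) =
        (1 / 2 - z 0) * MvPolynomial.aeval z g := by
      simp only [map_mul, map_sub, MvPolynomial.aeval_X, MvPolynomial.aeval_C]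
      congr 2
      simp
    rw [h4, sg_mul]
    by_cases hzg : z ∈ PS g
    · rw [indicator_of_mem hzg, sg_pos (show (0 : ℝ) < MvPolynomial.aeval z g from hzg),
        sg_pos (by linarith [(hsub z hzg 0).2] : (0 : ℝ) < 1 / 2 - z 0)]
      norm_num
    · have h5 : (MvPolynomial.aeval z g : ℝ) < 0 := lt_of_le_of_ne (not_lt.1 hzg) hz
      rw [indicator_of_notMem hzg, sg_neg h5]
      ring
  have hPc : PS g ⊆ cube (n + 1) := fun z hz i =>
    ⟨(hsub z hz i).1.le, by linarith [(hsub z hz i).2]⟩
  have hint1 : IntegrableOn (fun z : Fin (n + 1) → ℝ =>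
      2 * (PS g).indicator (fun _ => (1 : ℝ)) z) (cube (n + 1)) := by
    refine Integrable.const_mul ?_ 2
    refine (IntegrableOn.indicator ?_ hPm)
    exact integrableOn_const (ne_of_lt cube_lt_top88)
  have hint2 : IntegrableOn (fun z : Fin (n + 1) → ℝ => sg (1 / 2 - z 0)) (cube (n + 1)) := by
    refine Integrable.mono' (g := fun _ => (1 : ℝ)) (integrableOn_const (ne_of_lt cube_lt_top88))
      ?_ (Eventually.of_forall fun z => ?_)
    · exact (measurable_sg88.comp (measurable_const.sub (measurable_pi_apply 0))).aestronglyMeasurable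
    · exact sg_abs_le88 _
  rw [setIntegral_congr_ae hcm hfun, integral_sub hint1 hint2, half88, sub_zero,
    integral_const_mul, setIntegral_indicator hPm, inter_eq_self_of_subset_right hPc,
    setIntegral_const, smul_eq_mul, mul_one, measureReal_def, hg2, ENNReal.toReal_mul, hv,
    ENNReal.toReal_ofReal (by positivity)]
  simp only [Finset.prod_const, Finset.card_univ, Fintype.card_fin]
  push_cast
  have h6 : (2 : ℝ) ^ (2 * n + 1) * 2 = 4 ^ (n + 1) := by
    rw [show (4 : ℝ) = 2 ^ 2 by norm_num, ← pow_mul]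
    ring
  have h7 : ((1 : ℝ) / (4 * K)) ^ (n + 1) * (4 ^ (n + 1) * K ^ (n + 1)) = 1 := by
    rw [← mul_pow, ← mul_pow]
    rw [show (1 : ℝ) / (4 * K) * (4 * K) = 1 by field_simp, one_pow]
  calc x = (((1 : ℝ) / (4 * K)) ^ (n + 1) * (4 ^ (n + 1) * K ^ (n + 1))) * x := by rw [h7, one_mul]
    _ = 2 ^ (2 * n + 1) * K ^ (n + 1) * (2 * (((1 : ℝ) / (4 * K)) ^ (n + 1) * x)) := by
        rw [← h6]; ring

end Pool.Agent.WSP
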