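import Pool.Agent.W_2cf66e_h88.Oi88
import Pool.Agent.W_2cf66e_h88.Sign88
import Pool.Agent.W_2cf66e_h88.Lat88
import Pool.Agent.W_2cf66e_h23.MainE

/-!
# MP_2cf66e_nt, one inequality in the same dimension: the equivalences (helper88)
-/

set_option autoImplicit false

noncomputable section

open MeasureTheory Set Filter Topology

namespace Pool.Agent.WSP

/-- the volume as a bounded positivity set of one integer polynomial, same dimension -/
theorem one_int88 {n : ℕ} {x : ℝ} (hx : 0 < x) (S : Set (Fin (n + 1) → ℝ))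
    (hS : Pool.Agent.CVol.IsSA S) (hv : volume S = ENNReal.ofReal x) :
    ∃ f : MvPolynomial (Fin (n + 1)) ℤ,
      Bornology.IsBounded {u : Fin (n + 1) → ℝ | 0 < (MvPolynomial.aeval u f : ℝ)} ∧
      volume {u : Fin (n + 1) → ℝ | 0 < (MvPolynomial.aeval u f : ℝ)} = ENNReal.ofReal x := by
  obtain ⟨B, h1, h2, h3⟩ := fin_single S hS (by rw [hv]; exact ENNReal.ofReal_ne_top)
  have h4 : (volume B).toReal = x := by rw [h3, hv, ENNReal.toReal_ofReal hx.le]
  obtain ⟨f, -, h5, h6⟩ := oi B h1 h2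
  obtain ⟨F, hF⟩ := PS_int f
  refine ⟨F, by rw [hF]; exact h5, ?_⟩
  rw [hF, ← ENNReal.ofReal_toReal h5.measure_lt_top.ne, h6, h4]

theorem sa_int88 {m : ℕ} (f : MvPolynomial (Fin m) ℤ) :
    Pool.Agent.CVol.IsSA {u : Fin m → ℝ | 0 < (MvPolynomial.aeval u f : ℝ)} := by
  have h3 := Pool.Agent.CVol.IsSA.pos (MvPolynomial.map (Int.castRingHom ℚ) f)
  simp only [Pool.Agent.OneIneq.toRat] at h3
  exact h3

theorem same_dim88 (n : ℕ) {x : ℝ} (hx : 0 < x) : List.TFAE [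
      ∃ S : Set (Fin (n + 1) → ℝ), Pool.Agent.CVol.IsSA S ∧ volume S = ENNReal.ofReal x,
      ∃ S : Set (Fin (n + 1) → ℝ), Pool.Agent.CVol.IsSA S ∧ IsCompact S ∧
        volume S = ENNReal.ofReal x,
      ∃ f : MvPolynomial (Fin (n + 1)) ℤ,
        Bornology.IsBounded {u : Fin (n + 1) → ℝ | 0 < (MvPolynomial.aeval u f : ℝ)} ∧
        volume {u : Fin (n + 1) → ℝ | 0 < (MvPolynomial.aeval u f : ℝ)} = ENNReal.ofReal x,
      ∃ (N : ℕ) (c : Fin N → Fin N → Fin (n + 3)),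
        Bornology.IsBounded {u : Fin (n + 1) → ℝ | 0 < (Pool.Agent.OneIneq.mat c u).det} ∧
        volume {u : Fin (n + 1) → ℝ | 0 < (Pool.Agent.OneIneq.mat c u).det} = ENNReal.ofReal x,
      ∃ (d K : ℕ) (F : MvPolynomial (Fin (n + 2)) ℤ), F.IsHomogeneous d ∧
        ∀ T : ℕ, 0 < T →
          (∀ z : Fin (n + 1) → ℤ,
            0 < MvPolynomial.eval (Fin.cons (T : ℤ) z : Fin (n + 2) → ℤ) F →
              ∀ i, |z i| ≤ K * T) ∧
          |({z : Fin (n + 1) → ℤ |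
              0 < MvPolynomial.eval (Fin.cons (T : ℤ) z : Fin (n + 2) → ℤ) F}.ncard : ℝ) -
            x * (T : ℝ) ^ (n + 1)| ≤ K * (T : ℝ) ^ n] := by
  tfae_have 1 → 3 := by
    rintro ⟨S, hS, hv⟩
    exact one_int88 hx S hS hv
  tfae_have 3 → 1 := by
    rintro ⟨f, -, hv⟩
    exact ⟨_, sa_int88 f, hv⟩
  tfae_have 1 → 2 := by
    rintro ⟨S, h1, h3⟩
    obtain ⟨B, h4, h5, h6⟩ := fin_single S h1 (by rw [h3]; exact ENNReal.ofReal_ne_top)
    obtain ⟨K, h7, h8, h9⟩ := sa_compact h4 h5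
    exact ⟨K, h7, h8, by rw [h9, h6, h3]⟩
  tfae_have 2 → 1 := by
    rintro ⟨S, h1, -, h3⟩
    exact ⟨S, h1, h3⟩
  tfae_have 3 → 4 := by
    rintro ⟨f, h⟩
    obtain ⟨N, c, hc⟩ := Pool.Agent.OneIneq.exists_mat f
    exact ⟨N, c, by simpa only [hc] using h⟩
  tfae_have 4 → 3 := by
    rintro ⟨N, c, h⟩
    obtain ⟨f, hf⟩ := Pool.Agent.OneIneq.mat_poly c
    exact ⟨f, by simpa only [hf] using h⟩
  tfae_have 3 → 5 := by
    rintro ⟨f, h1, h2⟩
    obtain ⟨d, K, F, hF, h⟩ := Pool.Agent.OneIneq.lat_of_vol hx f h1 h2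
    refine ⟨d, K, F, hF, fun T hT => ⟨(h T hT).1, ?_⟩⟩
    have hT' : (0 : ℝ) < T := by exact_mod_cast hT
    have h3 := (h T hT).2
    rw [pow_succ (T : ℝ) n, ← mul_assoc (K : ℝ)] at h3
    have h4 := le_of_mul_le_mul_right h3 hT'
    rw [pow_succ (T : ℝ) n]
    exact h4
  tfae_have 5 → 3 := by
    rintro ⟨d, K, F, hF, h⟩
    refine Pool.Agent.OneIneq.vol_of_lat hx (d := d) (K := K) hF fun T hT => ⟨(h T hT).1, ?_⟩
    have hT' : (0 : ℝ) < T := by exact_mod_cast hT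
    have h3 := mul_le_mul_of_nonneg_right (h T hT).2 hT'.le
    rw [mul_assoc (K : ℝ), ← pow_succ] at h3
    exact h3
  tfae_finish

theorem period_dim88 {x : ℝ} (hx : 0 < x) : Pool.Agent.CVol.IsPeriod x ↔
    ∃ (n : ℕ) (S : Set (Fin (n + 1) → ℝ)), Pool.Agent.CVol.IsSA S ∧
      volume S = ENNReal.ofReal x := by
  constructor
  · intro h
    obtain ⟨n, f, h1, h2⟩ := (Pool.Agent.OneIneq.period_iff_vol x hx).1 h
    rcases n with _ | n
    · have h3 : x = 1 := by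
        have h4 : {u : Fin 0 → ℝ | 0 < (MvPolynomial.aeval u f : ℝ)} = univ := by
          rcases Set.eq_empty_or_nonempty {u : Fin 0 → ℝ | 0 < (MvPolynomial.aeval u f : ℝ)} with
            h5 | ⟨v, hv⟩
          · rw [h5, measure_empty] at h2
            have := ENNReal.ofReal_pos.2 hx
            rw [← h2] at this
            exact absurd this (lt_irrefl _)
          · refine eq_univ_of_forall fun w => ?_
            rwa [Subsingleton.elim w v]
        have h5 : volume (univ : Set (Fin 0 → ℝ)) = 1 := by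
          simp [volume_pi, Measure.pi_of_empty]
        rw [h4, h5] at h2
        have h6 := congrArg ENNReal.toReal h2
        rw [ENNReal.toReal_ofReal hx.le, ENNReal.toReal_one] at h6
        exact h6.symm
      obtain ⟨g, -, h5, h6⟩ := V1.one 0
      refine ⟨0, PS g, Pool.Agent.CVol.IsSA.pos g, ?_⟩
      rw [h3, ← h6, ENNReal.ofReal_toReal h5.measure_lt_top.ne]
    · exact ⟨n, _, sa_int88 f, h2⟩
  · rintro ⟨n, S, hS, hv⟩
    exact Pool.Agent.CVol.period_of_volume hS x hx hv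

theorem fin_V188 {n : ℕ} (S : Set (Fin (n + 1) → ℝ)) (hS : Pool.Agent.CVol.IsSA S)
    (hv : volume S ≠ ⊤) : V1 (n + 1) (volume S).toReal := by
  obtain ⟨B, h1, h2, h3⟩ := fin_single S hS hv
  rw [← h3]
  exact oi B h1 h2

theorem V1.int88 {n : ℕ} {x : ℝ} (h : V1 (n + 1) x) :
    ∃ f : MvPolynomial (Fin (n + 1)) ℤ,
      Bornology.IsBounded {u : Fin (n + 1) → ℝ | 0 < (MvPolynomial.aeval u f : ℝ)} ∧
      (volume {u : Fin (n + 1) → ℝ | 0 < (MvPolynomial.aeval u f : ℝ)}).toReal = x := by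
  obtain ⟨f, -, h5, h6⟩ := h
  obtain ⟨F, hF⟩ := PS_int f
  exact ⟨F, by rw [hF]; exact h5, by rw [hF]; exact h6⟩

theorem real_tfae88 (n : ℕ) (x : ℝ) : List.TFAE [
      ∃ S T : Set (Fin (n + 1) → ℝ), Pool.Agent.CVol.IsSA S ∧ Pool.Agent.CVol.IsSA T ∧
        volume S ≠ ⊤ ∧ volume T ≠ ⊤ ∧ x = (volume S).toReal - (volume T).toReal,
      ∃ (N : ℕ) (f : MvPolynomial (Fin (n + 1)) ℤ),
        Bornology.IsBounded {u : Fin (n + 1) → ℝ | 0 < (MvPolynomial.aeval u f : ℝ)} ∧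
        x = (volume {u : Fin (n + 1) → ℝ | 0 < (MvPolynomial.aeval u f : ℝ)}).toReal - N,
      ∃ (M : ℕ) (f : MvPolynomial (Fin (n + 1)) ℤ),
        x = M * ∫ u in {u : Fin (n + 1) → ℝ | ∀ i, 0 ≤ u i ∧ u i ≤ 1},
          (SignType.sign (MvPolynomial.aeval u f : ℝ) : ℝ)] := by
  have hD : (∃ S T : Set (Fin (n + 1) → ℝ), Pool.Agent.CVol.IsSA S ∧ Pool.Agent.CVol.IsSA T ∧
        volume S ≠ ⊤ ∧ volume T ≠ ⊤ ∧ x = (volume S).toReal - (volume T).toReal) ↔ D88 n x := by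
    constructor
    · rintro ⟨S, T, hS, hT, hvS, hvT, hx⟩
      exact ⟨_, _, fin_V188 S hS hvS, fin_V188 T hT hvT, hx⟩
    · rintro ⟨a, b, ⟨f, -, h1, h2⟩, ⟨g, -, h3, h4⟩, hx⟩
      exact ⟨PS f, PS g, Pool.Agent.CVol.IsSA.pos f, Pool.Agent.CVol.IsSA.pos g,
        h1.measure_lt_top.ne, h3.measure_lt_top.ne, by rw [h2, h4, hx]⟩
  tfae_have 1 → 2 := by
    intro h
    obtain ⟨a, b, ha, hb, hx⟩ := hD.1 h
    obtain ⟨N, hN⟩ := V1.compl hb
    obtain ⟨F, h1, h2⟩ := (ha.add hN).int88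
    exact ⟨N, F, h1, by rw [h2, hx]; ring⟩
  tfae_have 2 → 1 := by
    rintro ⟨N, f, hb, hx⟩
    refine hD.2 ⟨_, (N : ℝ), fin_V188 _ (sa_int88 f) hb.measure_lt_top.ne, ?_, hx⟩
    rcases Nat.eq_zero_or_pos N with h | h
    · subst h
      simpa using V1.zero (n + 1)
    · have h7 := (V1.one n).smul (N : ℚ) (by exact_mod_cast h)
      simpa using h7
  tfae_have 1 → 3 := by
    intro h
    have h1 := hD.1 h
    rcases le_total 0 x with hx | hx
    · obtain ⟨M, f, hf⟩ := sgn_V188 (h1.pos hx)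
      obtain ⟨F, hF⟩ := sg_int88 f
      refine ⟨M, F, ?_⟩
      rw [hf]
      congr 1
      refine integral_congr_ae (Eventually.of_forall fun z => ?_)
      exact (hF z).symm
    · have h2 : D88 n (-x) := by
        have := h1.smul (-1)
        simpa using this
      obtain ⟨M, f, hf⟩ := sgn_V188 (h2.pos (by linarith))
      obtain ⟨F, hF⟩ := sg_int88 (-f)
      refine ⟨M, F, ?_⟩
      have h3 : x = M * ∫ z in cube (n + 1), -sg (MvPolynomial.aeval z f) := by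
        rw [integral_neg, mul_neg, ← hf, neg_neg]
      rw [h3]
      congr 1
      refine integral_congr_ae (Eventually.of_forall fun z => ?_)
      have h4 := hF z
      have h5 : sg (MvPolynomial.aeval z (-f)) = -sg (MvPolynomial.aeval z f) := by
        rw [map_neg, ← neg_one_mul (MvPolynomial.aeval z f : ℝ), sg_mul,
          sg_neg (by norm_num : (-1 : ℝ) < 0), neg_one_mul]
      rw [h5] at h4
      exact h4.symm
  tfae_have 3 → 1 := by
    rintro ⟨M, f, hx⟩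
    refine hD.2 ?_
    have h1 := (D88.sg (n := n) (MvPolynomial.map (Int.castRingHom ℚ) f)).smul (M : ℚ)
    simp only [Pool.Agent.OneIneq.toRat] at h1
    rw [hx]
    simpa using! h1
  tfae_finish

end Pool.Agent.WSP
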