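import Pool.Agent.W_2cf66e_h88.DefsO

/-!
# MP_2cf66e_nt, one inequality in the same dimension: leaf O1, positivity sets (helper57)
-/

set_option autoImplicit false

noncomputable section

open MeasureTheory Set Filter Topology

namespace Pool.Agent.WSP

theorem PS.cont57 {m : ℕ} (f : MvPolynomial (Fin m) ℚ) :
    Continuous fun z : Fin m → ℝ => (MvPolynomial.aeval z f : ℝ) := by
  have h : (fun z : Fin m → ℝ => (MvPolynomial.aeval z f : ℝ)) =
      fun z => MvPolynomial.eval z (MvPolynomial.map (algebraMap ℚ ℝ) f) := by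
    funext z; rw [MvPolynomial.eval_map, MvPolynomial.aeval_def]
  rw [h]; exact MvPolynomial.continuous_eval _

theorem PS.isOpen {m : ℕ} (f : MvPolynomial (Fin m) ℚ) : IsOpen (PS f) :=
  isOpen_lt continuous_const (PS.cont57 f)

theorem PS.meas {m : ℕ} (f : MvPolynomial (Fin m) ℚ) : MeasurableSet (PS f) :=
  (PS.isOpen f).measurableSet

theorem PS.ne57 {m : ℕ} {f : MvPolynomial (Fin m) ℚ} (hf : f ≠ 0) :
    ∀ᵐ z : Fin m → ℝ, (MvPolynomial.aeval z f : ℝ) ≠ 0 := by
  rw [ae_iff]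
  simpa using CVol.null_rat f hf

theorem xor_ae {m : ℕ} {f g : MvPolynomial (Fin m) ℚ} (hf : f ≠ 0) (hg : g ≠ 0) :
    PS (-(f * g)) =ᵐ[volume] symmDiff (PS f) (PS g) := by
  filter_upwards [PS.ne57 hf, PS.ne57 hg] with z h1 h2
  apply propext
  change (0 < (MvPolynomial.aeval z (-(f * g)) : ℝ)) ↔
    ((0 < (MvPolynomial.aeval z f : ℝ) ∧ ¬ 0 < (MvPolynomial.aeval z g : ℝ)) ∨
      (0 < (MvPolynomial.aeval z g : ℝ) ∧ ¬ 0 < (MvPolynomial.aeval z f : ℝ)))
  rw [map_neg, map_mul]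
  rcases lt_or_gt_of_ne h1 with a | a <;> rcases lt_or_gt_of_ne h2 with b | b
  · have := mul_pos_of_neg_of_neg a b
    constructor
    · intro h; linarith
    · rintro (⟨h, -⟩ | ⟨h, -⟩) <;> linarith
  · have := mul_neg_of_neg_of_pos a b
    constructor
    · intro h; exact Or.inr ⟨b, by linarith⟩
    · intro h; linarith
  · have := mul_neg_of_pos_of_neg a b
    constructor
    · intro h; exact Or.inl ⟨a, by linarith⟩
    · intro h; linarith
  · have := mul_pos a b
    constructor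
    · intro h; linarith
    · rintro (⟨-, h⟩ | ⟨-, h⟩)
      · exact absurd b h
      · exact absurd a h

theorem xor_sub57 {m : ℕ} (f g : MvPolynomial (Fin m) ℚ) :
    PS (-(f * g)) ⊆ PS f ∪ PS g := by
  intro z hz
  change 0 < (MvPolynomial.aeval z (-(f * g)) : ℝ) at hz
  rw [map_neg, map_mul] at hz
  by_contra h
  have h1 : ¬ 0 < (MvPolynomial.aeval z f : ℝ) := fun h' => h (Or.inl h')
  have h2 : ¬ 0 < (MvPolynomial.aeval z g : ℝ) := fun h' => h (Or.inr h')
  have := mul_nonneg_of_nonpos_of_nonpos (not_lt.1 h1) (not_lt.1 h2)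
  linarith

theorem xor_bdd {m : ℕ} {f g : MvPolynomial (Fin m) ℚ} (hf : Bornology.IsBounded (PS f))
    (hg : Bornology.IsBounded (PS g)) : Bornology.IsBounded (PS (-(f * g))) :=
  (hf.union hg).subset (xor_sub57 f g)

theorem V1.zero (m : ℕ) : V1 m 0 := by
  refine ⟨-1, by simp, ?_, ?_⟩
  · have : PS (-1 : MvPolynomial (Fin m) ℚ) = ∅ := by
      ext z
      simp only [PS, map_neg, map_one, mem_empty_iff_false, iff_false]
      intro h
      change (0 : ℝ) < -1 at h
      linarith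
    rw [this]; exact Bornology.isBounded_empty
  · have : PS (-1 : MvPolynomial (Fin m) ℚ) = ∅ := by
      ext z
      simp only [PS, map_neg, map_one, mem_empty_iff_false, iff_false]
      intro h
      change (0 : ℝ) < -1 at h
      linarith
    rw [this]; simp

theorem V1.nonneg {m : ℕ} {x : ℝ} (h : V1 m x) : 0 ≤ x := by
  obtain ⟨f, -, -, rfl⟩ := h
  exact ENNReal.toReal_nonneg

theorem V1.diff {m : ℕ} {f g : MvPolynomial (Fin m) ℚ} (hf : f ≠ 0) (hg : g ≠ 0)
    (bf : Bornology.IsBounded (PS f)) (bg : Bornology.IsBounded (PS g))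
    (h : volume (PS g \ PS f) = 0) :
    V1 m ((volume (PS f)).toReal - (volume (PS g)).toReal) := by
  refine ⟨-(f * g), neg_ne_zero.2 (mul_ne_zero hf hg), xor_bdd bf bg, ?_⟩
  have h1 : volume (PS (-(f * g))) = volume (PS f \ PS g) := by
    have e : (PS (-(f * g)) : Set (Fin m → ℝ)) =ᵐ[volume] (PS f \ PS g : Set (Fin m → ℝ)) := by
      have hn : ∀ᵐ z : Fin m → ℝ, z ∉ PS g \ PS f := measure_eq_zero_iff_ae_notMem.1 h
      refine (xor_ae hf hg).trans ?_
      filter_upwards [hn] with z hz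
      apply propext
      change ((z ∈ PS f ∧ z ∉ PS g) ∨ (z ∈ PS g ∧ z ∉ PS f)) ↔ (z ∈ PS f ∧ z ∉ PS g)
      have : ¬ (z ∈ PS g ∧ z ∉ PS f) := hz
      tauto
    exact measure_congr e
  have h2 : volume (PS f ∩ PS g) = volume (PS g) := by
    have := measure_inter_add_sdiff (μ := volume) (PS g) (PS.meas f)
    rw [h, add_zero, inter_comm] at this
    exact this
  have h3 := measure_inter_add_sdiff (μ := volume) (PS f) (PS.meas g)
  rw [h2, ← h1] at h3
  have fg : volume (PS g) ≠ ⊤ := bg.measure_lt_top.ne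
  have ff : volume (PS (-(f * g))) ≠ ⊤ := (xor_bdd bf bg).measure_lt_top.ne
  rw [← h3, ENNReal.toReal_add fg ff]
  ring

theorem xor_disj {m : ℕ} {f g : MvPolynomial (Fin m) ℚ} (hf : f ≠ 0) (hg : g ≠ 0)
    (h : volume (PS f ∩ PS g) = 0) : PS (-(f * g)) =ᵐ[volume] (PS f ∪ PS g : Set (Fin m → ℝ)) ∧
      volume (PS (-(f * g))) = volume (PS f) + volume (PS g) := by
  have h1 : PS (-(f * g)) =ᵐ[volume] (PS f ∪ PS g : Set (Fin m → ℝ)) := by
    have hn : ∀ᵐ z : Fin m → ℝ, z ∉ PS f ∩ PS g := measure_eq_zero_iff_ae_notMem.1 h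
    refine (xor_ae hf hg).trans ?_
    filter_upwards [hn] with z hz
    apply propext
    change ((z ∈ PS f ∧ z ∉ PS g) ∨ (z ∈ PS g ∧ z ∉ PS f)) ↔ (z ∈ PS f ∨ z ∈ PS g)
    have : ¬ (z ∈ PS f ∧ z ∈ PS g) := hz
    tauto
  refine ⟨h1, ?_⟩
  rw [measure_congr h1, ← measure_union_add_inter (PS f) (PS.meas g), h, add_zero]

end Pool.Agent.WSP
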