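import Pool.Agent.W_2cf66e_h88.LoA

/-!
# MP_2cf66e_nt, one inequality in the same dimension, leaf O2: affine copies (helper68)
-/

set_option autoImplicit false

noncomputable section

open MeasureTheory Set Filter Topology

namespace Pool.Agent.WSP

/-- The affine substitution `z_i ↦ (z_i - t_i) / a_i`. -/
def afs68 {m : ℕ} (t a : Fin m → ℚ) : MvPolynomial (Fin m) ℚ →ₐ[ℚ] MvPolynomial (Fin m) ℚ :=
  MvPolynomial.aeval fun i => MvPolynomial.C (a i)⁻¹ * (MvPolynomial.X i - MvPolynomial.C (t i))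

theorem afs68_eval {m : ℕ} (t a : Fin m → ℚ) (f : MvPolynomial (Fin m) ℚ) (z : Fin m → ℝ) :
    (MvPolynomial.aeval z (afs68 t a f) : ℝ) =
      MvPolynomial.aeval (fun i => (z i - t i) / a i) f := by
  have h : ((MvPolynomial.aeval z : MvPolynomial (Fin m) ℚ →ₐ[ℚ] ℝ).comp (afs68 t a)) =
      MvPolynomial.aeval (fun i => (z i - t i) / a i) := by
    apply MvPolynomial.algHom_ext
    intro i
    simp only [AlgHom.comp_apply, afs68, MvPolynomial.aeval_X, map_mul, map_sub,
      MvPolynomial.aeval_C]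
    simp only [eq_ratCast, Rat.cast_inv]
    rw [div_eq_inv_mul]
  exact DFunLike.congr_fun h f

theorem afs68_inj {m : ℕ} (t a : Fin m → ℚ) (ha : ∀ i, 0 < a i) (f : MvPolynomial (Fin m) ℚ)
    (hf : f ≠ 0) : afs68 t a f ≠ 0 := by
  intro h
  apply hf
  have h1 : ((MvPolynomial.aeval (fun i : Fin m => MvPolynomial.C (a i) * MvPolynomial.X i +
      MvPolynomial.C (t i)) : MvPolynomial (Fin m) ℚ →ₐ[ℚ] MvPolynomial (Fin m) ℚ).comp
        (afs68 t a)) = AlgHom.id ℚ _ := by
    apply MvPolynomial.algHom_ext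
    intro i
    simp only [AlgHom.comp_apply, afs68, MvPolynomial.aeval_X, map_mul, map_sub,
      MvPolynomial.algHom_C, AlgHom.id_apply]
    have h2 : (MvPolynomial.C (a i)⁻¹ * MvPolynomial.C (a i) : MvPolynomial (Fin m) ℚ) = 1 := by
      rw [← MvPolynomial.C_mul, inv_mul_cancel₀ (ha i).ne', MvPolynomial.C_1]
    simp only [MvPolynomial.algebraMap_eq]
    calc (MvPolynomial.C (a i)⁻¹ * (MvPolynomial.C (a i) * MvPolynomial.X i +
        MvPolynomial.C (t i) - MvPolynomial.C (t i)) : MvPolynomial (Fin m) ℚ)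
        = (MvPolynomial.C (a i)⁻¹ * MvPolynomial.C (a i)) * MvPolynomial.X i := by ring
      _ = MvPolynomial.X i := by rw [h2, one_mul]
  have h3 := DFunLike.congr_fun h1 f
  simp only [AlgHom.comp_apply, h, map_zero, AlgHom.id_apply] at h3
  exact h3.symm

theorem aff {m : ℕ} (f : MvPolynomial (Fin m) ℚ) (hf : f ≠ 0) (t a : Fin m → ℚ)
    (ha : ∀ i, 0 < a i) : ∃ g : MvPolynomial (Fin m) ℚ, g ≠ 0 ∧
      (∀ z : Fin m → ℝ, z ∈ PS g ↔ (fun i => (z i - t i) / a i) ∈ PS f) ∧
      volume (PS g) = ENNReal.ofReal (∏ i, (a i : ℝ)) * volume (PS f) ∧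
      (Bornology.IsBounded (PS f) → Bornology.IsBounded (PS g)) := by
  have hmem : ∀ z : Fin m → ℝ, z ∈ PS (afs68 t a f) ↔ (fun i => (z i - t i) / a i) ∈ PS f := by
    intro z
    have h : (0 < (MvPolynomial.aeval z (afs68 t a f) : ℝ)) ↔
        (0 < (MvPolynomial.aeval (fun i => (z i - (t i : ℝ)) / (a i : ℝ)) f : ℝ)) := by
      rw [afs68_eval]
    exact h
  have ha' : ∀ i, (0 : ℝ) < a i := fun i => by exact_mod_cast ha i
  refine ⟨afs68 t a f, afs68_inj t a ha f hf, hmem, ?_, ?_⟩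
  · set L : (Fin m → ℝ) →ₗ[ℝ] (Fin m → ℝ) :=
      Matrix.toLin' (Matrix.diagonal fun i => ((a i : ℝ))⁻¹) with hL
    have hdet : LinearMap.det L = ∏ i, ((a i : ℝ))⁻¹ := by
      rw [hL, LinearMap.det_toLin', Matrix.det_diagonal]
    have hdet0 : LinearMap.det L ≠ 0 := by
      rw [hdet]
      exact Finset.prod_ne_zero_iff.2 fun i _ => inv_ne_zero (ha' i).ne'
    have hset : PS (afs68 t a f) =
        (fun z : Fin m → ℝ => z + fun i => -(t i : ℝ)) ⁻¹' (L ⁻¹' PS f) := by
      ext z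
      rw [hmem z]
      simp only [mem_preimage]
      have e : L (z + fun i => -(t i : ℝ)) = fun i => (z i - t i) / a i := by
        ext i
        rw [hL, Matrix.toLin'_apply, Matrix.mulVec_diagonal]
        simp only [Pi.add_apply]
        rw [div_eq_inv_mul]
        ring
      rw [e]
    rw [hset, measure_preimage_add_right, Measure.addHaar_preimage_linearMap volume hdet0]
    congr 2
    rw [hdet, Finset.prod_inv_distrib, inv_inv]
    exact abs_of_pos (Finset.prod_pos fun i _ => ha' i)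
  · intro hb
    obtain ⟨R, hR⟩ := isBounded_iff_forall_norm_le.1 hb
    rw [isBounded_iff_forall_norm_le]
    refine ⟨∑ i, ((a i : ℝ) * |R| + |(t i : ℝ)|), fun z hz => ?_⟩
    have h1 := hR _ ((hmem z).1 hz)
    have hnn : ∀ i, 0 ≤ (a i : ℝ) * |R| + |(t i : ℝ)| := fun i =>
      add_nonneg (mul_nonneg (ha' i).le (abs_nonneg _)) (abs_nonneg _)
    rw [pi_norm_le_iff_of_nonneg (Finset.sum_nonneg fun i _ => hnn i)]
    intro i
    have h2 : |(z i - t i) / a i| ≤ R := by
      have := (norm_le_pi_norm (fun i => (z i - (t i : ℝ)) / a i) i).trans h1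
      rwa [Real.norm_eq_abs] at this
    have h3 : z i = (a i : ℝ) * ((z i - t i) / a i) + t i := by
      field_simp [(ha' i).ne']
      ring
    have h4 : |z i| ≤ (a i : ℝ) * |R| + |(t i : ℝ)| := by
      rw [h3]
      refine (abs_add_le _ _).trans (add_le_add ?_ le_rfl)
      rw [abs_mul, abs_of_pos (ha' i)]
      exact mul_le_mul_of_nonneg_left (h2.trans (le_abs_self R)) (ha' i).le
    rw [Real.norm_eq_abs]
    exact h4.trans (Finset.single_le_sum (f := fun i => (a i : ℝ) * |R| + |(t i : ℝ)|)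
      (fun i _ => hnn i) (Finset.mem_univ i))

theorem V1.add {n : ℕ} {x y : ℝ} (hx : V1 (n + 1) x) (hy : V1 (n + 1) y) :
    V1 (n + 1) (x + y) := by
  obtain ⟨f, hf, bf, vf⟩ := hx
  obtain ⟨g, hg, bg, vg⟩ := hy
  obtain ⟨R, hR⟩ := isBounded_iff_forall_norm_le.1 bf
  obtain ⟨R', hR'⟩ := isBounded_iff_forall_norm_le.1 bg
  obtain ⟨T, hT⟩ := exists_rat_gt (R + R')
  obtain ⟨g', hg', hm, hv, hb⟩ := aff g hg (fun _ => T) (fun _ => 1) (fun _ => one_pos)
  have hdis : PS f ∩ PS g' = ∅ := by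
    rw [Set.eq_empty_iff_forall_notMem]
    rintro z ⟨h1, h2⟩
    have h3 := hR z h1
    have h4 := hR' _ ((hm z).1 h2)
    have h5 : |z 0| ≤ R := by
      have := (norm_le_pi_norm z 0).trans h3
      rwa [Real.norm_eq_abs] at this
    have h6 : |z 0 - T| ≤ R' := by
      have := (norm_le_pi_norm (fun i => (z i - (T : ℝ)) / ((1 : ℚ) : ℝ)) 0).trans h4
      rw [Real.norm_eq_abs] at this
      simpa using this
    have h7 := abs_le.1 h5
    have h8 := abs_le.1 h6
    linarith [h7.2, h8.1]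
  have hx := xor_disj hf hg' (by rw [hdis]; exact measure_empty)
  refine ⟨-(f * g'), neg_ne_zero.2 (mul_ne_zero hf hg'), xor_bdd bf (hb bg), ?_⟩
  have hv' : volume (PS g') = volume (PS g) := by
    rw [hv]
    simp
  rw [hx.2, hv', ENNReal.toReal_add (bf.measure_lt_top).ne (bg.measure_lt_top).ne, vf, vg]

theorem V1.smul {n : ℕ} {x : ℝ} (q : ℚ) (hq : 0 < q) (hx : V1 (n + 1) x) :
    V1 (n + 1) ((q : ℝ) * x) := by
  obtain ⟨f, hf, bf, vf⟩ := hx
  obtain ⟨g, hg, hm, hv, hb⟩ := aff f hf (fun _ => 0) (Function.update (fun _ => 1) 0 q) (by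
    intro i
    by_cases h : i = 0
    · subst h; simpa using hq
    · rw [Function.update_of_ne h]; exact one_pos)
  refine ⟨g, hg, hb bf, ?_⟩
  have hp : (∏ i : Fin (n + 1), ((Function.update (fun _ => (1 : ℚ)) 0 q i : ℚ) : ℝ)) = q := by
    rw [Fin.prod_univ_succ]
    have : ∀ i : Fin n, ((Function.update (fun _ : Fin (n + 1) => (1 : ℚ)) 0 q i.succ : ℚ) : ℝ)
        = 1 := by
      intro i
      rw [Function.update_of_ne (Fin.succ_ne_zero i)]
      simp
    rw [Finset.prod_congr rfl (fun i _ => this i)]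
    simp
  rw [hv, hp, ENNReal.toReal_mul, ENNReal.toReal_ofReal (by exact_mod_cast hq.le), vf]

end Pool.Agent.WSP
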