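import Pool.Agent.W_2cf66e_h88.DefsO
import Mathlib.MeasureTheory.Function.JacobianOneDim

/-!
# MP_2cf66e_nt, one inequality, leaf O3: the plane folding preserves the measure (helper64)
-/

set_option autoImplicit false

noncomputable section

open MeasureTheory Set Filter Topology

namespace Pool.Agent.WSP

theorem scale64 {x : ℝ} (hx : x ≠ 0) (g : ℝ → ENNReal) :
    ∫⁻ l : ℝ, g l = ∫⁻ u : ℝ, ENNReal.ofReal |x| * g (x * u) := by
  have h := lintegral_image_eq_lintegral_abs_deriv_mul (s := univ) (f := fun u : ℝ => x * u)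
    (f' := fun _ => x) MeasurableSet.univ
    (fun u _ => by
      have h0 : HasDerivAt (fun u : ℝ => x * u) x u := by
        simpa using (hasDerivAt_id u).const_mul x
      exact h0.hasDerivWithinAt)
    (fun a _ b _ hab => mul_left_cancel₀ hx hab) g
  have h1 : (fun u : ℝ => x * u) '' univ = univ := by
    rw [image_univ, range_eq_univ]
    intro y
    exact ⟨y / x, by field_simp⟩
  rw [h1, Measure.restrict_univ] at h
  exact h

theorem sqpos64 {k : ℝ} (hk : 0 < k) (g : ℝ → ENNReal) :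
    ∫⁻ x in Ioi (0 : ℝ), ENNReal.ofReal x * g (x ^ 2 * k) =
      ENNReal.ofReal (1 / (2 * k)) * ∫⁻ t in Ioi (0 : ℝ), g t := by
  have h := lintegral_image_eq_lintegral_abs_deriv_mul (s := Ioi (0 : ℝ))
    (f := fun x : ℝ => x ^ 2 * k) (f' := fun x => 2 * x * k) measurableSet_Ioi
    (fun x _ => by
      have := ((hasDerivAt_pow 2 x).mul_const k).hasDerivWithinAt (s := Ioi (0 : ℝ))
      simpa using this)
    (fun a ha b hb hab => by
      have h1 : a ^ 2 = b ^ 2 := mul_right_cancel₀ hk.ne' hab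
      exact (pow_left_inj₀ (le_of_lt ha) (le_of_lt hb) two_ne_zero).mp h1) g
  have h1 : (fun x : ℝ => x ^ 2 * k) '' Ioi (0 : ℝ) = Ioi 0 := by
    ext t
    constructor
    · rintro ⟨x, hx, rfl⟩
      have : (0 : ℝ) < x := hx
      show (0 : ℝ) < x ^ 2 * k
      positivity
    · intro ht
      have ht' : (0 : ℝ) < t := ht
      refine ⟨Real.sqrt (t / k), Real.sqrt_pos.mpr (by positivity), ?_⟩
      show Real.sqrt (t / k) ^ 2 * k = t
      rw [Real.sq_sqrt (by positivity)]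
      field_simp
  rw [h1] at h
  rw [h, ← lintegral_const_mul' _ _ ENNReal.ofReal_ne_top]
  refine setLIntegral_congr_fun measurableSet_Ioi fun x hx => ?_
  have hx' : (0 : ℝ) < x := hx
  show ENNReal.ofReal x * g (x ^ 2 * k) =
    ENNReal.ofReal (1 / (2 * k)) * (ENNReal.ofReal |2 * x * k| * g (x ^ 2 * k))
  rw [← mul_assoc, ← ENNReal.ofReal_mul (by positivity)]
  congr 2
  rw [abs_of_pos (by positivity)]
  field_simp

theorem split64 (g : ℝ → ENNReal) :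
    ∫⁻ x : ℝ, g x = (∫⁻ x in Ioi (0 : ℝ), g x) + ∫⁻ x in Iio (0 : ℝ), g x := by
  have h1 : ∫⁻ x : ℝ, g x = ∫⁻ x in Iio (0 : ℝ) ∪ Ioi 0, g x := by
    rw [← setLIntegral_univ g]
    refine setLIntegral_congr ?_
    refine EventuallyEq.symm ?_
    rw [ae_eq_univ]
    have : (Iio (0 : ℝ) ∪ Ioi 0)ᶜ = {0} := by
      ext x
      simp only [mem_compl_iff, mem_union, mem_Iio, mem_Ioi, mem_singleton_iff]
      constructor
      · intro h
        push Not at h
        exact le_antisymm h.2 h.1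
      · rintro rfl
        simp
    rw [this]
    exact Real.volume_singleton
  rw [h1, lintegral_union measurableSet_Ioi (by
    rw [Set.disjoint_left]
    intro x hx hx'
    exact lt_asymm (a := x) (b := 0) hx hx'), add_comm]

theorem neg64 (g : ℝ → ENNReal) :
    ∫⁻ x in Iio (0 : ℝ), g x = ∫⁻ x in Ioi (0 : ℝ), g (-x) := by
  have h := lintegral_image_eq_lintegral_abs_deriv_mul (s := Ioi (0 : ℝ))
    (f := fun x : ℝ => -x) (f' := fun _ => -1) measurableSet_Ioi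
    (fun x _ => (hasDerivAt_neg x).hasDerivWithinAt)
    (fun a _ b _ hab => neg_injective hab) g
  have h1 : (fun x : ℝ => -x) '' Ioi (0 : ℝ) = Iio 0 := by
    ext t
    constructor
    · rintro ⟨x, hx, rfl⟩
      have : (0 : ℝ) < x := hx
      show -x < 0
      linarith
    · intro ht
      exact ⟨-t, by have : t < 0 := ht; show (0 : ℝ) < -t; linarith, by simp⟩
  rw [h1] at h
  rw [h]
  simp

theorem sqabs64 {k : ℝ} (hk : 0 < k) (g : ℝ → ENNReal) :
    ∫⁻ x : ℝ, ENNReal.ofReal |x| * g (x ^ 2 * k) =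
      ENNReal.ofReal (1 / k) * ∫⁻ t in Ioi (0 : ℝ), g t := by
  rw [split64, neg64]
  have h1 : ∫⁻ x in Ioi (0 : ℝ), ENNReal.ofReal |x| * g (x ^ 2 * k) =
      ∫⁻ x in Ioi (0 : ℝ), ENNReal.ofReal x * g (x ^ 2 * k) :=
    setLIntegral_congr_fun measurableSet_Ioi fun x hx => by
      show ENNReal.ofReal |x| * g (x ^ 2 * k) = ENNReal.ofReal x * g (x ^ 2 * k)
      rw [abs_of_pos hx]
  have h2 : ∫⁻ x in Ioi (0 : ℝ), ENNReal.ofReal |-x| * g ((-x) ^ 2 * k) =
      ∫⁻ x in Ioi (0 : ℝ), ENNReal.ofReal x * g (x ^ 2 * k) :=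
    setLIntegral_congr_fun measurableSet_Ioi fun x hx => by
      show ENNReal.ofReal |-x| * g ((-x) ^ 2 * k) = ENNReal.ofReal x * g (x ^ 2 * k)
      rw [abs_neg, abs_of_pos hx, neg_sq]
  rw [h1, h2, sqpos64 hk, ← add_mul, ← ENNReal.ofReal_add (by positivity) (by positivity)]
  congr 2
  field_simp
  norm_num

theorem etapos64 (h : ℝ → ENNReal) :
    ∫⁻ u in Ioi (0 : ℝ), ENNReal.ofReal (2 * u / (1 + u ^ 2) ^ 2) * h (1 / (1 + u ^ 2)) =
      ∫⁻ η in Ioo (0 : ℝ) 1, h η := by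
  have hd := lintegral_image_eq_lintegral_abs_deriv_mul (s := Ioi (0 : ℝ))
    (f := fun u : ℝ => 1 / (1 + u ^ 2)) (f' := fun u => -(2 * u / (1 + u ^ 2) ^ 2))
    measurableSet_Ioi
    (fun u _ => by
      have h1 : HasDerivAt (fun u : ℝ => 1 + u ^ 2) (2 * u) u := by
        simpa using (hasDerivAt_pow 2 u).const_add 1
      have h2 := h1.inv (by positivity)
      have h3 : HasDerivAt (fun u : ℝ => 1 / (1 + u ^ 2)) (-(2 * u) / (1 + u ^ 2) ^ 2) u := by
        have e : (fun u : ℝ => 1 / (1 + u ^ 2)) = (fun u : ℝ => 1 + u ^ 2)⁻¹ := by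
          funext u
          simp [one_div]
        rw [e]
        exact h2
      rw [neg_div] at h3
      exact h3.hasDerivWithinAt)
    (fun a ha b hb hab => by
      have ha' : (0 : ℝ) < a := ha
      have hb' : (0 : ℝ) < b := hb
      have h1 : 1 + a ^ 2 = 1 + b ^ 2 := by
        have : (1 + a ^ 2)⁻¹ = (1 + b ^ 2)⁻¹ := by simpa [one_div] using hab
        exact inv_injective this
      exact (pow_left_inj₀ ha'.le hb'.le two_ne_zero).mp (by linarith)) h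
  have h1 : (fun u : ℝ => 1 / (1 + u ^ 2)) '' Ioi (0 : ℝ) = Ioo 0 1 := by
    ext t
    constructor
    · rintro ⟨u, hu, rfl⟩
      have hu' : (0 : ℝ) < u := hu
      refine ⟨by positivity, ?_⟩
      show 1 / (1 + u ^ 2) < 1
      rw [div_lt_one (by positivity)]
      nlinarith
    · rintro ⟨h0, h1⟩
      have h2 : 0 < 1 / t - 1 := by
        rw [sub_pos, lt_div_iff₀ h0]
        linarith
      refine ⟨Real.sqrt (1 / t - 1), Real.sqrt_pos.mpr h2, ?_⟩
      show 1 / (1 + Real.sqrt (1 / t - 1) ^ 2) = t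
      rw [Real.sq_sqrt h2.le]
      field_simp
      ring
  rw [h1] at hd
  rw [hd]
  refine setLIntegral_congr_fun measurableSet_Ioi fun u hu => ?_
  have hu' : (0 : ℝ) < u := hu
  show ENNReal.ofReal (2 * u / (1 + u ^ 2) ^ 2) * h (1 / (1 + u ^ 2)) =
    ENNReal.ofReal |-(2 * u / (1 + u ^ 2) ^ 2)| * h (1 / (1 + u ^ 2))
  rw [abs_neg, abs_of_pos (by positivity)]

/-- The folding `(x, l) ↦ (x² / (x² + l²), (x² + l²)² / (2 x l))` preserves the measure. -/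
theorem fold2 (F : ℝ → ℝ → ENNReal) (hF : Measurable (Function.uncurry F)) :
    ∫⁻ x : ℝ, ∫⁻ l : ℝ, F (x ^ 2 / (x ^ 2 + l ^ 2)) ((x ^ 2 + l ^ 2) ^ 2 / (2 * x * l)) =
      ∫⁻ η in Ioo (0 : ℝ) 1, ∫⁻ t : ℝ, F η t := by
  have h1 : ∫⁻ x : ℝ, ∫⁻ l : ℝ, F (x ^ 2 / (x ^ 2 + l ^ 2)) ((x ^ 2 + l ^ 2) ^ 2 / (2 * x * l)) =
      ∫⁻ x : ℝ, ∫⁻ u : ℝ, ENNReal.ofReal |x| *
        F (1 / (1 + u ^ 2)) (x ^ 2 * ((1 + u ^ 2) ^ 2 / (2 * u))) := by
    have h0 : ∀ᵐ x : ℝ, x ≠ 0 := by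
      rw [ae_iff]
      simp
    refine lintegral_congr_ae ?_
    filter_upwards [h0] with x hx
    rw [scale64 hx]
    refine lintegral_congr fun u => ?_
    have e1 : x ^ 2 / (x ^ 2 + (x * u) ^ 2) = 1 / (1 + u ^ 2) := by
      field_simp
    have e2 : (x ^ 2 + (x * u) ^ 2) ^ 2 / (2 * x * (x * u)) =
        x ^ 2 * ((1 + u ^ 2) ^ 2 / (2 * u)) := by
      by_cases hu : u = 0
      · subst hu
        simp
      · field_simp
    rw [e1, e2]
  have hm : Measurable (fun p : ℝ × ℝ => ENNReal.ofReal |p.1| *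
      F (1 / (1 + p.2 ^ 2)) (p.1 ^ 2 * ((1 + p.2 ^ 2) ^ 2 / (2 * p.2)))) := by
    refine Measurable.mul (by fun_prop) ?_
    exact hF.comp (f := fun p : ℝ × ℝ =>
      ((1 / (1 + p.2 ^ 2), p.1 ^ 2 * ((1 + p.2 ^ 2) ^ 2 / (2 * p.2))) : ℝ × ℝ))
      (by fun_prop)
  rw [h1, lintegral_lintegral_swap (μ := volume) (ν := volume)
    (f := fun x u => ENNReal.ofReal |x| *
      F (1 / (1 + u ^ 2)) (x ^ 2 * ((1 + u ^ 2) ^ 2 / (2 * u)))) hm.aemeasurable, split64, neg64]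
  have hp : ∫⁻ u in Ioi (0 : ℝ), ∫⁻ x : ℝ, ENNReal.ofReal |x| *
      F (1 / (1 + u ^ 2)) (x ^ 2 * ((1 + u ^ 2) ^ 2 / (2 * u))) =
      ∫⁻ η in Ioo (0 : ℝ) 1, ∫⁻ t in Ioi (0 : ℝ), F η t := by
    rw [← etapos64 (fun η => ∫⁻ t in Ioi (0 : ℝ), F η t)]
    refine setLIntegral_congr_fun measurableSet_Ioi fun u hu => ?_
    have hu' : (0 : ℝ) < u := hu
    show ∫⁻ x : ℝ, ENNReal.ofReal |x| *
      F (1 / (1 + u ^ 2)) (x ^ 2 * ((1 + u ^ 2) ^ 2 / (2 * u))) = _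
    rw [sqabs64 (k := (1 + u ^ 2) ^ 2 / (2 * u)) (by positivity) (F (1 / (1 + u ^ 2)))]
    congr 2
    field_simp
  have hn : ∫⁻ u in Ioi (0 : ℝ), ∫⁻ x : ℝ, ENNReal.ofReal |x| *
      F (1 / (1 + (-u) ^ 2)) (x ^ 2 * ((1 + (-u) ^ 2) ^ 2 / (2 * -u))) =
      ∫⁻ η in Ioo (0 : ℝ) 1, ∫⁻ t in Iio (0 : ℝ), F η t := by
    rw [← etapos64 (fun η => ∫⁻ t in Iio (0 : ℝ), F η t)]
    refine setLIntegral_congr_fun measurableSet_Ioi fun u hu => ?_
    have hu' : (0 : ℝ) < u := hu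
    have e : ∀ x : ℝ, x ^ 2 * ((1 + (-u) ^ 2) ^ 2 / (2 * -u)) =
        -(x ^ 2 * ((1 + u ^ 2) ^ 2 / (2 * u))) := by
      intro x
      rw [neg_sq]
      field_simp
    show ∫⁻ x : ℝ, ENNReal.ofReal |x| *
      F (1 / (1 + (-u) ^ 2)) (x ^ 2 * ((1 + (-u) ^ 2) ^ 2 / (2 * -u))) = _
    simp only [e]
    rw [neg_sq, sqabs64 (k := (1 + u ^ 2) ^ 2 / (2 * u)) (by positivity)
      (fun t => F (1 / (1 + u ^ 2)) (-t)), neg64 (fun t => F (1 / (1 + u ^ 2)) t)]
    congr 2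
    field_simp
  rw [hp, hn]
  have hms : ∀ s : Set ℝ, Measurable fun η => ∫⁻ t in s, F η t := fun s =>
    Measurable.lintegral_prod_right' (f := fun p : ℝ × ℝ => F p.1 p.2) hF
  rw [← lintegral_add_left (hms _)]
  refine lintegral_congr fun η => ?_
  exact (split64 _).symm

end Pool.Agent.WSP
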