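import Pool.Agent.W_2cf66e_h88.DefsO
import Pool.Agent.W_2cf66e_h88.LoC
import Mathlib.MeasureTheory.Integral.Marginal

/-!
# MP_2cf66e_nt, one inequality, leaf O4: the folding of two coordinates preserves the measure
(helper64)
-/

set_option autoImplicit false

noncomputable section

open MeasureTheory Set Filter Topology

namespace Pool.Agent.WSP

theorem FM_upd64 {n : ℕ} (i : Fin n) (x : Fin (n + 1) → ℝ) (a b : ℝ) :
    FM i (Function.update (Function.update x i.succ a) 0 b) =
      Function.update (Function.update x i.succ (a ^ 2 / (a ^ 2 + b ^ 2))) 0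
        ((a ^ 2 + b ^ 2) ^ 2 / (2 * a * b)) := by
  have h0 : i.succ ≠ 0 := Fin.succ_ne_zero i
  have e1 : (Function.update (Function.update x i.succ a) 0 b) i.succ = a := by
    rw [Function.update_of_ne h0, Function.update_self]
  have e2 : (Function.update (Function.update x i.succ a) 0 b) 0 = b := by
    rw [Function.update_self]
  unfold FM
  rw [e1, e2]
  funext k
  by_cases hk : k = 0
  · subst hk
    simp
  · rw [Function.update_of_ne hk, Function.update_of_ne hk]
    by_cases hk' : k = i.succ
    · subst hk'
      simp
    · rw [Function.update_of_ne hk', Function.update_of_ne hk, Function.update_of_ne hk',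
        Function.update_of_ne hk']

theorem meas_upd64 {n : ℕ} (i : Fin n) (x : Fin (n + 1) → ℝ) :
    Measurable fun p : ℝ × ℝ => Function.update (Function.update x i.succ p.1) 0 p.2 := by
  refine measurable_pi_iff.mpr fun k => ?_
  by_cases hk : k = 0
  · subst hk
    simpa using measurable_snd
  · by_cases hk' : k = i.succ
    · subst hk'
      simp only [Function.update_of_ne hk, Function.update_self]
      exact measurable_fst
    · simp only [Function.update_of_ne hk, Function.update_of_ne hk']
      exact measurable_const

theorem meas_FM64 {n : ℕ} (i : Fin n) : Measurable (FM i : (Fin (n + 1) → ℝ) → _) := by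
  refine measurable_pi_iff.mpr fun k => ?_
  unfold FM
  by_cases hk : k = 0
  · subst hk
    simp only [Function.update_self]
    fun_prop
  · by_cases hk' : k = i.succ
    · subst hk'
      simp only [Function.update_of_ne hk, Function.update_self]
      fun_prop
    · simp only [Function.update_of_ne hk, Function.update_of_ne hk']
      fun_prop

theorem fold_vol {n : ℕ} (i : Fin n) (E : Set (Fin (n + 1) → ℝ)) (hE : MeasurableSet E) :
    volume {z : Fin (n + 1) → ℝ | FM i z ∈ E} =
      volume (E ∩ {z : Fin (n + 1) → ℝ | 0 < z i.succ ∧ z i.succ < 1}) := by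
  have hm1 : MeasurableSet {z : Fin (n + 1) → ℝ | FM i z ∈ E} := meas_FM64 i hE
  have hmc : MeasurableSet {z : Fin (n + 1) → ℝ | 0 < z i.succ ∧ z i.succ < 1} := by
    have : {z : Fin (n + 1) → ℝ | 0 < z i.succ ∧ z i.succ < 1} =
        (fun z : Fin (n + 1) → ℝ => z i.succ) ⁻¹' Ioo 0 1 := rfl
    rw [this]
    exact (measurable_pi_apply _) measurableSet_Ioo
  have hm2 := hE.inter hmc
  rw [← lintegral_indicator_one hm1, ← lintegral_indicator_one hm2]
  refine lintegral_eq_of_lmarginal_eq (μ := fun _ : Fin (n + 1) => (volume : Measure ℝ))
    (insert i.succ {0}) (measurable_one.indicator hm1) (measurable_one.indicator hm2) ?_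
  have h0 : i.succ ∉ ({0} : Finset (Fin (n + 1))) := by
    simp [Fin.succ_ne_zero]
  funext x
  rw [lmarginal_insert _ (measurable_one.indicator hm1) h0,
    lmarginal_insert _ (measurable_one.indicator hm2) h0]
  simp only [lmarginal_singleton]
  set g : ℝ → ℝ → ENNReal := fun e l =>
    E.indicator 1 (Function.update (Function.update x i.succ e) 0 l) with hg
  have hgd : ∀ e l : ℝ, g e l =
      E.indicator 1 (Function.update (Function.update x i.succ e) 0 l) := fun _ _ => rfl
  have hgm : Measurable (Function.uncurry g) :=
    (measurable_one.indicator hE).comp (meas_upd64 i x)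
  have key := fold2 g hgm
  have hl : ∀ a b : ℝ, ({z : Fin (n + 1) → ℝ | FM i z ∈ E}.indicator (1 : (Fin (n + 1) → ℝ) → ENNReal)
      (Function.update (Function.update x i.succ a) 0 b)) =
      g (a ^ 2 / (a ^ 2 + b ^ 2)) ((a ^ 2 + b ^ 2) ^ 2 / (2 * a * b)) := by
    intro a b
    classical
    rw [indicator_apply, hgd, indicator_apply]
    refine if_congr ?_ rfl rfl
    show FM i (Function.update (Function.update x i.succ a) 0 b) ∈ E ↔ _ ∈ E
    rw [FM_upd64]
  have hr : ∀ a b : ℝ, ((E ∩ {z : Fin (n + 1) → ℝ | 0 < z i.succ ∧ z i.succ < 1}).indicator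
      (1 : (Fin (n + 1) → ℝ) → ENNReal) (Function.update (Function.update x i.succ a) 0 b)) =
      (Ioo (0 : ℝ) 1).indicator (fun a => g a b) a := by
    intro a b
    have e1 : (Function.update (Function.update x i.succ a) 0 b) i.succ = a := by
      rw [Function.update_of_ne (Fin.succ_ne_zero i), Function.update_self]
    by_cases ha : a ∈ Ioo (0 : ℝ) 1
    · classical
      rw [indicator_of_mem ha, indicator_apply, hgd, indicator_apply]
      refine if_congr ?_ rfl rfl
      constructor
      · intro h
        exact h.1
      · intro h
        refine ⟨h, ?_⟩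
        show 0 < (Function.update (Function.update x i.succ a) 0 b) i.succ ∧
          (Function.update (Function.update x i.succ a) 0 b) i.succ < 1
        rw [e1]
        exact ha
    · rw [indicator_of_notMem ha, indicator_of_notMem]
      rintro ⟨_, h2⟩
      have h3 : 0 < (Function.update (Function.update x i.succ a) 0 b) i.succ ∧
          (Function.update (Function.update x i.succ a) 0 b) i.succ < 1 := h2
      rw [e1] at h3
      exact ha h3
  simp only [hl, hr]
  rw [key, ← lintegral_indicator measurableSet_Ioo]
  refine lintegral_congr fun a => ?_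
  by_cases ha : a ∈ Ioo (0 : ℝ) 1
  · simp only [indicator_of_mem ha]
  · simp only [indicator_of_notMem ha, lintegral_zero]

end Pool.Agent.WSP
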