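import Pool.Agent.W_2cf66e_h88.DefsO

/-!
Leaf O5: the polynomial of the folding.
-/

set_option autoImplicit false

noncomputable section

open MeasureTheory Set Filter Topology

namespace Pool.Agent.WSP

namespace E31

variable {n : ℕ}

/-- The common denominator. -/
def den (i : Fin n) (z : Fin (n + 1) → ℝ) : ℝ :=
  2 * z i.succ * z 0 * ((z i.succ) ^ 2 + (z 0) ^ 2)

/-- The common denominator, a polynomial. -/
def denP (i : Fin n) : MvPolynomial (Fin (n + 1)) ℚ :=
  2 * MvPolynomial.X i.succ * MvPolynomial.X 0 *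
    ((MvPolynomial.X i.succ) ^ 2 + (MvPolynomial.X 0) ^ 2)

lemma aeval_denP (i : Fin n) (z : Fin (n + 1) → ℝ) :
    (MvPolynomial.aeval z (denP i) : ℝ) = den i z := by
  unfold denP den
  simp only [map_mul, map_add, map_pow, MvPolynomial.aeval_X, map_ofNat]

lemma sq_pos31 (i : Fin n) {z : Fin (n + 1) → ℝ} (hz : z i.succ * z 0 ≠ 0) :
    0 < (z i.succ) ^ 2 + (z 0) ^ 2 := by
  have h1 : z i.succ ≠ 0 := left_ne_zero_of_mul hz
  have h2 : 0 < (z i.succ) ^ 2 := by positivity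
  have h3 : 0 ≤ (z 0) ^ 2 := sq_nonneg _
  linarith

lemma den_ne (i : Fin n) {z : Fin (n + 1) → ℝ} (hz : z i.succ * z 0 ≠ 0) : den i z ≠ 0 := by
  unfold den
  have h1 := (sq_pos31 i hz).ne'
  have h2 : 2 * z i.succ * z 0 ≠ 0 := by
    rw [mul_assoc]
    exact mul_ne_zero two_ne_zero hz
  exact mul_ne_zero h2 h1

/-- One coordinate of the folding times the denominator is a polynomial. -/
lemma coord (i : Fin n) (k : Fin (n + 1)) : ∃ H : MvPolynomial (Fin (n + 1)) ℚ,
    ∀ z : Fin (n + 1) → ℝ, z i.succ * z 0 ≠ 0 →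
      (MvPolynomial.aeval z H : ℝ) = den i z * FM i z k := by
  by_cases h0 : k = 0
  · subst h0
    refine ⟨((MvPolynomial.X i.succ) ^ 2 + (MvPolynomial.X 0) ^ 2) ^ 3, fun z hz => ?_⟩
    have h1 := left_ne_zero_of_mul hz
    have h2 := right_ne_zero_of_mul hz
    simp only [map_add, map_pow, MvPolynomial.aeval_X]
    unfold FM den
    rw [Function.update_self]
    field_simp
  · by_cases hi : k = i.succ
    · subst hi
      refine ⟨2 * (MvPolynomial.X i.succ) ^ 3 * MvPolynomial.X 0, fun z hz => ?_⟩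
      have h1 := (sq_pos31 i hz).ne'
      simp only [map_mul, map_pow, MvPolynomial.aeval_X, map_ofNat]
      unfold FM den
      rw [Function.update_of_ne h0, Function.update_self]
      field_simp
    · refine ⟨denP i * MvPolynomial.X k, fun z _ => ?_⟩
      rw [map_mul, aeval_denP, MvPolynomial.aeval_X]
      unfold FM
      rw [Function.update_of_ne h0, Function.update_of_ne hi]

/-- All large powers of the denominator clear the denominators. -/
lemma clear (i : Fin n) (P : MvPolynomial (Fin (n + 1)) ℚ) :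
    ∃ N : ℕ, ∀ M : ℕ, N ≤ M → ∃ H : MvPolynomial (Fin (n + 1)) ℚ,
      ∀ z : Fin (n + 1) → ℝ, z i.succ * z 0 ≠ 0 →
        (MvPolynomial.aeval z H : ℝ) = den i z ^ M * (MvPolynomial.aeval (FM i z) P : ℝ) := by
  induction P using MvPolynomial.induction_on with
  | C a =>
    refine ⟨0, fun M _ => ⟨denP i ^ M * MvPolynomial.C a, fun z _ => ?_⟩⟩
    rw [map_mul, map_pow, aeval_denP, MvPolynomial.aeval_C, MvPolynomial.aeval_C]
  | add p q hp hq =>
    obtain ⟨N₁, h₁⟩ := hp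
    obtain ⟨N₂, h₂⟩ := hq
    refine ⟨max N₁ N₂, fun M hM => ?_⟩
    obtain ⟨H₁, e₁⟩ := h₁ M ((le_max_left _ _).trans hM)
    obtain ⟨H₂, e₂⟩ := h₂ M ((le_max_right _ _).trans hM)
    refine ⟨H₁ + H₂, fun z hz => ?_⟩
    rw [map_add, map_add, e₁ z hz, e₂ z hz, mul_add]
  | mul_X p k hp =>
    obtain ⟨N, h⟩ := hp
    obtain ⟨K, eK⟩ := coord i k
    refine ⟨N + 1, fun M hM => ?_⟩
    obtain ⟨M', rfl⟩ : ∃ M', M = M' + 1 := ⟨M - 1, by omega⟩
    obtain ⟨H, e⟩ := h M' (by omega)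
    refine ⟨H * K, fun z hz => ?_⟩
    rw [map_mul, map_mul, e z hz, eK z hz, MvPolynomial.aeval_X, pow_succ]
    ring

end E31

theorem fold_poly {n : ℕ} (i : Fin n) (P : MvPolynomial (Fin (n + 1)) ℚ) :
    ∃ P' : MvPolynomial (Fin (n + 1)) ℚ, ∀ z : Fin (n + 1) → ℝ,
      (0 < (MvPolynomial.aeval z P' : ℝ) ↔
        z i.succ * z 0 ≠ 0 ∧ 0 < (MvPolynomial.aeval (FM i z) P : ℝ)) := by
  obtain ⟨N, h⟩ := E31.clear i P
  obtain ⟨H, e⟩ := h (2 * N) (by omega)
  refine ⟨(MvPolynomial.X i.succ * MvPolynomial.X 0) ^ 2 * H, fun z => ?_⟩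
  rw [map_mul, map_pow, map_mul, MvPolynomial.aeval_X, MvPolynomial.aeval_X]
  by_cases hz : z i.succ * z 0 = 0
  · rw [hz]
    simp
  · rw [e z hz]
    have h1 : 0 < (z i.succ * z 0) ^ 2 := by positivity
    have h2 : 0 < E31.den i z ^ (2 * N) := by
      rw [pow_mul]
      have := E31.den_ne i hz
      positivity
    constructor
    · intro h3
      refine ⟨hz, ?_⟩
      have h4 := (mul_pos_iff_of_pos_left h1).1 h3
      exact (mul_pos_iff_of_pos_left h2).1 h4
    · rintro ⟨_, h3⟩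
      exact mul_pos h1 (mul_pos h2 h3)

end Pool.Agent.WSP
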