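import Pool.Agent.W_2cf66e_h88.LoA
import Pool.Agent.W_2cf66e_h88.LoD
import Pool.Agent.W_2cf66e_h88.LoE

/-!
# MP_2cf66e_nt, Theorem OI, leaf O6: unfolding all walls, volume one (helper85)
-/

set_option autoImplicit false
noncomputable section
open MeasureTheory Set Filter Topology
namespace Pool.Agent.WSP

theorem WS.meas85 {n : ℕ} (j : ℕ) (P : MvPolynomial (Fin (n + 1)) ℚ) : MeasurableSet (WS j P) := by
  have h : WS j P = (⋂ i : Fin n, {z : Fin (n + 1) → ℝ | (i : ℕ) < j → 0 < z i.succ ∧ z i.succ < 1})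
      ∩ PS P := by
    ext z
    simp only [WS, PS, Set.mem_iInter, Set.mem_inter_iff]
    rfl
  rw [h]
  refine MeasurableSet.inter (MeasurableSet.iInter fun i => ?_) (PS.meas P)
  by_cases hi : (i : ℕ) < j
  · have e : {z : Fin (n + 1) → ℝ | (i : ℕ) < j → 0 < z i.succ ∧ z i.succ < 1} =
        {z | 0 < z i.succ} ∩ {z | z i.succ < 1} := by
      ext z
      exact ⟨fun h => h hi, fun h _ => h⟩
    rw [e]
    exact (measurableSet_lt measurable_const (measurable_pi_apply _)).inter
      (measurableSet_lt (measurable_pi_apply _) measurable_const)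
  · have e : {z : Fin (n + 1) → ℝ | (i : ℕ) < j → 0 < z i.succ ∧ z i.succ < 1} = Set.univ := by
      ext z
      exact ⟨fun _ => trivial, fun _ h => absurd h hi⟩
    rw [e]
    exact MeasurableSet.univ

theorem FM_zero85 {n : ℕ} (i : Fin n) (z : Fin (n + 1) → ℝ) :
    FM i z 0 = ((z i.succ) ^ 2 + (z 0) ^ 2) ^ 2 / (2 * z i.succ * z 0) := by
  unfold FM
  rw [Function.update_self]

theorem FM_self85 {n : ℕ} (i : Fin n) (z : Fin (n + 1) → ℝ) :
    FM i z i.succ = (z i.succ) ^ 2 / ((z i.succ) ^ 2 + (z 0) ^ 2) := by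
  unfold FM
  rw [Function.update_of_ne (Fin.succ_ne_zero i), Function.update_self]

theorem FM_ne85 {n : ℕ} (i : Fin n) (z : Fin (n + 1) → ℝ) (k : Fin (n + 1)) (h0 : k ≠ 0)
    (hi : k ≠ i.succ) : FM i z k = z k := by
  unfold FM
  rw [Function.update_of_ne h0, Function.update_of_ne hi]

theorem coord_null85 {m : ℕ} (k : Fin m) : volume {z : Fin m → ℝ | z k = 0} = 0 := by
  have h : {z : Fin m → ℝ | z k = 0} =
      {z : Fin m → ℝ | (MvPolynomial.aeval z (MvPolynomial.X k : MvPolynomial (Fin m) ℚ) : ℝ) = 0} := by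
    ext z
    simp
  rw [h]
  exact Pool.Agent.CVol.null_rat _ (MvPolynomial.X_ne_zero k)

theorem fold_step {n : ℕ} (j : ℕ) (hj : j < n) (P : MvPolynomial (Fin (n + 1)) ℚ)
    (hb : Bornology.IsBounded (WS (j + 1) P)) : ∃ P' : MvPolynomial (Fin (n + 1)) ℚ,
      Bornology.IsBounded (WS j P') ∧ volume (WS j P') = volume (WS (j + 1) P) := by
  set i : Fin n := ⟨j, hj⟩ with hi
  obtain ⟨P', hP'⟩ := fold_poly i P
  have hne : ∀ i' : Fin n, (i' : ℕ) < j → i'.succ ≠ i.succ := by
    intro i' h e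
    have h1 := Fin.succ_injective n e
    rw [h1] at h
    exact lt_irrefl _ h
  have hmem : ∀ z : Fin (n + 1) → ℝ, z ∈ WS j P' ↔ (z i.succ * z 0 ≠ 0 ∧ FM i z ∈ WS j P) := by
    intro z
    constructor
    · rintro ⟨h1, h2⟩
      obtain ⟨h3, h4⟩ := (hP' z).mp h2
      refine ⟨h3, fun i' h => ?_, h4⟩
      rw [FM_ne85 i z _ (Fin.succ_ne_zero i') (hne i' h)]
      exact h1 i' h
    · rintro ⟨h3, h1, h4⟩
      refine ⟨fun i' h => ?_, (hP' z).mpr ⟨h3, h4⟩⟩
      have h5 := h1 i' h
      rw [FM_ne85 i z _ (Fin.succ_ne_zero i') (hne i' h)] at h5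
      exact h5
  have hWS : WS (j + 1) P = WS j P ∩ {z : Fin (n + 1) → ℝ | 0 < z i.succ ∧ z i.succ < 1} := by
    ext z
    constructor
    · rintro ⟨h1, h2⟩
      exact ⟨⟨fun i' h => h1 i' (Nat.lt_succ_of_lt h), h2⟩, h1 i (Nat.lt_succ_self j)⟩
    · rintro ⟨⟨h1, h2⟩, h3⟩
      refine ⟨fun i' h => ?_, h2⟩
      rcases Nat.lt_succ_iff_lt_or_eq.mp h with h4 | h4
      · exact h1 i' h4
      · have h5 : i' = i := Fin.ext h4
        rw [h5]
        exact h3
  refine ⟨P', ?_, ?_⟩
  · obtain ⟨R, hR⟩ := hb.exists_norm_le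
    rw [isBounded_iff_forall_norm_le]
    refine ⟨R + 1, fun z hz => ?_⟩
    obtain ⟨h3, h4⟩ := (hmem z).mp hz
    have hz1 : z i.succ ≠ 0 := left_ne_zero_of_mul h3
    have hz0 : z 0 ≠ 0 := right_ne_zero_of_mul h3
    have p1 : 0 < z i.succ ^ 2 := by positivity
    have p0 : 0 < z 0 ^ 2 := by positivity
    have h5 : FM i z ∈ WS (j + 1) P := by
      rw [hWS]
      refine ⟨h4, ?_⟩
      show 0 < FM i z i.succ ∧ FM i z i.succ < 1
      rw [FM_self85]
      constructor
      · positivity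
      · rw [div_lt_one (by positivity)]
        linarith
    have h6 := hR _ h5
    have hR0 : 0 ≤ R := (norm_nonneg _).trans h6
    have h7 : ∀ k, |FM i z k| ≤ R := fun k => by
      have := norm_le_pi_norm (FM i z) k
      rw [Real.norm_eq_abs] at this
      exact this.trans h6
    have h8 : z i.succ ^ 2 + z 0 ^ 2 ≤ R := by
      have h9 := h7 0
      rw [FM_zero85, abs_div, abs_of_nonneg (sq_nonneg _)] at h9
      have h10 : 0 < |2 * z i.succ * z 0| := by positivity
      rw [div_le_iff₀ h10] at h9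
      have h11 : |2 * z i.succ * z 0| ≤ z i.succ ^ 2 + z 0 ^ 2 := by
        rw [abs_le]
        constructor
        · nlinarith [sq_nonneg (z i.succ + z 0)]
        · nlinarith [sq_nonneg (z i.succ - z 0)]
      have h12 : (z i.succ ^ 2 + z 0 ^ 2) ^ 2 ≤ R * (z i.succ ^ 2 + z 0 ^ 2) :=
        h9.trans (mul_le_mul_of_nonneg_left h11 hR0)
      nlinarith
    rw [pi_norm_le_iff_of_nonneg (by linarith)]
    intro k
    rw [Real.norm_eq_abs]
    by_cases hk0 : k = 0
    · rw [hk0, abs_le]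
      constructor <;> nlinarith
    · by_cases hki : k = i.succ
      · rw [hki, abs_le]
        constructor <;> nlinarith
      · have h9 := h7 k
        rw [FM_ne85 i z k hk0 hki] at h9
        linarith
  · rw [hWS, ← fold_vol i (WS j P) (WS.meas85 j P)]
    refine measure_congr ?_
    have h1 : ∀ᵐ z : Fin (n + 1) → ℝ, z i.succ ≠ 0 := by
      rw [ae_iff]
      simp only [not_not]
      exact coord_null85 _
    have h0 : ∀ᵐ z : Fin (n + 1) → ℝ, z 0 ≠ 0 := by
      rw [ae_iff]
      simp only [not_not]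
      exact coord_null85 _
    filter_upwards [h0, h1] with z hz0 hz1
    refine propext ?_
    constructor
    · intro h
      exact ((hmem z).mp h).2
    · intro h
      exact (hmem z).mpr ⟨mul_ne_zero hz1 hz0, h⟩

theorem fold_all85 {n : ℕ} (j : ℕ) : j ≤ n → ∀ P : MvPolynomial (Fin (n + 1)) ℚ,
    Bornology.IsBounded (WS j P) → V1 (n + 1) (volume (WS j P)).toReal := by
  induction j with
  | zero =>
    intro _ P hb
    have e : WS 0 P = PS P := by
      ext z
      exact ⟨fun h => h.2, fun h => ⟨fun i' h' => absurd h' (Nat.not_lt_zero _), h⟩⟩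
    rw [e] at hb ⊢
    by_cases hP : P = 0
    · have e2 : PS P = ∅ := by
        rw [hP]
        ext z
        simp [PS]
      rw [e2, measure_empty]
      exact V1.zero _
    · exact ⟨P, hP, hb, rfl⟩
  | succ j ih =>
    intro hj P hb
    obtain ⟨P', h1, h2⟩ := fold_step j (Nat.lt_of_succ_le hj) P hb
    rw [← h2]
    exact ih (Nat.le_of_succ_le hj) P' h1

theorem fold_all {n : ℕ} (P : MvPolynomial (Fin (n + 1)) ℚ)
    (hb : Bornology.IsBounded (WS n P)) : V1 (n + 1) (volume (WS n P)).toReal :=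
  fold_all85 n le_rfl P hb

theorem V1.one (n : ℕ) : V1 (n + 1) 1 := by
  have e : WS n (MvPolynomial.X 0 * (1 - MvPolynomial.X 0) : MvPolynomial (Fin (n + 1)) ℚ) =
      Set.pi Set.univ (fun _ : Fin (n + 1) => Ioo (0 : ℝ) 1) := by
    ext z
    have h0 : (0 < (MvPolynomial.aeval z (MvPolynomial.X 0 * (1 - MvPolynomial.X 0) :
        MvPolynomial (Fin (n + 1)) ℚ) : ℝ)) ↔ (0 < z 0 ∧ z 0 < 1) := by
      simp only [map_mul, map_sub, map_one, MvPolynomial.aeval_X]
      constructor
      · intro h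
        constructor
        · by_contra h1
          nlinarith
        · by_contra h1
          nlinarith
      · rintro ⟨h1, h2⟩
        exact mul_pos h1 (by linarith)
    constructor
    · rintro ⟨h1, h2⟩ k _
      refine Fin.cases ?_ (fun i => ?_) k
      · exact h0.mp h2
      · exact h1 i i.isLt
    · intro h
      exact ⟨fun i _ => h i.succ (Set.mem_univ _), h0.mpr (h 0 (Set.mem_univ _))⟩
  have hb : Bornology.IsBounded (WS n (MvPolynomial.X 0 * (1 - MvPolynomial.X 0) :
      MvPolynomial (Fin (n + 1)) ℚ)) := by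
    rw [e]
    exact Bornology.IsBounded.pi fun _ => Metric.isBounded_Ioo 0 1
  have h := fold_all _ hb
  rw [e, Real.volume_pi_Ioo] at h
  simpa using h

end Pool.Agent.WSP
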