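import Pool.Agent.W_2cf66e_h88.DefsO
import Pool.Agent.W_2cf66e_h23.FwdB

/-!
# MP_2cf66e_nt, one inequality, leaf O7: the slab (helper65)
-/

set_option autoImplicit false

noncomputable section

open MeasureTheory Set Filter Topology

namespace Pool.Agent.WSP

namespace OI65

/-- Evaluation along the first coordinate. -/
theorem aeval_sum {n : ℕ} (P : MvPolynomial (Fin (n + 1)) ℚ) (z : Fin (n + 1) → ℝ) :
    (MvPolynomial.aeval z P : ℝ) =
      ∑ k ∈ Finset.range ((MvPolynomial.finSuccEquiv ℚ n P).natDegree + 1),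
        (MvPolynomial.aeval (fun i : Fin n => z i.succ)
          ((MvPolynomial.finSuccEquiv ℚ n P).coeff k) : ℝ) * z 0 ^ k := by
  set φ : MvPolynomial (Fin n) ℚ →+* ℝ :=
    ((MvPolynomial.aeval (fun i : Fin n => z i.succ) : MvPolynomial (Fin n) ℚ →ₐ[ℚ] ℝ) :
      MvPolynomial (Fin n) ℚ →+* ℝ) with hφ
  have h : ((MvPolynomial.aeval z : MvPolynomial (Fin (n + 1)) ℚ →ₐ[ℚ] ℝ) :
      MvPolynomial (Fin (n + 1)) ℚ →+* ℝ) =
      (Polynomial.eval₂RingHom φ (z 0)).comp
        ((MvPolynomial.finSuccEquiv ℚ n : MvPolynomial (Fin (n + 1)) ℚ ≃ₐ[ℚ] _) :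
          MvPolynomial (Fin (n + 1)) ℚ →+* Polynomial (MvPolynomial (Fin n) ℚ)) := by
    refine MvPolynomial.ringHom_ext (fun r => ?_) (fun i => ?_)
    · simp [hφ, MvPolynomial.finSuccEquiv_apply]
    · refine Fin.cases ?_ (fun j => ?_) i
      · simp [MvPolynomial.finSuccEquiv_X_zero]
      · simp [hφ, MvPolynomial.finSuccEquiv_X_succ]
  have h2 := congrArg (fun f => f P) h
  simp only [RingHom.coe_comp, Function.comp_apply, Polynomial.coe_eval₂RingHom,
    RingHom.coe_coe] at h2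
  rw [h2, Polynomial.eval₂_eq_sum_range]
  rfl

/-- A polynomial is bounded on the unit cube. -/
theorem bdd_cube {n : ℕ} (c : MvPolynomial (Fin n) ℚ) : ∃ M : ℝ, 0 ≤ M ∧
    ∀ y : Fin n → ℝ, (∀ i, |y i| ≤ 1) → |(MvPolynomial.aeval y c : ℝ)| ≤ M := by
  induction c using MvPolynomial.induction_on with
  | C a =>
    refine ⟨|(a : ℝ)|, abs_nonneg _, fun y _ => ?_⟩
    simp
  | add p q hp hq =>
    obtain ⟨M, h0, h1⟩ := hp
    obtain ⟨N, h2, h3⟩ := hq
    refine ⟨M + N, add_nonneg h0 h2, fun y hy => ?_⟩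
    rw [map_add]
    exact (abs_add_le _ _).trans (add_le_add (h1 y hy) (h3 y hy))
  | mul_X p j hp =>
    obtain ⟨M, h0, h1⟩ := hp
    refine ⟨M, h0, fun y hy => ?_⟩
    rw [map_mul, MvPolynomial.aeval_X, abs_mul]
    calc |(MvPolynomial.aeval y p : ℝ)| * |y j| ≤ M * 1 :=
          mul_le_mul (h1 y hy) (hy j) (abs_nonneg _) h0
      _ = M := mul_one M

/-- Positivity far away. -/
theorem far {n : ℕ} (P : MvPolynomial (Fin (n + 1)) ℚ) {a : ℚ} (ha : a ≠ 0)
    (hP : (MvPolynomial.finSuccEquiv ℚ n P).leadingCoeff = MvPolynomial.C a) :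
    ∃ K : ℝ, 2 ≤ K ∧ ∀ z : Fin (n + 1) → ℝ, (∀ i : Fin n, |z i.succ| ≤ 1) → K ≤ |z 0| →
      0 < (a : ℝ) * (z 0 + 1) ^ (MvPolynomial.finSuccEquiv ℚ n P).natDegree *
        MvPolynomial.aeval z P := by
  set q := MvPolynomial.finSuccEquiv ℚ n P with hq
  set D := q.natDegree with hD
  choose M hM0 hM using fun k : ℕ => bdd_cube (q.coeff k)
  set B : ℝ := ∑ k ∈ Finset.range D, M k with hB
  have hB0 : 0 ≤ B := Finset.sum_nonneg fun k _ => hM0 k
  have ha' : (a : ℝ) ≠ 0 := by exact_mod_cast ha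
  have haa : 0 < |(a : ℝ)| := abs_pos.2 ha'
  refine ⟨max 2 (2 * B / |(a : ℝ)|), le_max_left _ _, fun z hz hK => ?_⟩
  have h2 : 2 ≤ |z 0| := (le_max_left _ _).trans hK
  have h3 : 2 * B / |(a : ℝ)| ≤ |z 0| := (le_max_right _ _).trans hK
  rw [div_le_iff₀ haa] at h3
  have hz0 : 0 < |z 0| := by linarith
  have e : (MvPolynomial.aeval z P : ℝ) = ∑ k ∈ Finset.range D,
      (MvPolynomial.aeval (fun i : Fin n => z i.succ) (q.coeff k) : ℝ) * z 0 ^ k +
        a * z 0 ^ D := by
    rw [aeval_sum P z, ← hq, Finset.sum_range_succ]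
    congr 2
    have : q.coeff D = MvPolynomial.C a := hP
    rw [← hD, this]
    simp
  set R : ℝ := ∑ k ∈ Finset.range D,
      (MvPolynomial.aeval (fun i : Fin n => z i.succ) (q.coeff k) : ℝ) * z 0 ^ k with hR
  have hRb : |R| ≤ |(a : ℝ)| * |z 0| ^ D / 2 := by
    have h4 : |R| * |z 0| ≤ B * |z 0| ^ D := by
      rw [hR, hB, Finset.sum_mul]
      calc |∑ k ∈ Finset.range D,
            (MvPolynomial.aeval (fun i : Fin n => z i.succ) (q.coeff k) : ℝ) * z 0 ^ k| * |z 0|
          ≤ (∑ k ∈ Finset.range D,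
            |(MvPolynomial.aeval (fun i : Fin n => z i.succ) (q.coeff k) : ℝ) * z 0 ^ k|) *
              |z 0| := mul_le_mul_of_nonneg_right (Finset.abs_sum_le_sum_abs _ _) hz0.le
        _ = ∑ k ∈ Finset.range D,
            |(MvPolynomial.aeval (fun i : Fin n => z i.succ) (q.coeff k) : ℝ)| *
              |z 0| ^ (k + 1) := by
            rw [Finset.sum_mul]
            refine Finset.sum_congr rfl fun k _ => ?_
            rw [abs_mul, abs_pow, pow_succ]; ring
        _ ≤ ∑ k ∈ Finset.range D, M k * |z 0| ^ D := by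
            refine Finset.sum_le_sum fun k hk => ?_
            have hk' := Finset.mem_range.1 hk
            exact mul_le_mul (hM k _ hz) (pow_le_pow_right₀ (by linarith) hk')
              (by positivity) (hM0 k)
    have h5 : |R| * |z 0| ≤ (|(a : ℝ)| * |z 0| ^ D / 2) * |z 0| := by
      have hp : 0 ≤ |z 0| ^ D := by positivity
      nlinarith [mul_le_mul_of_nonneg_right h3 hp]
    exact le_of_mul_le_mul_right h5 hz0
  have hw : 0 < z 0 * (z 0 + 1) := by
    rcases le_or_gt 0 (z 0) with h | h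
    · rw [abs_of_nonneg h] at h2
      nlinarith
    · rw [abs_of_neg h] at h2
      nlinarith
  have hz1 : z 0 + 1 ≠ 0 := by
    intro h; rw [h, mul_zero] at hw; exact lt_irrefl _ hw
  have hpos : 0 < |z 0 + 1| ^ D := pow_pos (abs_pos.2 hz1) _
  have hzD : 0 < |z 0| ^ D := pow_pos hz0 _
  have e2 : (a : ℝ) * (z 0 + 1) ^ D * (a * z 0 ^ D) = |(a : ℝ)| ^ 2 * (|z 0| ^ D * |z 0 + 1| ^ D) := by
    rw [sq_abs, ← mul_pow, ← abs_mul, abs_of_pos hw, mul_pow]; ring
  have e3 : |(a : ℝ) * (z 0 + 1) ^ D * R| ≤ |(a : ℝ)| * |z 0 + 1| ^ D *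
      (|(a : ℝ)| * |z 0| ^ D / 2) := by
    rw [abs_mul, abs_mul, abs_pow]
    exact mul_le_mul_of_nonneg_left hRb (by positivity)
  have e4 := neg_abs_le ((a : ℝ) * (z 0 + 1) ^ D * R)
  rw [e]
  have e5 : 0 < |(a : ℝ)| ^ 2 * (|z 0| ^ D * |z 0 + 1| ^ D) := by positivity
  calc (0 : ℝ) < |(a : ℝ)| ^ 2 * (|z 0| ^ D * |z 0 + 1| ^ D) -
        |(a : ℝ)| * |z 0 + 1| ^ D * (|(a : ℝ)| * |z 0| ^ D / 2) := by nlinarith
    _ ≤ (a : ℝ) * (z 0 + 1) ^ D * (a * z 0 ^ D) + (a : ℝ) * (z 0 + 1) ^ D * R := by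
        rw [e2]; linarith
    _ = (a : ℝ) * (z 0 + 1) ^ D * (R + a * z 0 ^ D) := by ring

theorem contQ {m : ℕ} (p : MvPolynomial (Fin m) ℚ) :
    Continuous (fun z : Fin m → ℝ => (MvPolynomial.aeval z p : ℝ)) := by
  induction p using MvPolynomial.induction_on with
  | C a =>
    simp only [MvPolynomial.algHom_C]
    exact continuous_const
  | add p q hp hq =>
    simp only [map_add]
    exact hp.add hq
  | mul_X p j hp =>
    simp only [map_mul, MvPolynomial.aeval_X]
    exact hp.mul (continuous_apply j)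

/-- The coordinates are not `0` or `1`. -/
theorem ae_ne (m : ℕ) : ∀ᵐ u : Fin m → ℝ, ∀ i, u i ≠ 0 ∧ u i ≠ 1 := by
  rw [ae_all_iff]
  intro i
  have h1 : ∀ c : ℝ, ∀ᵐ u : Fin m → ℝ, u i ≠ c := by
    intro c
    rw [ae_iff]
    simp only [not_not]
    exact Measure.pi_hyperplane (fun _ : Fin m => (volume : Measure ℝ)) i c
  filter_upwards [h1 0, h1 1] with u h2 h3
  exact ⟨h2, h3⟩

/-- The identity of the slab. -/
theorem slab_id {n : ℕ} (Q : MvPolynomial (Fin (n + 1)) ℚ) {K : ℝ} (hK : 2 ≤ K)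
    (hpos : ∀ z : Fin (n + 1) → ℝ, (∀ i : Fin n, |z i.succ| ≤ 1) → K ≤ |z 0| →
      0 < (MvPolynomial.aeval z Q : ℝ)) :
    Bornology.IsBounded (WS n (Q * (MvPolynomial.X 0 * (1 - MvPolynomial.X 0)))) ∧
    Bornology.IsBounded (WS n (-Q)) ∧
    ∫ z in cube (n + 1), sg (MvPolynomial.aeval z Q) =
      (volume (WS n (Q * (MvPolynomial.X 0 * (1 - MvPolynomial.X 0))))).toReal -
        (volume (WS n (-Q))).toReal := by
  set p : (Fin (n + 1) → ℝ) → ℝ := fun z => (MvPolynomial.aeval z Q : ℝ) with hp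
  have hpc : Continuous p := contQ Q
  set B : Set (Fin (n + 1) → ℝ) := {z | ∀ i : Fin n, 0 < z i.succ ∧ z i.succ < 1} with hB
  set I : Set (Fin (n + 1) → ℝ) := {z | 0 < z 0 ∧ z 0 < 1} with hI
  set O' : Set (Fin (n + 1) → ℝ) := {z | z 0 < 0 ∨ 1 < z 0} with hO'
  set P1 : Set (Fin (n + 1) → ℝ) := {z | 0 < p z} with hP1
  set P2 : Set (Fin (n + 1) → ℝ) := {z | p z < 0} with hP2
  have mB : MeasurableSet B := by
    have : B = ⋂ i : Fin n, ({z | 0 < z i.succ} ∩ {z | z i.succ < 1}) := by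
      ext z; simp [hB]
    rw [this]
    exact MeasurableSet.iInter fun i =>
      (measurableSet_lt measurable_const (measurable_pi_apply _)).inter
        (measurableSet_lt (measurable_pi_apply _) measurable_const)
  have mI : MeasurableSet I := (measurableSet_lt measurable_const (measurable_pi_apply _)).inter
        (measurableSet_lt (measurable_pi_apply _) measurable_const)
  have mO' : MeasurableSet O' := (measurableSet_lt (measurable_pi_apply _) measurable_const).union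
        (measurableSet_lt measurable_const (measurable_pi_apply _))
  have mP1 : MeasurableSet P1 := measurableSet_lt measurable_const hpc.measurable
  have mP2 : MeasurableSet P2 := measurableSet_lt hpc.measurable measurable_const
  set A1 := B ∩ I ∩ P1 with hA1
  set A2 := B ∩ I ∩ P2 with hA2
  set O := B ∩ O' ∩ P2 with hO
  have mA1 : MeasurableSet A1 := (mB.inter mI).inter mP1
  have mA2 : MeasurableSet A2 := (mB.inter mI).inter mP2
  have mO : MeasurableSet O := (mB.inter mO').inter mP2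
  have hb : ∀ z ∈ B, ∀ i : Fin n, |z i.succ| ≤ 1 := by
    intro z hz i
    have := hz i
    rw [abs_le]; constructor <;> linarith [this.1, this.2]
  -- the two sets
  have e1 : WS n (Q * (MvPolynomial.X 0 * (1 - MvPolynomial.X 0))) = A1 ∪ O := by
    ext z
    have hv : (MvPolynomial.aeval z (Q * (MvPolynomial.X 0 * (1 - MvPolynomial.X 0))) : ℝ) =
        p z * (z 0 * (1 - z 0)) := by simp [hp]
    constructor
    · rintro ⟨h1, h2⟩
      rw [hv] at h2
      have hzB : z ∈ B := fun i => h1 i i.2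
      rcases mul_pos_iff.1 h2 with ⟨h3, h4⟩ | ⟨h3, h4⟩
      · left
        refine ⟨⟨hzB, ?_⟩, h3⟩
        rcases mul_pos_iff.1 h4 with ⟨h5, h6⟩ | ⟨h5, h6⟩
        · exact ⟨h5, by linarith⟩
        · linarith
      · right
        refine ⟨⟨hzB, ?_⟩, h3⟩
        rcases mul_neg_iff.1 h4 with ⟨h5, h6⟩ | ⟨h5, h6⟩
        · exact Or.inr (by linarith)
        · exact Or.inl h5
    · rintro (⟨⟨h1, h2⟩, h3⟩ | ⟨⟨h1, h2⟩, h3⟩)
      · refine ⟨fun i _ => h1 i, ?_⟩
        rw [hv]
        exact mul_pos h3 (mul_pos h2.1 (by linarith [h2.2]))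
      · refine ⟨fun i _ => h1 i, ?_⟩
        rw [hv]
        refine mul_pos_of_neg_of_neg h3 ?_
        rcases h2 with h | h
        · exact mul_neg_of_neg_of_pos h (by linarith)
        · exact mul_neg_of_pos_of_neg (by linarith) (by linarith)
  have e2 : WS n (-Q) = B ∩ P2 := by
    ext z
    have hv : (MvPolynomial.aeval z (-Q) : ℝ) = - p z := by simp [hp]
    constructor
    · rintro ⟨h1, h2⟩
      rw [hv] at h2
      exact ⟨fun i => h1 i i.2, by show p z < 0; linarith⟩
    · rintro ⟨h1, h2⟩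
      refine ⟨fun i _ => h1 i, ?_⟩
      rw [hv]
      have : p z < 0 := h2
      linarith
  -- boundedness
  have hball : ∀ z ∈ B, |z 0| ≤ K → z ∈ Metric.closedBall (0 : Fin (n + 1) → ℝ) K := by
    intro z hz h
    rw [mem_closedBall_zero_iff, pi_norm_le_iff_of_nonneg (by linarith)]
    intro i
    refine Fin.cases ?_ (fun j => ?_) i
    · exact h
    · rw [Real.norm_eq_abs]
      exact (hb z hz j).trans (by linarith)
  have b2 : B ∩ P2 ⊆ Metric.closedBall (0 : Fin (n + 1) → ℝ) K := by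
    rintro z ⟨h1, h2⟩
    refine hball z h1 ?_
    by_contra h
    have h3 := hpos z (hb z h1) (le_of_lt (not_le.1 h))
    have h4 : p z < 0 := h2
    exact absurd h3 (not_lt.2 h4.le)
  have b1 : A1 ∪ O ⊆ Metric.closedBall (0 : Fin (n + 1) → ℝ) K := by
    rintro z (⟨⟨h1, h2⟩, h3⟩ | ⟨⟨h1, h2⟩, h3⟩)
    · refine hball z h1 ?_
      rw [abs_of_pos h2.1]; linarith [h2.2]
    · exact b2 ⟨h1, h3⟩
  have fin : ∀ S : Set (Fin (n + 1) → ℝ), S ⊆ Metric.closedBall (0 : Fin (n + 1) → ℝ) K →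
      volume S ≠ ⊤ := by
    intro S hS
    exact ((measure_mono hS).trans_lt
      (isCompact_closedBall (0 : Fin (n + 1) → ℝ) K).measure_lt_top).ne
  have fA1 := fin A1 (subset_union_left.trans b1)
  have fO := fin O (subset_union_right.trans b1)
  have fA2 := fin A2 (fun z hz => b2 ⟨hz.1.1, hz.2⟩)
  -- the volumes
  have v1 : (volume (A1 ∪ O)).toReal = (volume A1).toReal + (volume O).toReal := by
    rw [measure_union _ mO, ENNReal.toReal_add fA1 fO]
    rw [Set.disjoint_left]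
    rintro z ⟨_, h1⟩ ⟨_, h2⟩
    have h3 : 0 < p z := h1
    have h4 : p z < 0 := h2
    linarith
  have v2 : (volume (B ∩ P2)).toReal = (volume A2).toReal + (volume O).toReal := by
    have h : (B ∩ P2 : Set (Fin (n + 1) → ℝ)) =ᵐ[volume] (A2 ∪ O : Set (Fin (n + 1) → ℝ)) := by
      filter_upwards [ae_ne (n + 1)] with z hz
      refine propext ?_
      show z ∈ B ∩ P2 ↔ z ∈ A2 ∪ O
      constructor
      · rintro ⟨h1, h2⟩
        rcases lt_or_ge (z 0) 0 with h | h
        · exact Or.inr ⟨⟨h1, Or.inl h⟩, h2⟩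
        · rcases lt_or_ge 1 (z 0) with h' | h'
          · exact Or.inr ⟨⟨h1, Or.inr h'⟩, h2⟩
          · exact Or.inl ⟨⟨h1, lt_of_le_of_ne h (hz 0).1.symm, lt_of_le_of_ne h' (hz 0).2⟩, h2⟩
      · rintro (⟨⟨h1, _⟩, h3⟩ | ⟨⟨h1, _⟩, h3⟩)
        · exact ⟨h1, h3⟩
        · exact ⟨h1, h3⟩
    rw [measure_congr h, measure_union _ mO, ENNReal.toReal_add fA2 fO]
    rw [Set.disjoint_left]
    rintro z ⟨⟨_, h1⟩, _⟩ ⟨⟨_, h2⟩, _⟩
    rcases h2 with h | h
    · linarith [h1.1]
    · linarith [h1.2]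
  refine ⟨by rw [e1]; exact Metric.isBounded_closedBall.subset b1,
    by rw [e2]; exact Metric.isBounded_closedBall.subset b2, ?_⟩
  rw [e1, e2, v1, v2, ← integral_indicator (cube_meas _)]
  have hae : (cube (n + 1)).indicator (fun z => sg (MvPolynomial.aeval z Q)) =ᵐ[volume]
      fun z => A1.indicator (1 : (Fin (n + 1) → ℝ) → ℝ) z -
        A2.indicator (1 : (Fin (n + 1) → ℝ) → ℝ) z := by
    filter_upwards [ae_ne (n + 1)] with z hz
    by_cases hc : z ∈ cube (n + 1)
    · have hBI : z ∈ B ∩ I := by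
        refine ⟨fun i => ⟨?_, ?_⟩, ?_, ?_⟩
        · exact lt_of_le_of_ne (hc i.succ).1 (hz i.succ).1.symm
        · exact lt_of_le_of_ne (hc i.succ).2 (hz i.succ).2
        · exact lt_of_le_of_ne (hc 0).1 (hz 0).1.symm
        · exact lt_of_le_of_ne (hc 0).2 (hz 0).2
      rw [indicator_of_mem hc]
      show sg (p z) = _
      rcases lt_trichotomy (p z) 0 with h | h | h
      · rw [sg_neg h, indicator_of_notMem (fun h' => absurd (show 0 < p z from h'.2) (by linarith)),
          indicator_of_mem (show z ∈ A2 from ⟨hBI, h⟩)]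
        simp
      · rw [h, sg_zero, indicator_of_notMem (fun h' => absurd (show 0 < p z from h'.2) (by linarith)),
          indicator_of_notMem (fun h' => absurd (show p z < 0 from h'.2) (by linarith))]
        simp
      · rw [sg_pos h, indicator_of_mem (show z ∈ A1 from ⟨hBI, h⟩),
          indicator_of_notMem (fun h' => absurd (show p z < 0 from h'.2) (by linarith))]
        simp
    · have hBI : z ∉ B ∩ I := by
        rintro ⟨h1, h2⟩
        refine hc fun i => ?_
        refine Fin.cases ?_ (fun j => ?_) i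
        · exact ⟨h2.1.le, h2.2.le⟩
        · exact ⟨(h1 j).1.le, (h1 j).2.le⟩
      rw [indicator_of_notMem hc, indicator_of_notMem (fun h' => hBI h'.1),
        indicator_of_notMem (fun h' => hBI h'.1)]
      simp
  rw [integral_congr_ae hae]
  have i1 : Integrable (fun z => A1.indicator (1 : (Fin (n + 1) → ℝ) → ℝ) z) volume :=
    (integrable_indicator_iff mA1).2 (integrableOn_const (by simpa using fA1))
  have i2 : Integrable (fun z => A2.indicator (1 : (Fin (n + 1) → ℝ) → ℝ) z) volume :=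
    (integrable_indicator_iff mA2).2 (integrableOn_const (by simpa using fA2))
  rw [integral_sub i1 i2, integral_indicator_one mA1, integral_indicator_one mA2]
  simp only [Measure.real]
  ring

/-- The slab, over the foldings. -/
theorem slab_of {n : ℕ} (hF : ∀ P : MvPolynomial (Fin (n + 1)) ℚ,
      Bornology.IsBounded (WS n P) → V1 (n + 1) (volume (WS n P)).toReal)
    (P : MvPolynomial (Fin (n + 1)) ℚ) (hP : LC P) :
    ∃ a b : ℝ, V1 (n + 1) a ∧ V1 (n + 1) b ∧
      ∫ z in cube (n + 1), sg (MvPolynomial.aeval z P) = a - b := by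
  obtain ⟨a, ha, hl⟩ := hP
  obtain ⟨K, hK, hpos⟩ := far P ha hl
  set D := (MvPolynomial.finSuccEquiv ℚ n P).natDegree with hD
  set Q : MvPolynomial (Fin (n + 1)) ℚ :=
    MvPolynomial.C a * (MvPolynomial.X 0 + 1) ^ D * P with hQ
  have hv : ∀ z : Fin (n + 1) → ℝ, (MvPolynomial.aeval z Q : ℝ) =
      (a : ℝ) * (z 0 + 1) ^ D * MvPolynomial.aeval z P := by
    intro z
    simp [hQ]
  obtain ⟨b1, b2, h⟩ := slab_id Q hK (fun z hz hk => by rw [hv]; exact hpos z hz hk)
  have hs : ∫ z in cube (n + 1), sg (MvPolynomial.aeval z Q) =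
      sg a * ∫ z in cube (n + 1), sg (MvPolynomial.aeval z P) := by
    rw [← integral_const_mul]
    refine setIntegral_congr_fun (cube_meas _) fun z hz => ?_
    rw [hv, sg_mul, sg_mul, sg_pos (pow_pos (by linarith [(hz 0).1]) D), mul_one]
  rw [hs] at h
  have v1 := hF _ b1
  have v2 := hF _ b2
  have ha' : (a : ℝ) ≠ 0 := by exact_mod_cast ha
  rcases lt_or_gt_of_ne ha' with h0 | h0
  · rw [sg_neg h0] at h
    exact ⟨_, _, v2, v1, by linarith⟩
  · rw [sg_pos h0] at h
    exact ⟨_, _, v1, v2, by linarith⟩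

end OI65

end Pool.Agent.WSP
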