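import Pool.Agent.W_2cf66e_h88.LoF
import Pool.Agent.W_2cf66e_h88.Slab65

/-!
# MP_2cf66e_nt, one inequality, leaf O7: the slab (helper65)
-/

set_option autoImplicit false

noncomputable section

open MeasureTheory Set Filter Topology

namespace Pool.Agent.WSP

/-- **Leaf O7.** -/
theorem slab {n : ℕ} (P : MvPolynomial (Fin (n + 1)) ℚ) (hP : LC P) :
    ∃ a b : ℝ, V1 (n + 1) a ∧ V1 (n + 1) b ∧
      ∫ z in cube (n + 1), sg (MvPolynomial.aeval z P) = a - b :=
  OI65.slab_of fold_all P hP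

end Pool.Agent.WSP
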