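import Pool.Agent.W_2cf66e_h88.DefsO
import Mathlib.RingTheory.NoetherNormalization

/-!
# MP_2cf66e_nt, one inequality in the same dimension, leaf O8 (helper78)

The Nagata shear (the private lemmas of Mathlib, copied under new names), and polynomials with
constant leading coefficient in the coordinate `0`.
-/

set_option autoImplicit false

noncomputable section

open MeasureTheory Set Filter Topology

namespace Pool.Agent.WSP

namespace Nag78

open Polynomial MvPolynomial Nat List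

variable {k : Type*} [Field k] {n : ℕ} (f : MvPolynomial (Fin (n + 1)) k)
variable (v w : Fin (n + 1) →₀ ℕ)

/-- The exponents. -/
abbrev ex (f : MvPolynomial (Fin (n + 1)) k) (i : Fin (n + 1)) : ℕ :=
  (2 + f.totalDegree) ^ (i : ℕ)

/-- The shear. -/
abbrev S1 (c : k) : MvPolynomial (Fin (n + 1)) k →ₐ[k] MvPolynomial (Fin (n + 1)) k :=
  MvPolynomial.aeval fun i ↦ if i = 0 then MvPolynomial.X 0 else
    MvPolynomial.X i + c • MvPolynomial.X 0 ^ ex f i

lemma s1_comp (c : k) : (S1 f c).comp (S1 f (-c)) = AlgHom.id _ _ := by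
  rw [comp_aeval, ← MvPolynomial.aeval_X_left]
  ext i v
  cases i using Fin.cases <;> simp

/-- The shear as an equivalence. -/
abbrev SE := AlgEquiv.ofAlgHom (S1 f 1) (S1 f (-1))
  (s1_comp f 1) (by simpa using s1_comp f (-1))

lemma lt_up78 {f : MvPolynomial (Fin (n + 1)) k} {v : Fin (n + 1) →₀ ℕ}
    (vlt : ∀ i, v i < 2 + f.totalDegree) : ∀ l ∈ ofFn v, l < 2 + f.totalDegree := by
  grind

lemma sum_ne (vlt : ∀ i, v i < 2 + f.totalDegree) (wlt : ∀ i, w i < 2 + f.totalDegree)
    (ne : v ≠ w) :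
    ∑ x : Fin (n + 1), ex f x * v x ≠ ∑ x : Fin (n + 1), ex f x * w x := by
  intro h
  refine ne <| Finsupp.ext <| congrFun <| ofFn_inj.mp ?_
  apply ofDigits_inj_of_len_eq (Nat.lt_add_right f.totalDegree one_lt_two)
    (by simp) (lt_up78 vlt) (lt_up78 wlt)
  simpa only [ofDigits_eq_sum_mapIdx, mapIdx_eq_ofFn, get_ofFn, length_ofFn,
    Fin.val_cast, mul_comm, sum_ofFn] using! h

lemma degreeOf_zero_s {a : k} (ha : a ≠ 0) : ((SE f) (monomial v a)).degreeOf 0 =
    ∑ i : Fin (n + 1), (ex f i) * v i := by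
  rw [← natDegree_finSuccEquiv, monomial_eq, Finsupp.prod_pow v fun a ↦ MvPolynomial.X a]
  simp only [Fin.prod_univ_succ, Fin.sum_univ_succ, map_mul, map_prod, map_pow,
    AlgEquiv.ofAlgHom_apply, MvPolynomial.aeval_C, MvPolynomial.aeval_X, if_pos, Fin.succ_ne_zero,
    ite_false, one_smul, map_add, finSuccEquiv_X_zero, finSuccEquiv_X_succ, algebraMap_eq]
  have h (i : Fin n) :
      (Polynomial.C (MvPolynomial.X (R := k) i) + Polynomial.X ^ ex f i.succ) ^ v i.succ ≠ 0 :=
    pow_ne_zero (v i.succ) (leadingCoeff_ne_zero.mp <| by simp [add_comm, leadingCoeff_X_pow_add_C])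
  rw [natDegree_mul (by simp [ha]) (mul_ne_zero (by simp) (Finset.prod_ne_zero_iff.mpr
    (fun i _ ↦ h i))), natDegree_mul (by simp) (Finset.prod_ne_zero_iff.mpr (fun i _ ↦ h i)),
    natDegree_prod _ _ (fun i _ ↦ h i), natDegree_finSuccEquiv, degreeOf_C]
  have h0 : ex f 0 = 1 := by simp [ex]
  have h2 : ∀ i : Fin n, (Polynomial.C (MvPolynomial.X (R := k) i) +
      Polynomial.X ^ ex f i.succ).natDegree = ex f i.succ := fun i => by
    rw [add_comm (Polynomial.C _), natDegree_X_pow_add_C]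
  simp only [natDegree_pow, zero_add, natDegree_X, mul_one, h0, one_mul, add_right_inj, h2]
  exact Finset.sum_congr rfl (fun i _ ↦ mul_comm _ _)

lemma degreeOf_s_ne (hv : v ∈ f.support) (hw : w ∈ f.support) (ne : v ≠ w) :
    (SE f <| monomial v <| coeff v f).degreeOf 0 ≠
    (SE f <| monomial w <| coeff w f).degreeOf 0 := by
  rw [degreeOf_zero_s _ _ <| mem_support_iff.mp hv, degreeOf_zero_s _ _ <| mem_support_iff.mp hw]
  refine sum_ne f v w (fun i ↦ ?_) (fun i ↦ ?_) ne <;>
  exact lt_of_le_of_lt ((monomial_le_degreeOf i ‹_›).trans (degreeOf_le_totalDegree f i))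
    (by lia)

lemma leadingCoeff_s :
    (finSuccEquiv k n ((SE f) ((monomial v) (coeff v f)))).leadingCoeff =
    algebraMap k _ (coeff v f) := by
  rw [monomial_eq, Finsupp.prod_fintype]
  · simp only [map_mul, map_prod, leadingCoeff_mul, leadingCoeff_prod]
    rw [AlgEquiv.ofAlgHom_apply, algHom_C, algebraMap_eq, finSuccEquiv_apply,
      eval₂Hom_C, RingHom.coe_comp]
    simp only [AlgEquiv.ofAlgHom_apply, Function.comp_apply, leadingCoeff_C, map_pow,
      leadingCoeff_pow, algebraMap_eq]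
    have : ∀ j, ((finSuccEquiv k n) ((S1 f) 1 (MvPolynomial.X j))).leadingCoeff = 1 := fun j ↦ by
      by_cases h : j = 0
      · simp [h, finSuccEquiv_apply]
      · simp only [aeval_eq_bind₁, bind₁_X_right, if_neg h, one_smul, map_add, map_pow]
        obtain ⟨i, rfl⟩ := Fin.exists_succ_eq.mpr h
        simp [finSuccEquiv_X_succ, finSuccEquiv_X_zero, add_comm]
    simp only [this, one_pow, Finset.prod_const_one, mul_one]
  exact fun i ↦ pow_zero _

lemma lead_s (fne : f ≠ 0) : ∃ a : k, a ≠ 0 ∧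
    (finSuccEquiv k n (SE f f)).leadingCoeff = MvPolynomial.C a := by
  obtain ⟨v, vin, vs⟩ := Finset.exists_max_image f.support
    (fun v ↦ (SE f ((monomial v) (coeff v f))).degreeOf 0) (support_nonempty.mpr fne)
  set h := fun w ↦ (MvPolynomial.monomial w) (coeff w f)
  simp only [← natDegree_finSuccEquiv] at vs
  replace vs : ∀ x ∈ f.support \ {v}, (finSuccEquiv k n ((SE f) (h x))).degree <
      (finSuccEquiv k n ((SE f) (h v))).degree := by
    intro x hx
    obtain ⟨h1, h2⟩ := Finset.mem_sdiff.mp hx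
    apply degree_lt_degree <| lt_of_le_of_ne (vs x h1) ?_
    simpa only [natDegree_finSuccEquiv]
      using degreeOf_s_ne f _ _ h1 vin <| ne_of_not_mem_cons h2
  have coeff : (finSuccEquiv k n ((SE f) (h v + ∑ x ∈ f.support \ {v}, h x))).leadingCoeff =
      (finSuccEquiv k n ((SE f) (h v))).leadingCoeff := by
    simp only [map_add, map_sum]
    rw [add_comm]
    apply leadingCoeff_add_of_degree_lt <| (lt_of_le_of_lt <| degree_sum_le _ _) ?_
    have h2 : h v ≠ 0 := by simpa [h] using mem_support_iff.mp vin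
    replace h2 : (finSuccEquiv k n ((SE f) (h v))) ≠ 0 := fun eq ↦ h2 <|
      by simpa only [map_eq_zero_iff _ (AlgEquiv.injective _)] using eq
    exact (Finset.sup_lt_iff <| Ne.bot_lt (fun x ↦ h2 <| degree_eq_bot.mp x)).mpr vs
  refine ⟨MvPolynomial.coeff v f, mem_support_iff.mp vin, ?_⟩
  nth_rw 2 [← f.support_sum_monomial_coeff]
  rw [Finset.sum_eq_add_sum_sdiff_singleton_of_mem vin h]
  rw [leadingCoeff_s] at coeff
  rw [coeff, algebraMap_eq]

end Nag78

open Nag78 in
theorem nagata {n : ℕ} (p : MvPolynomial (Fin (n + 1)) ℚ) (hp : p ≠ 0) :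
    ∃ r : Fin n → ℕ, (∀ i, 0 < r i) ∧ LC (MvPolynomial.aeval (Fin.cons (MvPolynomial.X 0)
      (fun i : Fin n => MvPolynomial.X i.succ + MvPolynomial.X 0 ^ r i) :
        Fin (n + 1) → MvPolynomial (Fin (n + 1)) ℚ) p) := by
  refine ⟨fun i => ex p i.succ, fun i => pow_pos (by omega) _, ?_⟩
  obtain ⟨a, h1, h2⟩ := lead_s p hp
  refine ⟨a, h1, ?_⟩
  rw [← h2]
  congr 2
  rw [AlgEquiv.ofAlgHom_apply]
  congr 2
  funext i
  refine Fin.cases ?_ (fun j => ?_) i
  · simp
  · simp

theorem LC.mul {n : ℕ} {P Q : MvPolynomial (Fin (n + 1)) ℚ} (hP : LC P) (hQ : LC Q) :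
    LC (P * Q) := by
  obtain ⟨a, h1, h2⟩ := hP
  obtain ⟨b, h3, h4⟩ := hQ
  exact ⟨a * b, mul_ne_zero h1 h3, by
    rw [map_mul, Polynomial.leadingCoeff_mul, h2, h4, MvPolynomial.C_mul]⟩

theorem LC.prod {n : ℕ} {α : Type} (s : Finset α) (P : α → MvPolynomial (Fin (n + 1)) ℚ)
    (hP : ∀ a, LC (P a)) : LC (∏ a ∈ s, P a) := by
  classical
  induction s using Finset.induction_on with
  | empty => exact ⟨1, one_ne_zero, by simp⟩
  | insert a s ha ih =>
    rw [Finset.prod_insert ha]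
    exact (hP a).mul ih

/-- the wall polynomial has constant leading coefficient -/
theorem LC.wall {n : ℕ} (i : Fin n) (r : ℕ) (hr : 0 < r) :
    LC ((MvPolynomial.X i.succ + MvPolynomial.X 0 ^ r) *
      (1 - MvPolynomial.X i.succ - MvPolynomial.X 0 ^ r) : MvPolynomial (Fin (n + 1)) ℚ) := by
  refine LC.mul ⟨1, one_ne_zero, ?_⟩ ⟨-1, by norm_num, ?_⟩
  · rw [map_add, map_pow, MvPolynomial.finSuccEquiv_X_succ, MvPolynomial.finSuccEquiv_X_zero,
      add_comm, Polynomial.leadingCoeff_X_pow_add_C hr]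
    simp
  · have h : (MvPolynomial.finSuccEquiv ℚ n) (1 - MvPolynomial.X i.succ -
        MvPolynomial.X 0 ^ r : MvPolynomial (Fin (n + 1)) ℚ) =
        - (Polynomial.X ^ r + Polynomial.C (MvPolynomial.X i - 1)) := by
      rw [map_sub, map_sub, map_pow, map_one, MvPolynomial.finSuccEquiv_X_succ,
        MvPolynomial.finSuccEquiv_X_zero, Polynomial.C_sub, Polynomial.C_1]
      ring
    rw [h, Polynomial.leadingCoeff_neg, Polynomial.leadingCoeff_X_pow_add_C hr]
    simp

/-- affine substitution in the coordinates `≥ 1` keeps it -/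
theorem LC.scale {n : ℕ} {P : MvPolynomial (Fin (n + 1)) ℚ} (hP : LC P) :
    LC (MvPolynomial.aeval (Fin.cons (MvPolynomial.X 0)
      (fun i : Fin n => 2 * MvPolynomial.X i.succ - 1) :
        Fin (n + 1) → MvPolynomial (Fin (n + 1)) ℚ) P) := by
  obtain ⟨a, h1, h2⟩ := hP
  set φ : MvPolynomial (Fin n) ℚ →ₐ[ℚ] MvPolynomial (Fin n) ℚ :=
    MvPolynomial.aeval (fun i : Fin n => (2 * MvPolynomial.X i - 1 : MvPolynomial (Fin n) ℚ))
    with hφ
  have key : ((MvPolynomial.finSuccEquiv ℚ n).toAlgHom).comp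
      (MvPolynomial.aeval (Fin.cons (MvPolynomial.X 0)
      (fun i : Fin n => 2 * MvPolynomial.X i.succ - 1) :
        Fin (n + 1) → MvPolynomial (Fin (n + 1)) ℚ)) =
      (Polynomial.mapAlgHom φ).comp ((MvPolynomial.finSuccEquiv ℚ n).toAlgHom) := by
    refine MvPolynomial.algHom_ext fun i => ?_
    refine Fin.cases ?_ (fun j => ?_) i
    · simp [MvPolynomial.finSuccEquiv_X_zero]
    · have h5 : (MvPolynomial.finSuccEquiv ℚ n) 2 = Polynomial.C 2 :=
        (map_ofNat _ 2).trans (map_ofNat Polynomial.C 2).symm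
      simp [MvPolynomial.finSuccEquiv_X_succ, hφ, h5]
  have key2 : (MvPolynomial.finSuccEquiv ℚ n) (MvPolynomial.aeval (Fin.cons (MvPolynomial.X 0)
      (fun i : Fin n => 2 * MvPolynomial.X i.succ - 1) :
        Fin (n + 1) → MvPolynomial (Fin (n + 1)) ℚ) P) =
      ((MvPolynomial.finSuccEquiv ℚ n) P).map (φ : MvPolynomial (Fin n) ℚ →+*
        MvPolynomial (Fin n) ℚ) := by
    have h := DFunLike.congr_fun key P
    simpa using h
  have h3 : φ (MvPolynomial.C a) = MvPolynomial.C a := by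
    rw [hφ, MvPolynomial.aeval_C]
    rfl
  refine ⟨a, h1, ?_⟩
  rw [key2, Polynomial.leadingCoeff_map_of_leadingCoeff_ne_zero, h2]
  · exact h3
  · rw [h2]
    show φ (MvPolynomial.C a) ≠ 0
    rw [h3]
    simpa using h1

end Pool.Agent.WSP
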