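import Pool.Agent.W_2cf66e_h88.LoH

/-!
# MP_2cf66e_nt, one inequality in the same dimension, leaf O9 (helper35): the sheared cube
-/

set_option autoImplicit false

noncomputable section

open MeasureTheory Set Filter Topology

namespace Pool.Agent.WSP

namespace Sh35

/-- The shear. -/
def sh {n : ℕ} (r : Fin n → ℕ) (z : Fin (n + 1) → ℝ) : Fin (n + 1) → ℝ :=
  Fin.cons (z 0) (fun i => z i.succ + z 0 ^ r i)

theorem sh_zero {n : ℕ} (r : Fin n → ℕ) (z : Fin (n + 1) → ℝ) : sh r z 0 = z 0 := rfl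

theorem sh_succ {n : ℕ} (r : Fin n → ℕ) (z : Fin (n + 1) → ℝ) (i : Fin n) :
    sh r z i.succ = z i.succ + z 0 ^ r i := rfl

theorem sh_mp {n : ℕ} (r : Fin n → ℕ) : MeasurePreserving (sh r) volume volume := by
  have he := volume_preserving_piFinSuccAbove (fun _ : Fin (n + 1) => ℝ) 0
  have hs : MeasurePreserving
      (fun q : ℝ × (Fin n → ℝ) => ((q.1, fun i => q.2 i + q.1 ^ r i) : ℝ × (Fin n → ℝ)))
      ((volume : Measure ℝ).prod (volume : Measure (Fin n → ℝ)))
      ((volume : Measure ℝ).prod (volume : Measure (Fin n → ℝ))) := by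
    refine MeasurePreserving.skew_product (f := fun x : ℝ => x)
      (g := fun (x : ℝ) (y : Fin n → ℝ) => fun i => y i + x ^ r i)
      (MeasurePreserving.id volume) ?_ ?_
    · refine measurable_pi_lambda _ fun i => ?_
      exact ((measurable_pi_apply i).comp measurable_snd).add (measurable_fst.pow_const _)
    · exact ae_of_all _ fun x =>
        (measurePreserving_add_right (volume : Measure (Fin n → ℝ)) (fun i => x ^ r i)).map_eq
  have h := (he.symm _).comp (hs.comp he)
  have h2 : sh r = (MeasurableEquiv.piFinSuccAbove (fun _ : Fin (n + 1) => ℝ) 0).symm ∘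
      ((fun q : ℝ × (Fin n → ℝ) => ((q.1, fun i => q.2 i + q.1 ^ r i) : ℝ × (Fin n → ℝ))) ∘
        (MeasurableEquiv.piFinSuccAbove (fun _ : Fin (n + 1) => ℝ) 0)) := by
    funext z
    funext j
    refine Fin.cases ?_ (fun i => ?_) j
    · rfl
    · simp [sh, MeasurableEquiv.piFinSuccAbove, Fin.insertNthEquiv]
      rfl
  rw [h2]
  exact h

/-- The scaling. -/
def sc {n : ℕ} (u : Fin (n + 1) → ℝ) : Fin (n + 1) → ℝ :=
  Fin.cons (u 0) (fun i => 2 * u i.succ - 1)

/-- The integral in the scaled coordinates. -/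
theorem sc_int {n : ℕ} (G : (Fin (n + 1) → ℝ) → ℝ) (hG : Measurable G) :
    ∫ z, G z = 2 ^ n * ∫ u, G (sc u) := by
  obtain ⟨D, hD⟩ : ∃ D : Fin (n + 1) → ℝ, D = Fin.cons 1 (fun _ => 2) := ⟨_, rfl⟩
  obtain ⟨T, hT⟩ : ∃ T : Fin (n + 1) → ℝ, T = Fin.cons 0 (fun _ => -1) := ⟨_, rfl⟩
  have hdet : (Matrix.diagonal D).det = 2 ^ n := by
    rw [Matrix.det_diagonal, hD, Fin.prod_univ_succ]
    simp
  have hne : (Matrix.diagonal D).det ≠ 0 := by
    rw [hdet]
    positivity
  have hvol := Real.smul_map_diagonal_volume_pi hne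
  rw [hdet, abs_of_pos (by positivity : (0 : ℝ) < 2 ^ n)] at hvol
  have h1 : ∫ z, G z = ∫ z, G (z + T) := (integral_add_right_eq_self G T).symm
  rw [h1]
  have hG2 : Measurable fun z => G (z + T) := hG.comp (measurable_id.add_const T)
  have hlin : Measurable (Matrix.toLin' (Matrix.diagonal D)) :=
    (LinearMap.continuous_of_finiteDimensional _).measurable
  have h2 : ∫ z, G (z + T) = ∫ z, G (z + T) ∂(ENNReal.ofReal (2 ^ n) •
      Measure.map (Matrix.toLin' (Matrix.diagonal D)) volume) := by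
    rw [hvol]
  rw [h2, integral_smul_measure, ENNReal.toReal_ofReal (by positivity), smul_eq_mul,
    integral_map hlin.aemeasurable hG2.aestronglyMeasurable]
  congr 1
  refine integral_congr_ae (ae_of_all _ fun u => ?_)
  have : (Matrix.toLin' (Matrix.diagonal D)) u + T = sc u := by
    funext j
    refine Fin.cases ?_ (fun i => ?_) j
    · simp [sc, hD, hT, Matrix.mulVec_diagonal]
    · simp [sc, hD, hT, Matrix.mulVec_diagonal]
      ring
  show G ((Matrix.toLin' (Matrix.diagonal D)) u + T) = G (sc u)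
  rw [this]

theorem contQ {m : ℕ} (f : MvPolynomial (Fin m) ℚ) :
    Continuous (fun u : Fin m → ℝ => (MvPolynomial.aeval u f : ℝ)) := by
  induction f using MvPolynomial.induction_on with
  | C a => simpa using continuous_const
  | add p q hp hq =>
    simp only [map_add]
    exact hp.add hq
  | mul_X p j hp =>
    simp only [map_mul, MvPolynomial.aeval_X]
    exact hp.mul (continuous_apply j)

/-- The box. -/
def bx (n : ℕ) : Set (Fin (n + 1) → ℝ) :=
  {z | (0 ≤ z 0 ∧ z 0 ≤ 1) ∧ ∀ i : Fin n, -1 ≤ z i.succ ∧ z i.succ ≤ 1}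

theorem bx_eq (n : ℕ) : bx n = Set.Icc (Fin.cons 0 (fun _ => -1) : Fin (n + 1) → ℝ)
    (fun _ => (1 : ℝ)) := by
  ext z
  simp only [bx, Set.mem_setOf_eq, Set.mem_Icc, Pi.le_def, Fin.forall_fin_succ, Fin.cons_zero,
    Fin.cons_succ]
  constructor
  · rintro ⟨⟨a, b⟩, c⟩
    exact ⟨⟨a, fun i => (c i).1⟩, ⟨b, fun i => (c i).2⟩⟩
  · rintro ⟨⟨a, b⟩, ⟨c, d⟩⟩
    exact ⟨⟨a, c⟩, fun i => ⟨b i, d i⟩⟩

theorem bx_meas (n : ℕ) : MeasurableSet (bx n) := by
  rw [bx_eq]
  exact measurableSet_Icc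

theorem bx_fin (n : ℕ) : volume (bx n) ≠ ⊤ := by
  rw [bx_eq]
  exact (isCompact_Icc.measure_lt_top).ne

theorem sc_bx {n : ℕ} (u : Fin (n + 1) → ℝ) : sc u ∈ bx n ↔ u ∈ cube (n + 1) := by
  simp only [bx, cube, sc, Set.mem_setOf_eq, Fin.forall_fin_succ, Fin.cons_zero, Fin.cons_succ]
  constructor
  · rintro ⟨a, b⟩
    exact ⟨a, fun i => ⟨by linarith [(b i).1], by linarith [(b i).2]⟩⟩
  · rintro ⟨a, b⟩
    exact ⟨a, fun i => ⟨by linarith [(b i).1], by linarith [(b i).2]⟩⟩

/-- The wall. -/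
def wa {n : ℕ} (r : Fin n → ℕ) (i : Fin n) : MvPolynomial (Fin (n + 1)) ℚ :=
  (MvPolynomial.X i.succ + MvPolynomial.X 0 ^ r i) *
    (1 - MvPolynomial.X i.succ - MvPolynomial.X 0 ^ r i)

theorem wa_aeval {n : ℕ} (r : Fin n → ℕ) (i : Fin n) (z : Fin (n + 1) → ℝ) :
    (MvPolynomial.aeval z (wa r i) : ℝ) = sh r z i.succ * (1 - sh r z i.succ) := by
  simp only [wa, map_mul, map_add, map_sub, map_one, map_pow, MvPolynomial.aeval_X, sh_succ]
  ring

/-- The hyperplanes are null. -/
theorem hyp_null {m : ℕ} (i : Fin m) (c : ℝ) : volume {z : Fin m → ℝ | z i = c} = 0 := by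
  have := Measure.pi_hyperplane (fun _ : Fin m => (volume : Measure ℝ)) i c
  simpa [volume_pi] using this

/-- Outside of the walls. -/
theorem off_walls {n : ℕ} (r : Fin n → ℕ) : ∀ᵐ z : Fin (n + 1) → ℝ, ∀ i : Fin n,
    sh r z i.succ ≠ 0 ∧ sh r z i.succ ≠ 1 := by
  rw [ae_all_iff]
  intro i
  have h : ∀ c : ℝ, ∀ᵐ z : Fin (n + 1) → ℝ, sh r z i.succ ≠ c := by
    intro c
    have h1 : ∀ᵐ u : Fin (n + 1) → ℝ, u i.succ ≠ c := by
      rw [ae_iff]
      simpa using hyp_null i.succ c
    exact (sh_mp r).quasiMeasurePreserving.ae h1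
  filter_upwards [h 0, h 1] with z h0 h1
  exact ⟨h0, h1⟩

/-- The pointwise identity. -/
theorem point {n : ℕ} (r : Fin n → ℕ) (p q : MvPolynomial (Fin (n + 1)) ℚ)
    (hq : ∀ z : Fin (n + 1) → ℝ, (MvPolynomial.aeval z q : ℝ) = MvPolynomial.aeval (sh r z) p)
    (z : Fin (n + 1) → ℝ) (hz : ∀ i : Fin n, sh r z i.succ ≠ 0 ∧ sh r z i.succ ≠ 1) :
    (cube (n + 1)).indicator (fun u => sg (MvPolynomial.aeval u p)) (sh r z) =
      (2 ^ n : ℝ)⁻¹ * ∑ J : Finset (Fin n), (bx n).indicator
        (fun z => sg (MvPolynomial.aeval z ((∏ i ∈ J, wa r i) * q))) z := by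
  classical
  have hsum : ∑ J : Finset (Fin n), (bx n).indicator
        (fun z => sg (MvPolynomial.aeval z ((∏ i ∈ J, wa r i) * q))) z =
      (bx n).indicator (fun z => (∏ i : Fin n, (1 + sg (MvPolynomial.aeval z (wa r i)))) *
        sg (MvPolynomial.aeval z q)) z := by
    by_cases hb : z ∈ bx n
    · simp only [Set.indicator_of_mem hb]
      rw [Finset.prod_one_add, Finset.sum_mul]
      rw [Finset.powerset_univ]
      refine Finset.sum_congr rfl fun J _ => ?_
      rw [map_mul, sg_mul, map_prod]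
      congr 1
      induction J using Finset.induction_on with
      | empty => simp [sg_one]
      | insert a s ha ih =>
        rw [Finset.prod_insert ha, Finset.prod_insert ha, sg_mul, ih (Finset.mem_univ _)]
    · simp only [Set.indicator_of_notMem hb, Finset.sum_const_zero]
  rw [hsum]
  by_cases hall : ∀ i : Fin n, 0 < sh r z i.succ ∧ sh r z i.succ < 1
  · have hp : ∏ i : Fin n, (1 + sg (MvPolynomial.aeval z (wa r i))) = 2 ^ n := by
      have : ∀ i : Fin n, (1 + sg (MvPolynomial.aeval z (wa r i))) = 2 := by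
        intro i
        rw [wa_aeval, sg_pos (mul_pos (hall i).1 (by linarith [(hall i).2]))]
        norm_num
      rw [Finset.prod_congr rfl fun i _ => this i]
      simp
    have hiff : sh r z ∈ cube (n + 1) ↔ z ∈ bx n := by
      constructor
      · intro h
        have h0 := h 0
        rw [sh_zero] at h0
        refine ⟨h0, fun i => ?_⟩
        have h1 := hall i
        rw [sh_succ] at h1
        have h2 : 0 ≤ z 0 ^ r i := pow_nonneg h0.1 _
        have h3 : z 0 ^ r i ≤ 1 := pow_le_one₀ h0.1 h0.2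
        exact ⟨by linarith [h1.1], by linarith [h1.2]⟩
      · rintro ⟨h0, _⟩
        intro j
        refine Fin.cases ?_ (fun i => ?_) j
        · exact h0
        · exact ⟨(hall i).1.le, (hall i).2.le⟩
    by_cases hb : z ∈ bx n
    · rw [Set.indicator_of_mem hb, Set.indicator_of_mem (hiff.2 hb), hp, hq]
      have : (2 : ℝ) ^ n ≠ 0 := by positivity
      field_simp
    · rw [Set.indicator_of_notMem hb, Set.indicator_of_notMem (fun h => hb (hiff.1 h))]
      ring
  · push Not at hall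
    obtain ⟨i, hi⟩ := hall
    have hw : (MvPolynomial.aeval z (wa r i) : ℝ) < 0 := by
      rw [wa_aeval]
      rcases lt_or_gt_of_ne (hz i).1 with h | h
      · exact mul_neg_of_neg_of_pos h (by linarith)
      · have h2 : 1 < sh r z i.succ := lt_of_le_of_ne (hi h) (hz i).2.symm
        exact mul_neg_of_pos_of_neg h (by linarith)
    have hp : ∏ i : Fin n, (1 + sg (MvPolynomial.aeval z (wa r i))) = 0 := by
      refine Finset.prod_eq_zero (Finset.mem_univ i) ?_
      rw [sg_neg hw]
      ring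
    have hnot : sh r z ∉ cube (n + 1) := by
      intro h
      have h1 := h i.succ
      rw [wa_aeval] at hw
      have : 0 ≤ sh r z i.succ * (1 - sh r z i.succ) :=
        mul_nonneg h1.1 (by linarith [h1.2])
      linarith
    rw [Set.indicator_of_notMem hnot]
    by_cases hb : z ∈ bx n
    · rw [Set.indicator_of_mem hb, hp]
      ring
    · rw [Set.indicator_of_notMem hb]
      ring

end Sh35

open Sh35 in
theorem shear {n : ℕ} (p : MvPolynomial (Fin (n + 1)) ℚ) :
    ∃ (k : ℕ) (c : Fin k → ℚ) (P : Fin k → MvPolynomial (Fin (n + 1)) ℚ), (∀ i, LC (P i)) ∧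
      ∫ z in cube (n + 1), sg (MvPolynomial.aeval z p) =
        ∑ i, (c i : ℝ) * ∫ z in cube (n + 1), sg (MvPolynomial.aeval z (P i)) := by
  classical
  by_cases hp : p = 0
  · refine ⟨0, Fin.elim0, Fin.elim0, fun i => i.elim0, ?_⟩
    simp [hp, sg_zero]
  obtain ⟨r, hr, hLC⟩ := nagata p hp
  obtain ⟨q, hqd⟩ : ∃ q : MvPolynomial (Fin (n + 1)) ℚ, q =
      MvPolynomial.aeval (Fin.cons (MvPolynomial.X 0)
        (fun i : Fin n => MvPolynomial.X i.succ + MvPolynomial.X 0 ^ r i) :
        Fin (n + 1) → MvPolynomial (Fin (n + 1)) ℚ) p := ⟨_, rfl⟩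
  rw [← hqd] at hLC
  have hq : ∀ z : Fin (n + 1) → ℝ,
      (MvPolynomial.aeval z q : ℝ) = MvPolynomial.aeval (sh r z) p := by
    intro z
    rw [hqd, ← AlgHom.comp_apply]
    congr 1
    refine MvPolynomial.algHom_ext fun j => ?_
    rw [AlgHom.comp_apply, MvPolynomial.aeval_X, MvPolynomial.aeval_X]
    refine Fin.cases ?_ (fun i => ?_) j
    · simp [sh_zero]
    · simp [sh_succ]
  obtain ⟨Q, hQ⟩ : ∃ Q : Finset (Fin n) → MvPolynomial (Fin (n + 1)) ℚ,
      Q = fun J => (∏ i ∈ J, wa r i) * q := ⟨_, rfl⟩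
  obtain ⟨R, hR⟩ : ∃ R : Finset (Fin n) → MvPolynomial (Fin (n + 1)) ℚ,
      R = fun J => MvPolynomial.aeval (Fin.cons (MvPolynomial.X 0)
      (fun i : Fin n => 2 * MvPolynomial.X i.succ - 1) :
        Fin (n + 1) → MvPolynomial (Fin (n + 1)) ℚ) (Q J) := ⟨_, rfl⟩
  have hQLC : ∀ J, LC (Q J) := by
    intro J
    rw [hQ]
    exact LC.mul (LC.prod J _ fun i => LC.wall i (r i) (hr i)) hLC
  have hRLC : ∀ J, LC (R J) := by
    intro J
    rw [hR]
    exact LC.scale (hQLC J)
  have hRQ : ∀ J (u : Fin (n + 1) → ℝ),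
      (MvPolynomial.aeval u (R J) : ℝ) = MvPolynomial.aeval (sc u) (Q J) := by
    intro J u
    rw [hR]
    show (MvPolynomial.aeval u (MvPolynomial.aeval _ (Q J)) : ℝ) = _
    rw [← AlgHom.comp_apply]
    congr 1
    refine MvPolynomial.algHom_ext fun j => ?_
    rw [AlgHom.comp_apply, MvPolynomial.aeval_X, MvPolynomial.aeval_X]
    refine Fin.cases ?_ (fun i => ?_) j
    · simp [sc]
    · simp [sc]
  have hsgm : ∀ f : MvPolynomial (Fin (n + 1)) ℚ,
      Measurable fun z : Fin (n + 1) → ℝ => sg (MvPolynomial.aeval z f) := by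
    intro f
    exact sg_meas.comp (contQ f).measurable
  have hsum : ∫ z in cube (n + 1), sg (MvPolynomial.aeval z p) =
      ∑ J : Finset (Fin n), ∫ z in cube (n + 1), sg (MvPolynomial.aeval z (R J)) := by
    have hmeas : Measurable ((cube (n + 1)).indicator
        (fun u : Fin (n + 1) → ℝ => sg (MvPolynomial.aeval u p))) :=
      (hsgm p).indicator (cube_meas _)
    have h1 : ∫ z in cube (n + 1), sg (MvPolynomial.aeval z p) =
        ∫ z, (cube (n + 1)).indicator
          (fun u : Fin (n + 1) → ℝ => sg (MvPolynomial.aeval u p)) (sh r z) := by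
      rw [← integral_indicator (cube_meas _)]
      conv_lhs => rw [← (sh_mp r).map_eq]
      rw [integral_map (sh_mp r).measurable.aemeasurable hmeas.aestronglyMeasurable]
    have h2 : ∫ z, (cube (n + 1)).indicator
          (fun u : Fin (n + 1) → ℝ => sg (MvPolynomial.aeval u p)) (sh r z) =
        ∫ z, (2 ^ n : ℝ)⁻¹ * ∑ J : Finset (Fin n), (bx n).indicator
          (fun z => sg (MvPolynomial.aeval z (Q J))) z := by
      refine integral_congr_ae ?_
      filter_upwards [off_walls r] with z hz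
      rw [point r p q hq z hz, hQ]
    have h3 : ∀ J : Finset (Fin n), Integrable ((bx n).indicator
        (fun z : Fin (n + 1) → ℝ => sg (MvPolynomial.aeval z (Q J)))) := by
      intro J
      rw [integrable_indicator_iff (bx_meas n)]
      exact Measure.integrableOn_of_bounded (bx_fin n) (hsgm _).aestronglyMeasurable
        (M := 1) (Eventually.of_forall fun u => sg_abs _)
    rw [h1, h2, integral_const_mul, integral_finset_sum _ fun J _ => h3 J, Finset.mul_sum]
    refine Finset.sum_congr rfl fun J _ => ?_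
    rw [sc_int _ ((hsgm _).indicator (bx_meas n)), ← integral_indicator (cube_meas _)]
    rw [← mul_assoc, inv_mul_cancel₀ (by positivity), one_mul]
    refine integral_congr_ae (ae_of_all _ fun u => ?_)
    show (bx n).indicator (fun z => sg (MvPolynomial.aeval z (Q J))) (sc u) =
      (cube (n + 1)).indicator (fun u => sg (MvPolynomial.aeval u (R J))) u
    by_cases hu : u ∈ cube (n + 1)
    · rw [Set.indicator_of_mem hu, Set.indicator_of_mem ((sc_bx u).2 hu), hRQ]
    · rw [Set.indicator_of_notMem hu, Set.indicator_of_notMem fun h => hu ((sc_bx u).1 h)]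
  refine ⟨Fintype.card (Finset (Fin n)), fun _ => 1,
    fun k => R ((Fintype.equivFin (Finset (Fin n))).symm k), fun k => hRLC _, ?_⟩
  rw [hsum]
  simp only [Rat.cast_one, one_mul]
  exact ((Fintype.equivFin (Finset (Fin n))).symm.sum_comp
    (fun J => ∫ z in cube (n + 1), sg (MvPolynomial.aeval z (R J)))).symm

end Pool.Agent.WSP
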