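import Pool.Agent.W_2cf66e_h88.LoB
import Pool.Agent.W_2cf66e_h88.LoF
import Pool.Agent.W_2cf66e_h23.LuB1

/-!
# MP_2cf66e_nt, one inequality in the same dimension: leaf O10, complement and one pass (helper12)
-/

set_option autoImplicit false
noncomputable section
open MeasureTheory Set Filter Topology

namespace Pool.Agent.WSP

open BoxIntegral BoxIntegral.unitPartition in
/-- Small grid cubes inside an open set, of nearly full volume. -/
theorem grid12 {k : ℕ} {O : Set (Fin k → ℝ)} (hO : IsOpen O) (hfin : volume O ≠ ⊤)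
    (c : ENNReal) (h : c < volume O) : ∃ (m : ℕ) (F : Finset (Fin k → ℤ)),
      (∀ ν ∈ F, ∀ y : Fin k → ℝ, (∀ i, (ν i : ℝ) / (m + 1 : ℕ) < y i ∧
        y i < ((ν i : ℝ) + 1) / (m + 1 : ℕ)) → y ∈ O) ∧
      c < F.card * (1 / ((m + 1 : ℕ) : ENNReal) ^ k) := by
  classical
  obtain ⟨K, hKO, hK, hKv⟩ := hO.exists_lt_isCompact h
  obtain ⟨δ, hδ, hδO⟩ := hK.exists_thickening_subset_open hO hKO
  obtain ⟨m, hm⟩ := exists_nat_one_div_lt hδ
  set n : ℕ := m + 1 with hn
  have hn0 : (0 : ℝ) < n := by rw [hn]; positivity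
  have hnδ : 1 / (n : ℝ) < δ := by rw [hn]; push_cast; exact hm
  set A : Set (Fin k → ℤ) := {ν | ((box n ν : Set (Fin k → ℝ)) ∩ K).Nonempty} with hA
  have hAO : ∀ ν ∈ A, (box n ν : Set (Fin k → ℝ)) ⊆ O := by
    rintro ν ⟨x, hx, hxK⟩ y hy
    refine hδO (Metric.mem_thickening_iff.2 ⟨x, hxK, ?_⟩)
    rw [BoxIntegral.Box.mem_coe, mem_box_iff] at hx hy
    refine lt_of_le_of_lt ((dist_pi_le_iff (by positivity)).2 fun i => ?_) hnδ
    rw [Real.dist_eq, abs_le]
    have h1 := hx i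
    have h2 := hy i
    have h3 : ((ν i : ℝ) + 1) / n = ν i / n + 1 / n := by rw [add_div]
    rw [h3] at h1 h2
    constructor <;> linarith [h1.1, h1.2, h2.1, h2.2]
  have hAfin : A.Finite :=
    (setFinite_index n hO.measurableSet.nullMeasurableSet hfin).subset fun ν hν => hAO ν hν
  refine ⟨m, hAfin.toFinset, ?_, ?_⟩
  · intro ν hν y hy
    rw [Set.Finite.mem_toFinset] at hν
    refine hAO ν hν ?_
    rw [BoxIntegral.Box.mem_coe, mem_box_iff]
    exact fun i => ⟨(hy i).1, (hy i).2.le⟩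
  · have hKF : K ⊆ ⋃ ν ∈ hAfin.toFinset, (box n ν : Set (Fin k → ℝ)) := by
      intro x hx
      have h1 : x ∈ box n (index n x) := mem_box_iff_index.2 rfl
      rw [Set.mem_iUnion₂]
      refine ⟨index n x, ?_, h1⟩
      rw [Set.Finite.mem_toFinset]
      exact ⟨x, h1, hx⟩
    have hvb : ∀ ν : Fin k → ℤ, volume (box n ν : Set (Fin k → ℝ)) = 1 / (n : ENNReal) ^ k := by
      intro ν
      rw [BoxIntegral.unitPartition.volume_box, Fintype.card_fin]
    have h1 : c < ∑ _ν ∈ hAfin.toFinset, 1 / (n : ENNReal) ^ k := by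
      refine hKv.trans_le ((measure_mono hKF).trans ((measure_biUnion_finset_le _ _).trans ?_))
      exact le_of_eq (Finset.sum_congr rfl fun ν _ => hvb ν)
    rwa [Finset.sum_const, nsmul_eq_mul] at h1

/-- Finite disjoint unions of positivity sets. -/
theorem union12 {m : ℕ} {ι : Type} [DecidableEq ι] (p : ι → MvPolynomial (Fin m) ℚ)
    (hp : ∀ i, p i ≠ 0) (hb : ∀ i, Bornology.IsBounded (PS (p i)))
    (hd : ∀ i j, i ≠ j → Disjoint (PS (p i)) (PS (p j))) (F : Finset ι) :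
    ∃ g : MvPolynomial (Fin m) ℚ, g ≠ 0 ∧ Bornology.IsBounded (PS g) ∧
      PS g =ᵐ[volume] (⋃ i ∈ F, PS (p i) : Set (Fin m → ℝ)) ∧
      volume (PS g) = ∑ i ∈ F, volume (PS (p i)) := by
  induction F using Finset.induction_on with
  | empty =>
    have h0 : PS (-1 : MvPolynomial (Fin m) ℚ) = ∅ := by
      ext z
      simp only [PS, map_neg, map_one, mem_empty_iff_false, iff_false]
      intro h
      change (0 : ℝ) < -1 at h
      linarith
    refine ⟨-1, by simp, ?_, ?_, ?_⟩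
    · rw [h0]; exact Bornology.isBounded_empty
    · rw [h0]; simp
    · rw [h0]; simp
  | insert a F ha ih =>
    obtain ⟨g, hg, hgb, hgu, hgv⟩ := ih
    have h0 : volume (PS (p a) ∩ PS g) = 0 := by
      have h1 : (PS (p a) ∩ PS g : Set (Fin m → ℝ)) =ᵐ[volume]
          (PS (p a) ∩ ⋃ i ∈ F, PS (p i) : Set (Fin m → ℝ)) := (ae_eq_refl _).inter hgu
      rw [measure_congr h1]
      have h2 : (PS (p a) ∩ ⋃ i ∈ F, PS (p i) : Set (Fin m → ℝ)) = ∅ := by
        rw [← Set.disjoint_iff_inter_eq_empty, Set.disjoint_iUnion₂_right]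
        intro i hi
        exact hd a i (fun h => ha (h ▸ hi))
      rw [h2]
      simp
    obtain ⟨h3, h4⟩ := xor_disj (hp a) hg h0
    refine ⟨-(p a * g), neg_ne_zero.2 (mul_ne_zero (hp a) hg), xor_bdd (hb a) hgb, ?_, ?_⟩
    · rw [Finset.set_biUnion_insert]
      exact h3.trans ((ae_eq_refl _).union hgu)
    · rw [h4, hgv, Finset.sum_insert ha]

theorem V1.compl {n : ℕ} {b : ℝ} (hb : V1 (n + 1) b) : ∃ N : ℕ, V1 (n + 1) ((N : ℝ) - b) := by
  obtain ⟨g, hg, hgb, rfl⟩ := hb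
  obtain ⟨f, hf, hfb, hf1⟩ := V1.one n
  -- a point inside
  have hne : (PS f).Nonempty := by
    by_contra h
    rw [Set.not_nonempty_iff_eq_empty] at h
    rw [h] at hf1
    simp at hf1
  obtain ⟨x, hx⟩ := hne
  obtain ⟨δ, hδ, hδf⟩ := Metric.isOpen_iff.1 (PS.isOpen f) x hx
  -- a rational point near `x`
  have hq : ∀ i, ∃ q : ℚ, |(q : ℝ) - x i| < δ / 2 := by
    intro i
    obtain ⟨q, h1, h2⟩ := exists_rat_btwn (show x i - δ / 2 < x i + δ / 2 by linarith)
    exact ⟨q, by rw [abs_lt]; constructor <;> linarith⟩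
  choose q hq using hq
  obtain ⟨R, hR⟩ := exists_cub83 hgb
  obtain ⟨L, hL⟩ := exists_nat_gt (R * (2 / δ))
  have hL0 : (0 : ℝ) < L := lt_of_le_of_lt (by positivity) hL
  obtain ⟨e, he, hez, hev, heb⟩ := aff f hf (fun i => -((L : ℚ) * q i)) (fun _ => (L : ℚ))
    (fun _ => by exact_mod_cast hL0)
  have hsub : PS g ⊆ PS e := by
    intro z hz
    rw [hez]
    refine hδf ?_
    rw [Metric.mem_ball, dist_pi_lt_iff hδ]
    intro i
    have h1 := hR hz i
    have h2 := hq i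
    have h3 : (z i - ((-((L : ℚ) * q i) : ℚ) : ℝ)) / ((L : ℚ) : ℝ) = q i + z i / L := by
      push_cast
      field_simp
      ring
    rw [h3, Real.dist_eq]
    have h4 : |z i / L| < δ / 2 := by
      rw [abs_div, abs_of_pos hL0, div_lt_iff₀ hL0]
      have h5 : |z i| < R := abs_lt.2 h1
      have h6 : (R : ℝ) * (2 / δ) * (δ / 2) = R := by field_simp
      have h7 : (R : ℝ) * (2 / δ) * (δ / 2) < L * (δ / 2) :=
        mul_lt_mul_of_pos_right hL (by positivity)
      linarith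
    have h8 : (q i : ℝ) + z i / L - x i = (q i - x i) + z i / L := by ring
    rw [h8]
    calc |((q i : ℝ) - x i) + z i / L| ≤ |(q i : ℝ) - x i| + |z i / L| := abs_add_le _ _
      _ < δ := by linarith
  have h9 := V1.diff he hg (heb hfb) hgb (by rw [Set.sdiff_eq_empty.2 hsub]; simp)
  refine ⟨L ^ (n + 1), ?_⟩
  have h10 : (volume (PS e)).toReal = ((L ^ (n + 1) : ℕ) : ℝ) := by
    rw [hev, ENNReal.toReal_mul, hf1, mul_one, ENNReal.toReal_ofReal (by positivity)]
    simp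
  rwa [h10] at h9


theorem one_pass (n : ℕ) : ∃ κ : ℚ, 0 < κ ∧ κ < 1 ∧ ∀ (v : ℝ) (N : ℚ), V1 (n + 1) v → 0 ≤ N →
    (N : ℝ) < κ * v → V1 (n + 1) (v - N) := by
  classical
  obtain ⟨f, hf, hfb, hf1⟩ := V1.one n
  obtain ⟨R₀, hR₀⟩ := exists_cub83 hfb
  set R : ℕ := R₀ + 1 with hRdef
  have hR1 : (1 : ℝ) ≤ R := by rw [hRdef]; push_cast; linarith [(Nat.cast_nonneg R₀ : (0 : ℝ) ≤ R₀)]
  have hR1q : (1 : ℚ) ≤ R := by exact_mod_cast hR1
  have hR : ∀ x ∈ PS f, ∀ i, |x i| < R := by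
    intro x hx i
    have h1 := hR₀ hx i
    have h2 : |x i| < R₀ := abs_lt.2 h1
    rw [hRdef]; push_cast; linarith
  have hfv : volume (PS f) = 1 := (ENNReal.toReal_eq_one_iff _).1 hf1
  have h2R : (2 : ℚ) ≤ 2 * R := by linarith
  refine ⟨1 / (2 * R) ^ (n + 1), by positivity, ?_, ?_⟩
  · rw [div_lt_one (by positivity)]
    calc (1 : ℚ) < 2 := by norm_num
      _ ≤ 2 * R := h2R
      _ = (2 * R : ℚ) ^ 1 := (pow_one _).symm
      _ ≤ (2 * R : ℚ) ^ (n + 1) := pow_le_pow_right₀ (by linarith) (by omega)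
  rintro v N ⟨g, hg, hgb, rfl⟩ hN0 hN
  rcases hN0.eq_or_lt with rfl | hN0
  · exact ⟨g, hg, hgb, by simp⟩
  have hN0r : (0 : ℝ) < N := by exact_mod_cast hN0
  have hgfin : volume (PS g) ≠ ⊤ := hgb.measure_lt_top.ne
  have hN1 : (N : ℝ) * (2 * R) ^ (n + 1) < (volume (PS g)).toReal := by
    push_cast at hN
    rw [one_div, ← div_eq_inv_mul, lt_div_iff₀ (by positivity)] at hN
    exact hN
  obtain ⟨m, F, hF, hFc⟩ := grid12 (PS.isOpen g) hgfin
    (ENNReal.ofReal ((N : ℝ) * (2 * R) ^ (n + 1))) (by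
      rw [← ENNReal.ofReal_toReal hgfin]
      exact (ENNReal.ofReal_lt_ofReal_iff_of_nonneg (by positivity)).2 hN1)
  set M : ℕ := m + 1 with hM
  have hM0 : (0 : ℝ) < M := by rw [hM]; positivity
  have hM0q : (0 : ℚ) < M := by exact_mod_cast hM0
  have hcard : (N : ℝ) * (2 * R) ^ (n + 1) < (F.card : ℝ) / (M : ℝ) ^ (n + 1) := by
    have e : (F.card : ENNReal) * (1 / (M : ENNReal) ^ (n + 1)) =
        ENNReal.ofReal ((F.card : ℝ) / (M : ℝ) ^ (n + 1)) := by
      rw [ENNReal.ofReal_div_of_pos (by positivity), ENNReal.ofReal_pow hM0.le,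
        ENNReal.ofReal_natCast, ENNReal.ofReal_natCast, mul_one_div]
    rw [e] at hFc
    exact (ENNReal.ofReal_lt_ofReal_iff_of_nonneg (by positivity)).1 hFc
  have hcard0 : 0 < F.card := by
    rcases Nat.eq_zero_or_pos F.card with h | h
    · rw [h] at hcard
      simp only [Nat.cast_zero, zero_div] at hcard
      have : 0 < (N : ℝ) * (2 * R) ^ (n + 1) := by positivity
      linarith
    · exact h
  have hcr : (0 : ℝ) < F.card := by exact_mod_cast hcard0
  have hcq : (0 : ℚ) < F.card := by exact_mod_cast hcard0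
  -- the factor of the first coordinate
  set θ : ℚ := N * (2 * R * M) ^ (n + 1) / F.card with hθ
  have hθ0 : 0 < θ := by rw [hθ]; positivity
  have hθ1 : (θ : ℝ) ≤ 1 := by
    rw [hθ]
    push_cast
    rw [div_le_one hcr]
    rw [lt_div_iff₀ (by positivity)] at hcard
    have : (N : ℝ) * (2 * R * M) ^ (n + 1) = N * (2 * R) ^ (n + 1) * M ^ (n + 1) := by
      rw [mul_pow (2 * (R : ℝ)) (M : ℝ)]; ring
    rw [this]
    exact hcard.le
  set h : ℚ := 1 / (2 * R * M) with hh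
  have hh0 : 0 < h := by rw [hh]; positivity
  have hhr : (h : ℝ) = 1 / (2 * R * M) := by rw [hh]; push_cast; rfl
  set a : Fin (n + 1) → ℚ := Fin.cons (θ * h) (fun _ => h) with ha
  have ha0 : ∀ i, 0 < a i := by
    intro i
    refine Fin.cases ?_ (fun j => ?_) i
    · simp only [ha, Fin.cons_zero]; positivity
    · simp only [ha, Fin.cons_succ]; exact hh0
  have hah : ∀ i, (a i : ℝ) ≤ h := by
    intro i
    have hh0r : (0 : ℝ) < h := by exact_mod_cast hh0
    refine Fin.cases ?_ (fun j => ?_) i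
    · simp only [ha, Fin.cons_zero]
      push_cast
      nlinarith
    · simp only [ha, Fin.cons_succ]; exact le_refl _
  have hap : (∏ i, (a i : ℝ)) = θ * (h : ℝ) ^ (n + 1) := by
    rw [Fin.prod_univ_succ]
    simp only [ha, Fin.cons_zero, Fin.cons_succ, Finset.prod_const, Finset.card_univ,
      Fintype.card_fin]
    push_cast
    ring
  choose p hp0 hpz hpv hpb using fun ν : Fin (n + 1) → ℤ =>
    aff f hf (fun i => ((ν i : ℚ) + 1 / 2) / M) a ha0
  -- the copies are inside the cubes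
  have hin : ∀ ν : Fin (n + 1) → ℤ, ∀ z ∈ PS (p ν), ∀ i, (ν i : ℝ) / M < z i ∧
      z i < ((ν i : ℝ) + 1) / M := by
    intro ν z hz i
    rw [hpz] at hz
    have h1 := hR _ hz i
    have ha0r : (0 : ℝ) < a i := by exact_mod_cast ha0 i
    rw [abs_div, abs_of_pos ha0r, div_lt_iff₀ ha0r] at h1
    have h2 : (R : ℝ) * a i ≤ 1 / (2 * M) := by
      calc (R : ℝ) * a i ≤ R * h := mul_le_mul_of_nonneg_left (hah i) (by positivity)
        _ = 1 / (2 * M) := by rw [hhr]; field_simp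
    have h3 := abs_lt.1 (lt_of_lt_of_le h1 h2)
    push_cast at h3
    have h4 : ((ν i : ℝ) + 1 / 2) / M = ν i / M + 1 / (2 * M) := by field_simp
    have h5 : ((ν i : ℝ) + 1) / M = ν i / M + 1 / (2 * M) + 1 / (2 * M) := by field_simp; ring
    rw [h4] at h3
    rw [h5]
    constructor <;> linarith [h3.1, h3.2]
  have hdis : ∀ ν ν' : Fin (n + 1) → ℤ, ν ≠ ν' → Disjoint (PS (p ν)) (PS (p ν')) := by
    intro ν ν' hne
    rw [Set.disjoint_left]
    intro z hz hz'
    refine hne (funext fun i => ?_)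
    have h1 := hin ν z hz i
    have h2 := hin ν' z hz' i
    rw [div_lt_iff₀ hM0, lt_div_iff₀ hM0] at h1 h2
    have h3 : (ν i : ℝ) < ν' i + 1 := by linarith [h1.1, h2.2]
    have h4 : (ν' i : ℝ) < ν i + 1 := by linarith [h1.2, h2.1]
    have h5 : ν i < ν' i + 1 := by exact_mod_cast h3
    have h6 : ν' i < ν i + 1 := by exact_mod_cast h4
    omega
  obtain ⟨G, hG, hGb, hGu, hGv⟩ := union12 p hp0 (fun ν => hpb ν hfb) hdis F
  have hGd : volume (PS G \ PS g) = 0 := by
    have h1 : (PS G \ PS g : Set (Fin (n + 1) → ℝ)) =ᵐ[volume]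
        ((⋃ ν ∈ F, PS (p ν)) \ PS g : Set (Fin (n + 1) → ℝ)) := hGu.diff (ae_eq_refl _)
    rw [measure_congr h1]
    have h2 : ((⋃ ν ∈ F, PS (p ν)) \ PS g : Set (Fin (n + 1) → ℝ)) = ∅ := by
      rw [Set.sdiff_eq_empty]
      refine Set.iUnion₂_subset fun ν hν => ?_
      intro z hz
      exact hF ν hν z (hin ν z hz)
    rw [h2]
    simp
  have h9 := V1.diff hg hG hgb hGb hGd
  have h10 : (volume (PS G)).toReal = N := by
    rw [hGv, Finset.sum_congr rfl fun ν _ => hpv ν, Finset.sum_const, hfv, mul_one, nsmul_eq_mul,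
      ENNReal.toReal_mul, ENNReal.toReal_natCast, ENNReal.toReal_ofReal (by
        refine Finset.prod_nonneg fun i _ => ?_
        exact_mod_cast (ha0 i).le), hap, hhr, hθ]
    push_cast
    have h11 : (2 * (R : ℝ) * M) ≠ 0 := by positivity
    have h12 : (2 * (R : ℝ) * M) ^ (n + 1) * (1 / (2 * (R : ℝ) * M)) ^ (n + 1) = 1 := by
      rw [← mul_pow, mul_one_div, div_self h11, one_pow]
    field_simp
    exact h12
  rwa [h10] at h9

end Pool.Agent.WSP
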