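import Pool.Agent.W_2cf66e_h88.LoJ

/-!
# MP_2cf66e_nt, one inequality in the same dimension: leaf O11, all passes (helper59)
-/

set_option autoImplicit false

noncomputable section

open MeasureTheory Set Filter Topology

namespace Pool.Agent.WSP

theorem V1.subN {n : ℕ} {v : ℝ} (hv : V1 (n + 1) v) (N : ℚ) (h0 : 0 ≤ N) (h : (N : ℝ) < v) :
    V1 (n + 1) (v - N) := by
  obtain ⟨κ, hκ0, hκ1, H⟩ := one_pass n
  have hd : 0 < v - N := by linarith
  have hκ0' : (0 : ℝ) < (κ : ℝ) := by exact_mod_cast hκ0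
  obtain ⟨s, hs0, hs⟩ := exists_rat_btwn (show (0 : ℝ) < κ * (v - N) from mul_pos hκ0' hd)
  have hs0' : (0 : ℚ) < s := by exact_mod_cast hs0
  have key : ∀ k : ℕ, ∀ w : ℝ, V1 (n + 1) w → v - N ≤ w - k * s →
      V1 (n + 1) (w - k * s) := by
    intro k
    induction k with
    | zero => intro w hw _; simpa using hw
    | succ k ih =>
      intro w hw hle
      have e1 : w - ((k + 1 : ℕ) : ℝ) * s = (w - k * s) - s := by push_cast; ring
      rw [e1] at hle ⊢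
      have h1 := ih w hw (by linarith)
      refine H _ s h1 hs0'.le (lt_of_lt_of_le hs ?_)
      exact mul_le_mul_of_nonneg_left (by linarith) hκ0'.le
  have hfl : ((⌊N / s⌋₊ : ℕ) : ℚ) * s ≤ N := by
    have := Nat.floor_le (show (0 : ℚ) ≤ N / s by positivity)
    rwa [le_div_iff₀ hs0'] at this
  have hfl2 : N < ((⌊N / s⌋₊ : ℕ) : ℚ) * s + s := by
    have := Nat.lt_floor_add_one (N / s)
    rw [div_lt_iff₀ hs0'] at this
    linarith
  have hfl' : ((⌊N / s⌋₊ : ℕ) : ℝ) * s ≤ N := by exact_mod_cast hfl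
  have hfl2' : (N : ℝ) < ((⌊N / s⌋₊ : ℕ) : ℝ) * s + s := by exact_mod_cast hfl2
  have h1 := key ⌊N / s⌋₊ v hv (by linarith)
  have h2 := H _ (N - ((⌊N / s⌋₊ : ℕ) : ℚ) * s) h1 (by linarith) (by
    push_cast
    calc (N : ℝ) - ((⌊N / s⌋₊ : ℕ) : ℝ) * s < s := by linarith
      _ < κ * (v - N) := hs
      _ ≤ κ * (v - ((⌊N / s⌋₊ : ℕ) : ℝ) * s) :=
        mul_le_mul_of_nonneg_left (by linarith) hκ0'.le)
  have e2 : v - ((⌊N / s⌋₊ : ℕ) : ℝ) * s - ((N - ((⌊N / s⌋₊ : ℕ) : ℚ) * s : ℚ) : ℝ) =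
      v - N := by push_cast; ring
  rwa [e2] at h2

end Pool.Agent.WSP
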