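import Pool.Agent.W_2cf66e_h88.LoJ

/-!
# MP_2cf66e_nt, packing, leaf P1: one pass (helper88; the proof of helper12's one_pass with a general
set and a general open set)
-/

set_option autoImplicit false

noncomputable section

open MeasureTheory Set Filter Topology

namespace Pool.Agent.WSP

theorem PS_neg_one88 {m : ℕ} : PS (-1 : MvPolynomial (Fin m) ℚ) = ∅ := by
  ext z
  simp only [PS, map_neg, map_one, mem_empty_iff_false, iff_false]
  intro h
  change (0 : ℝ) < -1 at h
  linarith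

/-- Finite disjoint unions of positivity sets, with exact inclusion. -/
theorem union_in88 {m : ℕ} {ι : Type} [DecidableEq ι] (p : ι → MvPolynomial (Fin m) ℚ)
    (hp : ∀ i, p i ≠ 0) (hb : ∀ i, Bornology.IsBounded (PS (p i)))
    (hd : ∀ i j, i ≠ j → Disjoint (PS (p i)) (PS (p j))) (F : Finset ι) :
    ∃ g : MvPolynomial (Fin m) ℚ, g ≠ 0 ∧ Bornology.IsBounded (PS g) ∧
      PS g ⊆ (⋃ i ∈ F, PS (p i) : Set (Fin m → ℝ)) ∧
      volume (PS g) = ∑ i ∈ F, volume (PS (p i)) := by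
  induction F using Finset.induction_on with
  | empty =>
    refine ⟨-1, by simp, ?_, ?_, ?_⟩
    · rw [PS_neg_one88]; exact Bornology.isBounded_empty
    · rw [PS_neg_one88]; exact empty_subset _
    · rw [PS_neg_one88]; simp
  | insert a F ha ih =>
    obtain ⟨g, hg, hgb, hgu, hgv⟩ := ih
    have h2 : (PS (p a) ∩ PS g : Set (Fin m → ℝ)) = ∅ := by
      rw [← Set.disjoint_iff_inter_eq_empty]
      refine Disjoint.mono_right hgu ?_
      rw [Set.disjoint_iUnion₂_right]
      intro i hi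
      exact hd a i (fun h => ha (h ▸ hi))
    have h0 : volume (PS (p a) ∩ PS g) = 0 := by
      rw [h2]
      simp
    obtain ⟨-, h4⟩ := xor_disj (hp a) hg h0
    refine ⟨-(p a * g), neg_ne_zero.2 (mul_ne_zero (hp a) hg), xor_bdd (hb a) hgb, ?_, ?_⟩
    · rw [Finset.set_biUnion_insert]
      exact (xor_sub57 _ _).trans (union_subset_union_right _ hgu)
    · rw [h4, hgv, Finset.sum_insert ha]

theorem pack_pass {n : ℕ} (f : MvPolynomial (Fin (n + 1)) ℚ) (hf : f ≠ 0)
    (hfb : Bornology.IsBounded (PS f)) (_hv : 0 < volume (PS f)) :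
    ∃ κ : ℝ, 0 < κ ∧ ∀ O : Set (Fin (n + 1) → ℝ), IsOpen O → volume O ≠ ⊤ →
      ∀ s : ℚ, 0 ≤ s → (s : ℝ) < κ * (volume O).toReal →
        ∃ g : MvPolynomial (Fin (n + 1)) ℚ, g ≠ 0 ∧ Bornology.IsBounded (PS g) ∧ PS g ⊆ O ∧
          (volume (PS g)).toReal = s * (volume (PS f)).toReal := by
  classical
  obtain ⟨R₀, hR₀⟩ := exists_cub83 hfb
  set R : ℕ := R₀ + 1 with hRdef
  have hR1 : (1 : ℝ) ≤ R := by rw [hRdef]; push_cast; linarith [(Nat.cast_nonneg R₀ : (0 : ℝ) ≤ R₀)]
  have hR1q : (1 : ℚ) ≤ R := by exact_mod_cast hR1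
  have hR : ∀ x ∈ PS f, ∀ i, |x i| < R := by
    intro x hx i
    have h1 := hR₀ hx i
    have h2 : |x i| < R₀ := abs_lt.2 h1
    rw [hRdef]; push_cast; linarith
  refine ⟨1 / (2 * R) ^ (n + 1), by positivity, ?_⟩
  intro O hO hOfin N hN0 hN
  rcases hN0.eq_or_lt with rfl | hN0
  · refine ⟨-1, by simp, ?_, ?_, ?_⟩
    · rw [PS_neg_one88]; exact Bornology.isBounded_empty
    · rw [PS_neg_one88]; exact empty_subset _
    · rw [PS_neg_one88]; simp
  have hN0r : (0 : ℝ) < N := by exact_mod_cast hN0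
  have hN1 : (N : ℝ) * (2 * R) ^ (n + 1) < (volume O).toReal := by
    rw [one_div, ← div_eq_inv_mul, lt_div_iff₀ (by positivity)] at hN
    exact hN
  obtain ⟨m, F, hF, hFc⟩ := grid12 hO hOfin
    (ENNReal.ofReal ((N : ℝ) * (2 * R) ^ (n + 1))) (by
      rw [← ENNReal.ofReal_toReal hOfin]
      exact (ENNReal.ofReal_lt_ofReal_iff_of_nonneg (by positivity)).2 hN1)
  set M : ℕ := m + 1 with hM
  have hM0 : (0 : ℝ) < M := by rw [hM]; positivity
  have hM0q : (0 : ℚ) < M := by exact_mod_cast hM0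
  have hcard : (N : ℝ) * (2 * R) ^ (n + 1) < (F.card : ℝ) / (M : ℝ) ^ (n + 1) := by
    have e : (F.card : ENNReal) * (1 / (M : ENNReal) ^ (n + 1)) =
        ENNReal.ofReal ((F.card : ℝ) / (M : ℝ) ^ (n + 1)) := by
      rw [ENNReal.ofReal_div_of_pos (by positivity), ENNReal.ofReal_pow hM0.le,
        ENNReal.ofReal_natCast, ENNReal.ofReal_natCast, mul_one_div]
    rw [e] at hFc
    exact (ENNReal.ofReal_lt_ofReal_iff_of_nonneg (by positivity)).1 hFc
  have hcard0 : 0 < F.card := by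
    rcases Nat.eq_zero_or_pos F.card with h | h
    · rw [h] at hcard
      simp only [Nat.cast_zero, zero_div] at hcard
      have : 0 < (N : ℝ) * (2 * R) ^ (n + 1) := by positivity
      linarith
    · exact h
  have hcr : (0 : ℝ) < F.card := by exact_mod_cast hcard0
  have hcq : (0 : ℚ) < F.card := by exact_mod_cast hcard0
  set θ : ℚ := N * (2 * R * M) ^ (n + 1) / F.card with hθ
  have hθ0 : 0 < θ := by rw [hθ]; positivity
  have hθ1 : (θ : ℝ) ≤ 1 := by
    rw [hθ]
    push_cast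
    rw [div_le_one hcr]
    rw [lt_div_iff₀ (by positivity)] at hcard
    have : (N : ℝ) * (2 * R * M) ^ (n + 1) = N * (2 * R) ^ (n + 1) * M ^ (n + 1) := by
      rw [mul_pow (2 * (R : ℝ)) (M : ℝ)]; ring
    rw [this]
    exact hcard.le
  set h : ℚ := 1 / (2 * R * M) with hh
  have hh0 : 0 < h := by rw [hh]; positivity
  have hhr : (h : ℝ) = 1 / (2 * R * M) := by rw [hh]; push_cast; rfl
  set a : Fin (n + 1) → ℚ := Fin.cons (θ * h) (fun _ => h) with ha
  have ha0 : ∀ i, 0 < a i := by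
    intro i
    refine Fin.cases ?_ (fun j => ?_) i
    · simp only [ha, Fin.cons_zero]; positivity
    · simp only [ha, Fin.cons_succ]; exact hh0
  have hah : ∀ i, (a i : ℝ) ≤ h := by
    intro i
    have hh0r : (0 : ℝ) < h := by exact_mod_cast hh0
    refine Fin.cases ?_ (fun j => ?_) i
    · simp only [ha, Fin.cons_zero]
      push_cast
      nlinarith
    · simp only [ha, Fin.cons_succ]; exact le_refl _
  have hap : (∏ i, (a i : ℝ)) = θ * (h : ℝ) ^ (n + 1) := by
    rw [Fin.prod_univ_succ]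
    simp only [ha, Fin.cons_zero, Fin.cons_succ, Finset.prod_const, Finset.card_univ,
      Fintype.card_fin]
    push_cast
    ring
  choose p hp0 hpz hpv hpb using fun ν : Fin (n + 1) → ℤ =>
    aff f hf (fun i => ((ν i : ℚ) + 1 / 2) / M) a ha0
  have hin : ∀ ν : Fin (n + 1) → ℤ, ∀ z ∈ PS (p ν), ∀ i, (ν i : ℝ) / M < z i ∧
      z i < ((ν i : ℝ) + 1) / M := by
    intro ν z hz i
    rw [hpz] at hz
    have h1 := hR _ hz i
    have ha0r : (0 : ℝ) < a i := by exact_mod_cast ha0 i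
    rw [abs_div, abs_of_pos ha0r, div_lt_iff₀ ha0r] at h1
    have h2 : (R : ℝ) * a i ≤ 1 / (2 * M) := by
      calc (R : ℝ) * a i ≤ R * h := mul_le_mul_of_nonneg_left (hah i) (by positivity)
        _ = 1 / (2 * M) := by rw [hhr]; field_simp
    have h3 := abs_lt.1 (lt_of_lt_of_le h1 h2)
    push_cast at h3
    have h4 : ((ν i : ℝ) + 1 / 2) / M = ν i / M + 1 / (2 * M) := by field_simp
    have h5 : ((ν i : ℝ) + 1) / M = ν i / M + 1 / (2 * M) + 1 / (2 * M) := by field_simp; ring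
    rw [h4] at h3
    rw [h5]
    constructor <;> linarith [h3.1, h3.2]
  have hdis : ∀ ν ν' : Fin (n + 1) → ℤ, ν ≠ ν' → Disjoint (PS (p ν)) (PS (p ν')) := by
    intro ν ν' hne
    rw [Set.disjoint_left]
    intro z hz hz'
    refine hne (funext fun i => ?_)
    have h1 := hin ν z hz i
    have h2 := hin ν' z hz' i
    rw [div_lt_iff₀ hM0, lt_div_iff₀ hM0] at h1 h2
    have h3 : (ν i : ℝ) < ν' i + 1 := by linarith [h1.1, h2.2]
    have h4 : (ν' i : ℝ) < ν i + 1 := by linarith [h1.2, h2.1]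
    have h5 : ν i < ν' i + 1 := by exact_mod_cast h3
    have h6 : ν' i < ν i + 1 := by exact_mod_cast h4
    omega
  obtain ⟨G, hG, hGb, hGu, hGv⟩ := union_in88 p hp0 (fun ν => hpb ν hfb) hdis F
  refine ⟨G, hG, hGb, hGu.trans ?_, ?_⟩
  · refine Set.iUnion₂_subset fun ν hν => ?_
    intro z hz
    exact hF ν hν z (hin ν z hz)
  · rw [hGv, Finset.sum_congr rfl fun ν _ => hpv ν, Finset.sum_const, nsmul_eq_mul,
      ENNReal.toReal_mul, ENNReal.toReal_mul, ENNReal.toReal_natCast, ENNReal.toReal_ofReal (by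
        refine Finset.prod_nonneg fun i _ => ?_
        exact_mod_cast (ha0 i).le), hap, hhr, hθ]
    push_cast
    have h11 : (2 * (R : ℝ) * M) ≠ 0 := by positivity
    have h12 : (2 * (R : ℝ) * M) ^ (n + 1) * (1 / (2 * (R : ℝ) * M)) ^ (n + 1) = 1 := by
      rw [← mul_pow, mul_one_div, div_self h11, one_pow]
    calc (F.card : ℝ) * (N * (2 * (R : ℝ) * M) ^ (n + 1) / F.card *
          (1 / (2 * (R : ℝ) * M)) ^ (n + 1) * (volume (PS f)).toReal)
        = N * ((2 * (R : ℝ) * M) ^ (n + 1) * (1 / (2 * (R : ℝ) * M)) ^ (n + 1)) *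
            (volume (PS f)).toReal * (F.card / F.card) := by ring
      _ = N * (volume (PS f)).toReal := by rw [h12, div_self hcr.ne']; ring

end Pool.Agent.WSP
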