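import Pool.Agent.W_2cf66e_h88.LpA

/-!
# MP_2cf66e_nt, packing, leaf P2: all passes (helper88)
-/

set_option autoImplicit false

noncomputable section

open MeasureTheory Set Filter Topology

namespace Pool.Agent.WSP

/-- the open set where the polynomial is negative has the rest of the volume -/
theorem rest_vol88 {m : ℕ} (g : MvPolynomial (Fin m) ℚ) (hg : g ≠ 0) (U : Set (Fin m → ℝ))
    (hgU : PS g ⊆ U) (hU : volume U ≠ ⊤) :
    (volume (U ∩ PS (-g))).toReal = (volume U).toReal - (volume (PS g)).toReal := by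
  have h1 : (U ∩ PS (-g) : Set (Fin m → ℝ)) =ᵐ[volume] (U \ PS g : Set (Fin m → ℝ)) := by
    filter_upwards [PS.ne57 hg] with z hz
    apply propext
    change (z ∈ U ∧ z ∈ PS (-g)) ↔ (z ∈ U ∧ z ∉ PS g)
    have h2 : z ∈ PS (-g) ↔ z ∉ PS g := by
      change 0 < (MvPolynomial.aeval z (-g) : ℝ) ↔ ¬ 0 < (MvPolynomial.aeval z g : ℝ)
      rw [map_neg]
      constructor
      · intro h; linarith
      · intro h
        have h3 : (MvPolynomial.aeval z g : ℝ) < 0 := lt_of_le_of_ne (not_lt.1 h) hz
        linarith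
    rw [h2]
  have h3 := measure_inter_add_sdiff (μ := volume) U (PS.meas g)
  rw [inter_eq_self_of_subset_right hgU] at h3
  have h4 : volume (PS g) ≠ ⊤ := ne_top_of_le_ne_top hU (measure_mono hgU)
  have h5 : volume (U \ PS g) ≠ ⊤ := ne_top_of_le_ne_top hU (measure_mono sdiff_subset)
  rw [measure_congr h1, ← h3, ENNReal.toReal_add h4 h5]
  ring

theorem pack {n : ℕ} (f : MvPolynomial (Fin (n + 1)) ℚ) (hf : f ≠ 0)
    (hfb : Bornology.IsBounded (PS f)) (O : Set (Fin (n + 1) → ℝ)) (hO : IsOpen O)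
    (hv : volume (PS f) < volume O) :
    ∃ g : MvPolynomial (Fin (n + 1)) ℚ, g ≠ 0 ∧ Bornology.IsBounded (PS g) ∧
      closure (PS g) ⊆ O ∧ volume (PS g) = volume (PS f) := by
  rcases eq_or_ne (volume (PS f)) 0 with h0 | h0
  · refine ⟨-1, by simp, ?_, ?_, ?_⟩
    · rw [PS_neg_one88]; exact Bornology.isBounded_empty
    · rw [PS_neg_one88, closure_empty]; exact empty_subset _
    · rw [PS_neg_one88, h0, measure_empty]
  have hfin : volume (PS f) ≠ ⊤ := hfb.measure_lt_top.ne
  obtain ⟨K, hKO, hK, hKv⟩ := hO.exists_lt_isCompact hv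
  obtain ⟨L, hL, hKL, hLO⟩ := exists_compact_between hK hO hKO
  have hU : IsOpen (interior L) := isOpen_interior
  have hUfin : volume (interior L) ≠ ⊤ :=
    ne_top_of_le_ne_top hL.measure_lt_top.ne (measure_mono interior_subset)
  have hvU : volume (PS f) < volume (interior L) := hKv.trans_le (measure_mono hKL)
  set U : Set (Fin (n + 1) → ℝ) := interior L with hUdef
  set v : ℝ := (volume (PS f)).toReal with hvdef
  set w : ℝ := (volume U).toReal with hwdef
  have hvw : v < w := (ENNReal.toReal_lt_toReal hfin hUfin).2 hvU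
  have hv0 : 0 ≤ v := ENNReal.toReal_nonneg
  obtain ⟨κ, hκ, H⟩ := pack_pass f hf hfb (pos_iff_ne_zero.2 h0)
  obtain ⟨k, hk⟩ := exists_nat_one_div_lt (mul_pos hκ (sub_pos.2 hvw))
  have hk0 : (0 : ℝ) < (k : ℝ) + 1 := by positivity
  have key : ∀ j : ℕ, j ≤ k + 1 → ∃ g : MvPolynomial (Fin (n + 1)) ℚ, g ≠ 0 ∧
      Bornology.IsBounded (PS g) ∧ PS g ⊆ U ∧
      (volume (PS g)).toReal = ((j : ℝ) / (k + 1)) * v := by
    intro j
    induction j with
    | zero =>
      intro _
      refine ⟨-1, by simp, ?_, ?_, ?_⟩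
      · rw [PS_neg_one88]; exact Bornology.isBounded_empty
      · rw [PS_neg_one88]; exact empty_subset _
      · rw [PS_neg_one88]; simp
    | succ j ih =>
      intro hj
      obtain ⟨g, hg, hgb, hgU, hgv⟩ := ih (by omega)
      have hW := rest_vol88 g hg U hgU hUfin
      have hj1 : (j : ℝ) / (k + 1) ≤ 1 := by
        rw [div_le_one hk0]
        have : (j : ℝ) ≤ ((k + 1 : ℕ) : ℝ) := by exact_mod_cast (by omega : j ≤ k + 1)
        push_cast at this
        exact this
      have hle : w - v ≤ (volume (U ∩ PS (-g))).toReal := by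
        rw [hW, hgv]
        have : (j : ℝ) / (k + 1) * v ≤ 1 * v := mul_le_mul_of_nonneg_right hj1 hv0
        linarith
      obtain ⟨e, he, heb, heW, hev⟩ := H (U ∩ PS (-g)) (hU.inter (PS.isOpen _))
        (ne_top_of_le_ne_top hUfin (measure_mono inter_subset_left)) (1 / ((k : ℚ) + 1))
        (by positivity) (by
          push_cast
          exact hk.trans_le (mul_le_mul_of_nonneg_left hle hκ.le))
      have hd : volume (PS g ∩ PS e) = 0 := by
        have : (PS g ∩ PS e : Set (Fin (n + 1) → ℝ)) = ∅ := by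
          refine Set.eq_empty_of_forall_notMem fun z hz => ?_
          have h1 : 0 < (MvPolynomial.aeval z g : ℝ) := hz.1
          have h2 : 0 < (MvPolynomial.aeval z (-g) : ℝ) := (heW hz.2).2
          rw [map_neg] at h2
          linarith
        rw [this, measure_empty]
      refine ⟨-(g * e), neg_ne_zero.2 (mul_ne_zero hg he), xor_bdd hgb heb,
        (xor_sub57 g e).trans (union_subset hgU (heW.trans inter_subset_left)), ?_⟩
      rw [(xor_disj hg he hd).2, ENNReal.toReal_add hgb.measure_lt_top.ne heb.measure_lt_top.ne,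
        hgv, hev]
      rw [← hvdef]
      push_cast
      ring
  obtain ⟨g, hg, hgb, hgU, hgv⟩ := key (k + 1) le_rfl
  refine ⟨g, hg, hgb, ?_, ?_⟩
  · exact (closure_minimal (hgU.trans interior_subset) hL.isClosed).trans hLO
  · rw [← ENNReal.ofReal_toReal hgb.measure_lt_top.ne, hgv, ← ENNReal.ofReal_toReal hfin]
    congr 1
    push_cast
    rw [div_self hk0.ne', one_mul]

end Pool.Agent.WSP
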