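import Pool.Agent.W_2cf66e_h88.Fin88

/-!
# MP_2cf66e_nt, packing: leaf P3, compact semialgebraic sets inside an open set (helper69)
-/

set_option autoImplicit false

noncomputable section

open MeasureTheory Set Filter Topology

namespace Pool.Agent.WSP

theorem sa_ball69 {m : ℕ} (q : Fin m → ℚ) (r : ℚ) (hr : 0 < r) :
    Pool.Agent.CVol.IsSA (Metric.closedBall (fun i => (q i : ℝ)) (r : ℝ)) := by
  have hr0 : (0 : ℝ) ≤ (r : ℝ) := by exact_mod_cast hr.le
  have h := Pool.Agent.CVol.ESA_biInter (Finset.univ : Finset (Fin m))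
    (fun i => {x : Fin m → ℝ | 0 ≤ MvPolynomial.aeval x
        (MvPolynomial.X i - MvPolynomial.C (q i) + MvPolynomial.C r : MvPolynomial (Fin m) ℚ)} ∩
      {x : Fin m → ℝ | 0 ≤ MvPolynomial.aeval x
        (MvPolynomial.C (q i) + MvPolynomial.C r - MvPolynomial.X i : MvPolynomial (Fin m) ℚ)})
    (fun i => (Pool.Agent.CVol.IsSA.nonneg _).inter (Pool.Agent.CVol.IsSA.nonneg _))
  convert h using 1
  ext z
  simp only [Metric.mem_closedBall, dist_pi_le_iff hr0, Real.dist_eq, abs_le, Set.mem_iInter,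
    Set.mem_inter_iff, Set.mem_ofPred_eq, map_add, map_sub, MvPolynomial.aeval_X,
    MvPolynomial.aeval_C, Finset.mem_univ, forall_true_left, eq_ratCast]
  refine forall_congr' fun i => ?_
  constructor
  · rintro ⟨h1, h2⟩
    exact ⟨by linarith, by linarith⟩
  · rintro ⟨h1, h2⟩
    exact ⟨by linarith, by linarith⟩

/-- P3: compact semialgebraic sets inside an open set. -/
theorem sa_compact_in {n : ℕ} (f : MvPolynomial (Fin (n + 1)) ℚ) (hf : f ≠ 0)
    (hfb : Bornology.IsBounded (PS f)) (O : Set (Fin (n + 1) → ℝ)) (hO : IsOpen O)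
    (hsub : closure (PS f) ⊆ O) :
    ∃ K : Set (Fin (n + 1) → ℝ), Pool.Agent.CVol.IsSA K ∧ IsCompact K ∧ K ⊆ O ∧
      volume K = volume (PS f) := by
  classical
  have hC : IsCompact (closure (PS f)) := hfb.isCompact_closure
  obtain ⟨δ, hδ, hδO⟩ := hC.exists_cthickening_subset_open hO hsub
  obtain ⟨r, hr0, hr1⟩ := exists_rat_btwn (show (0 : ℝ) < δ / 2 by positivity)
  have hr0' : 0 < r := by exact_mod_cast hr0
  have hq : ∀ x : Fin (n + 1) → ℝ, ∃ q : Fin (n + 1) → ℚ, dist x (fun i => (q i : ℝ)) < r := by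
    intro x
    have h1 : ∀ i, ∃ q : ℚ, |x i - q| < r := fun i => exists_rat_near (x i) hr0
    choose q hq using h1
    refine ⟨q, ?_⟩
    rw [dist_pi_lt_iff hr0]
    intro i
    rw [Real.dist_eq]
    exact hq i
  choose q hq using hq
  obtain ⟨t, ht, hcov⟩ := hC.elim_nhds_subcover
    (fun x => Metric.closedBall (fun i => (q x i : ℝ)) (r : ℝ)) (fun x _ => by
      refine Filter.mem_of_superset (Metric.isOpen_ball.mem_nhds ?_) Metric.ball_subset_closedBall
      rw [Metric.mem_ball]
      exact hq x)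
  have hball : ∀ x ∈ t, Metric.closedBall (fun i => (q x i : ℝ)) (r : ℝ) ⊆ O := by
    intro x hx z hz
    apply hδO
    have h1 : dist z x ≤ δ := by
      have h2 := dist_triangle z (fun i => (q x i : ℝ)) x
      have h3 := hq x
      rw [dist_comm] at h3
      rw [Metric.mem_closedBall] at hz
      linarith
    exact Metric.closedBall_subset_cthickening (ht x hx) δ (Metric.mem_closedBall.mpr h1)
  refine ⟨{z | 0 ≤ (MvPolynomial.aeval z f : ℝ)} ∩
    ⋃ x ∈ t, Metric.closedBall (fun i => (q x i : ℝ)) (r : ℝ), ?_, ?_, ?_, ?_⟩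
  · exact (Pool.Agent.CVol.IsSA.nonneg f).inter
      (Pool.Agent.CVol.ESA_biUnion t _ fun x => sa_ball69 (q x) r hr0')
  · exact (t.isCompact_biUnion fun x _ => isCompact_closedBall _ _).inter_left
      (isClosed_le continuous_const (PS.cont57 f))
  · rintro z ⟨-, hz⟩
    rw [Set.mem_iUnion₂] at hz
    obtain ⟨x, hx, hz⟩ := hz
    exact hball x hx hz
  · apply measure_congr
    filter_upwards [PS.ne57 hf] with z hz
    apply propext
    change (0 ≤ (MvPolynomial.aeval z f : ℝ) ∧
      z ∈ ⋃ x ∈ t, Metric.closedBall (fun i => (q x i : ℝ)) (r : ℝ)) ↔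
        0 < (MvPolynomial.aeval z f : ℝ)
    constructor
    · rintro ⟨h1, -⟩
      exact lt_of_le_of_ne h1 hz.symm
    · intro h1
      exact ⟨h1.le, hcov (subset_closure h1)⟩

end Pool.Agent.WSP
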