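import Pool.Agent.W_2cf66e_h88.DefsO
import Pool.Agent.W_2cf66e_h23.LfV
import Pool.Agent.W_2cf66e_h88.LoB
import Pool.Agent.W_2cf66e_h88.LoG
import Pool.Agent.W_2cf66e_h88.LoI
import Pool.Agent.W_2cf66e_h88.LoK

/-!
# MP_2cf66e_nt, one inequality in the same dimension: the main theorem (helper88)
-/

set_option autoImplicit false

noncomputable section

open MeasureTheory Set Filter Topology

namespace Pool.Agent.WSP

/-- differences of volumes of bounded positivity sets -/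
def D88 (n : ℕ) (x : ℝ) : Prop := ∃ a b : ℝ, V1 (n + 1) a ∧ V1 (n + 1) b ∧ x = a - b

theorem D88.zero (n : ℕ) : D88 n 0 := ⟨0, 0, V1.zero _, V1.zero _, by ring⟩

theorem D88.add {n : ℕ} {x y : ℝ} (hx : D88 n x) (hy : D88 n y) : D88 n (x + y) := by
  obtain ⟨a, b, ha, hb, rfl⟩ := hx
  obtain ⟨a', b', ha', hb', rfl⟩ := hy
  exact ⟨a + a', b + b', ha.add ha', hb.add hb', by ring⟩

theorem D88.smul {n : ℕ} {x : ℝ} (q : ℚ) (hx : D88 n x) : D88 n ((q : ℝ) * x) := by
  obtain ⟨a, b, ha, hb, rfl⟩ := hx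
  rcases lt_trichotomy q 0 with hq | hq | hq
  · refine ⟨((-q : ℚ) : ℝ) * b, ((-q : ℚ) : ℝ) * a, hb.smul _ (by linarith), ha.smul _ (by linarith), ?_⟩
    push_cast
    ring
  · subst hq
    simpa using D88.zero n
  · exact ⟨(q : ℝ) * a, (q : ℝ) * b, ha.smul _ hq, hb.smul _ hq, by ring⟩

theorem D88.sum {n : ℕ} {k : ℕ} (c : Fin k → ℚ) (x : Fin k → ℝ) (h : ∀ i, D88 n (x i)) :
    D88 n (∑ i, (c i : ℝ) * x i) := by
  classical
  have h1 : ∀ s : Finset (Fin k), D88 n (∑ i ∈ s, (c i : ℝ) * x i) := by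
    intro s
    induction s using Finset.induction_on with
    | empty => simpa using D88.zero n
    | insert a s ha ih =>
      rw [Finset.sum_insert ha]
      exact ((h a).smul (c a)).add ih
  exact h1 Finset.univ

theorem D88.sg {n : ℕ} (p : MvPolynomial (Fin (n + 1)) ℚ) :
    D88 n (∫ z in cube (n + 1), WSP.sg (MvPolynomial.aeval z p)) := by
  obtain ⟨k, c, P, hP, h⟩ := shear p
  rw [h]
  refine D88.sum c _ fun i => ?_
  obtain ⟨a, b, ha, hb, hab⟩ := slab (P i) (hP i)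
  exact ⟨a, b, ha, hb, hab⟩

theorem D88.pos {n : ℕ} {x : ℝ} (h : D88 n x) (hx : 0 ≤ x) : V1 (n + 1) x := by
  rcases hx.eq_or_lt with h0 | h0
  · rw [← h0]
    exact V1.zero _
  obtain ⟨a, b, ha, hb', hab⟩ := h
  obtain ⟨N, hN⟩ := V1.compl hb'
  have h2 : V1 (n + 1) (a + ((N : ℝ) - b)) := ha.add hN
  have h3 : (((N : ℚ)) : ℝ) < a + ((N : ℝ) - b) := by
    push_cast
    linarith
  have h4 := V1.subN h2 (N : ℚ) (by positivity) h3
  have h5 : a + ((N : ℝ) - b) - ((N : ℚ) : ℝ) = x := by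
    push_cast
    linarith
  rwa [h5] at h4

/-- Volumes of bounded semialgebraic sets are volumes of bounded positivity sets of one
polynomial, in the same dimension. -/
theorem oi {n : ℕ} (S : Set (Fin (n + 1) → ℝ)) (hS : Pool.Agent.CVol.IsSA S)
    (hb : Bornology.IsBounded S) : V1 (n + 1) (volume S).toReal := by
  obtain ⟨k, c, p, h⟩ := vol_sgdec S hS hb
  have h1 : D88 n (volume S).toReal := by
    rw [h]
    exact D88.sum c _ fun i => D88.sg (p i)
  exact h1.pos ENNReal.toReal_nonneg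

end Pool.Agent.WSP
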