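import Pool.Agent.W_2cf66e_h88.LpB
import Pool.Agent.W_2cf66e_h88.Oi88
import Pool.Agent.W_2cf66e_h88.Sign88

/-!
# MP_2cf66e_nt, packing, leaf P4: the sign integral over the unit cube, every natural number
larger than the absolute value (helper57)
-/

set_option autoImplicit false

noncomputable section

open MeasureTheory Set Filter Topology

namespace Pool.Agent.WSP

/-- the open unit cube -/
def oc57 (n : ℕ) : Set (Fin n → ℝ) := {u | ∀ i, 0 < u i ∧ u i < 1}

theorem oc_eq57 (n : ℕ) : oc57 n = Set.pi univ (fun _ => Ioo (0 : ℝ) 1) := by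
  ext u
  simp [oc57]

theorem oc_open57 (n : ℕ) : IsOpen (oc57 n) := by
  rw [oc_eq57]
  exact isOpen_set_pi finite_univ fun _ _ => isOpen_Ioo

theorem oc_vol57 (n : ℕ) : volume (oc57 n) = 1 := by
  rw [oc_eq57, Real.volume_pi_Ioo]
  simp

theorem cube_vol57 (n : ℕ) : (volume (cube n)).toReal = 1 := by
  have h : cube n = Set.Icc (fun _ => (0 : ℝ)) (fun _ => (1 : ℝ)) := by
    ext u
    simp [cube, Pi.le_def, forall_and]
  rw [h, Real.volume_Icc_pi_toReal (fun _ => zero_le_one)]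
  simp

/-- the mean sign of a nonzero polynomial with positivity set inside the cube -/
theorem sgn_sub57 {n : ℕ} (g : MvPolynomial (Fin n) ℚ) (hg : g ≠ 0) (hs : PS g ⊆ cube n) :
    ∫ z in cube n, sg (MvPolynomial.aeval z g) = 2 * (volume (PS g)).toReal - 1 := by
  have hcm := cube_meas n
  have hPm : MeasurableSet (PS g) := PS.meas g
  have hae : ∀ᵐ z : Fin n → ℝ, (MvPolynomial.aeval z g : ℝ) ≠ 0 := by
    rw [ae_iff]
    simp only [not_not]
    exact Pool.Agent.CVol.null_rat g hg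
  have hfun : ∀ᵐ z : Fin n → ℝ, z ∈ cube n →
      sg (MvPolynomial.aeval z g) =
        2 * (PS g).indicator (fun _ => (1 : ℝ)) z - 1 := by
    filter_upwards [hae] with z hz _
    by_cases hzg : z ∈ PS g
    · rw [indicator_of_mem hzg, sg_pos (show (0 : ℝ) < MvPolynomial.aeval z g from hzg)]
      norm_num
    · have h5 : (MvPolynomial.aeval z g : ℝ) < 0 := lt_of_le_of_ne (not_lt.1 hzg) hz
      rw [indicator_of_notMem hzg, sg_neg h5]
      norm_num
  have hint1 : IntegrableOn (fun z : Fin n → ℝ =>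
      2 * (PS g).indicator (fun _ => (1 : ℝ)) z) (cube n) := by
    refine Integrable.const_mul ?_ 2
    refine (IntegrableOn.indicator ?_ hPm)
    exact integrableOn_const (ne_of_lt cube_lt_top88)
  have hint2 : IntegrableOn (fun _ : Fin n → ℝ => (1 : ℝ)) (cube n) :=
    integrableOn_const (ne_of_lt cube_lt_top88)
  rw [setIntegral_congr_ae hcm hfun, integral_sub hint1 hint2,
    integral_const_mul, setIntegral_indicator hPm, inter_eq_self_of_subset_right hs,
    setIntegral_const, setIntegral_const, smul_eq_mul, mul_one, smul_eq_mul, mul_one,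
    measureReal_def, measureReal_def, cube_vol57]

/-- P4 from P2 -/
theorem sgn_of57 {n : ℕ}
    (hP : ∀ (f : MvPolynomial (Fin (n + 1)) ℚ), f ≠ 0 → Bornology.IsBounded (PS f) →
      ∀ O : Set (Fin (n + 1) → ℝ), IsOpen O → volume (PS f) < volume O →
      ∃ g : MvPolynomial (Fin (n + 1)) ℚ, g ≠ 0 ∧ Bornology.IsBounded (PS g) ∧
        closure (PS g) ⊆ O ∧ volume (PS g) = volume (PS f))
    {x : ℝ} (h : D88 n x) (M : ℕ) (hM : |x| < M) :
    ∃ f : MvPolynomial (Fin (n + 1)) ℤ,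
      x = M * ∫ u in {u : Fin (n + 1) → ℝ | ∀ i, 0 ≤ u i ∧ u i ≤ 1},
          (SignType.sign (MvPolynomial.aeval u f : ℝ) : ℝ) := by
  have hM0 : (0 : ℝ) < M := lt_of_le_of_lt (abs_nonneg x) hM
  have hx := abs_lt.1 hM
  have hD : D88 n ((((1 / (2 * M) : ℚ)) : ℝ) * x + (((1 / 2 : ℚ)) : ℝ) * 1) := by
    refine (h.smul _).add (D88.smul _ ?_)
    exact ⟨1, 0, V1.one n, V1.zero _, by ring⟩
  have he : (((1 / (2 * M) : ℚ)) : ℝ) * x + (((1 / 2 : ℚ)) : ℝ) * 1 = (x / M + 1) / 2 := by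
    push_cast
    field_simp
  rw [he] at hD
  have h1 : x / M < 1 := by rw [div_lt_one hM0]; exact hx.2
  have h2 : -1 < x / M := by rw [lt_div_iff₀ hM0]; linarith [hx.1]
  obtain ⟨f, hf0, hfb, hfv⟩ := hD.pos (by linarith)
  have hvt : volume (PS f) ≠ ⊤ := hfb.measure_lt_top.ne
  obtain ⟨g, hg0, -, hgc, hgv⟩ := hP f hf0 hfb (oc57 (n + 1)) (oc_open57 _) (by
    rw [oc_vol57, ← ENNReal.ofReal_toReal hvt, hfv, ← ENNReal.ofReal_one]
    exact (ENNReal.ofReal_lt_ofReal_iff one_pos).2 (by linarith))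
  have hsub : PS g ⊆ cube (n + 1) := fun z hz i => by
    have h3 := (hgc (subset_closure hz)) i
    exact ⟨h3.1.le, h3.2.le⟩
  obtain ⟨F, hF⟩ := sg_int88 g
  refine ⟨F, ?_⟩
  have h4 : ∫ u in {u : Fin (n + 1) → ℝ | ∀ i, 0 ≤ u i ∧ u i ≤ 1},
      (SignType.sign (MvPolynomial.aeval u F : ℝ) : ℝ) = 2 * ((x / M + 1) / 2) - 1 := by
    rw [← hfv, ← hgv, ← sgn_sub57 g hg0 hsub]
    refine integral_congr_ae (Eventually.of_forall fun z => ?_)
    exact hF z
  rw [h4]
  field_simp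
  ring

/-- P4: the sign integral over the unit cube, every natural number larger than `|x|`. -/
theorem sgn_all {n : ℕ} {x : ℝ} (h : D88 n x) (M : ℕ) (hM : |x| < M) :
    ∃ f : MvPolynomial (Fin (n + 1)) ℤ,
      x = M * ∫ u in {u : Fin (n + 1) → ℝ | ∀ i, 0 ≤ u i ∧ u i ≤ 1},
          (SignType.sign (MvPolynomial.aeval u f : ℝ) : ℝ) :=
  sgn_of57 (fun f hf hfb O hO hv => pack f hf hfb O hO hv) h M hM

end Pool.Agent.WSP
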