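import Pool.Agent.W_2cf66e_h88.Fin88

/-!
# MP_2cf66e_nt, packing, P5: lattice points with the place of the points (helper83; the proof of
helper3 / helper88)
-/

set_option autoImplicit false

noncomputable section

open MeasureTheory MvPolynomial Filter
open scoped ENNReal Topology Pointwise

namespace Pool.Agent.OneIneq

open Pool.Agent.CVol

/-- From the volume to the lattice points, same dimension, with the place of the points. -/
theorem lat_place83 {n : ℕ} {x : ℝ} (hx : 0 < x) (f : MvPolynomial (Fin n) ℤ)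
    (h1 : Bornology.IsBounded {u : Fin n → ℝ | 0 < (aeval u f : ℝ)})
    (h2 : volume {u : Fin n → ℝ | 0 < (aeval u f : ℝ)} = ENNReal.ofReal x) :
    ∃ (d K : ℕ) (F : MvPolynomial (Fin (n + 1)) ℤ), F.IsHomogeneous d ∧
      ∀ T : ℕ, 0 < T →
        (∀ z : Fin n → ℤ, 0 < eval (Fin.cons (T : ℤ) z : Fin (n + 1) → ℤ) F ↔
          0 < (aeval (fun i => (z i : ℝ) / T) f : ℝ)) ∧
        |({z : Fin n → ℤ | 0 < eval (Fin.cons (T : ℤ) z : Fin (n + 1) → ℤ) F}.ncard : ℝ) -
          x * (T : ℝ) ^ n| * T ≤ K * (T : ℝ) ^ n := by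
  obtain ⟨d, F, hF, hFf⟩ := homog f
  have hS : Sset F = {u : Fin n → ℝ | 0 < (aeval u f : ℝ)} := by
    ext u
    have h3 := hFf 1 u
    simp only [one_mul, one_pow] at h3
    rw [Sset, Set.mem_ofPred_eq, Set.mem_ofPred_eq, h3]
  obtain ⟨C0, hC0⟩ := isBounded_iff_forall_norm_le.1 h1
  obtain ⟨C, hC⟩ := exists_nat_ge C0
  obtain ⟨D, hD⟩ := PF.poly f
  obtain ⟨K0, hK0, hdav⟩ := dav D C n
  obtain ⟨K, hK⟩ := exists_nat_ge K0
  have hcont : Continuous fun u : Fin n → ℝ => (aeval u f : ℝ) := by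
    have h3 := HCell_cont (map (Int.castRingHom ℚ) f)
    simp only [toRat] at h3
    exact h3
  have hbox : ∀ u : Fin n → ℝ, 0 < (aeval u f : ℝ) → ∀ i, |u i| ≤ C := by
    intro u hu i
    have h4 := (norm_le_pi_norm u i).trans ((hC0 u hu).trans hC)
    rwa [Real.norm_eq_abs] at h4
  -- the volume
  have hV : Vc C n (fun u : Fin n → ℝ => (aeval u f : ℝ)) = x := by
    have hm : MeasurableSet {u : Fin n → ℝ | 0 < (aeval u f : ℝ)} :=
      (isOpen_lt continuous_const hcont).measurableSet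
    have h3 : (fun u : Fin n → ℝ => ps (aeval u f : ℝ)) =
        {u : Fin n → ℝ | 0 < (aeval u f : ℝ)}.indicator fun _ => 1 := by
      funext u
      rw [Set.indicator_apply]
      rfl
    have h4 : rbox C n ∩ {u : Fin n → ℝ | 0 < (aeval u f : ℝ)} =
        {u : Fin n → ℝ | 0 < (aeval u f : ℝ)} := by
      refine Set.inter_eq_right.2 fun u hu => ?_
      have h5 := fun i => abs_le.1 (hbox u hu i)
      exact ⟨fun i => (h5 i).1, fun i => (h5 i).2⟩
    unfold Vc
    rw [h3, setIntegral_indicator hm, h4, setIntegral_const, measureReal_def, h2,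
      ENNReal.toReal_ofReal hx.le, smul_eq_mul, mul_one]
  refine ⟨d, max C K, F, hF, fun T hT => ?_⟩
  have hT' : (0 : ℝ) < T := by exact_mod_cast hT
  have hzb : ∀ z : Fin n → ℤ, 0 < eval (Fin.cons (T : ℤ) z : Fin (n + 1) → ℤ) F →
      ∀ i, |z i| ≤ C * T := by
    intro z hz i
    have h3 := (Sset_scale hF hT z).2 hz
    rw [hS] at h3
    have h4 := hbox _ h3 i
    rw [abs_div, Nat.abs_cast, div_le_iff₀ hT'] at h4
    exact_mod_cast h4
  refine ⟨fun z => ?_, ?_⟩
  · have h3 := Sset_scale hF hT z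
    rw [hS, Set.mem_ofPred_eq] at h3
    exact h3.symm
  · have hNc : (({z : Fin n → ℤ | 0 < eval (Fin.cons (T : ℤ) z : Fin (n + 1) → ℤ) F}.ncard
        : ℕ) : ℝ) = Nc C T n (fun u : Fin n → ℝ => (aeval u f : ℝ)) := by
      classical
      have h5 : {z : Fin n → ℤ | 0 < eval (Fin.cons (T : ℤ) z : Fin (n + 1) → ℤ) F} =
          ((lbox C T n).filter fun z => 0 < (aeval (fun i => (z i : ℝ) / T) f : ℝ)) := by
        ext z
        rw [Finset.coe_filter, Set.mem_ofPred_eq, Set.mem_ofPred_eq]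
        have h6 := Sset_scale hF hT z
        rw [hS, Set.mem_ofPred_eq] at h6
        rw [← h6]
        constructor
        · intro h7
          refine ⟨?_, h7⟩
          rw [lbox, Fintype.mem_piFinset]
          intro i
          rw [Finset.mem_Icc]
          exact abs_le.1 (hzb z (h6.1 h7) i)
        · rintro ⟨-, h7⟩
          exact h7
      rw [h5, Set.ncard_coe_finset, Nc, Finset.card_filter]
      push_cast
      rfl
    have h6 := hdav _ hcont hD T hT
    rw [hV] at h6
    rw [hNc, mul_comm x]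
    refine h6.trans (mul_le_mul_of_nonneg_right ?_ (by positivity))
    have : (K : ℝ) ≤ (max C K : ℕ) := by exact_mod_cast le_max_right C K
    exact hK.trans this

end Pool.Agent.OneIneq

namespace Pool.Agent.WSP

open Pool.Agent.OneIneq

/-- P5: lattice points, with the place of the points. -/
theorem lat_in {n : ℕ} {x : ℝ} (hx : 0 < x) (f : MvPolynomial (Fin (n + 1)) ℤ)
    (hb : Bornology.IsBounded {u : Fin (n + 1) → ℝ | 0 < (MvPolynomial.aeval u f : ℝ)})
    (hv : volume {u : Fin (n + 1) → ℝ | 0 < (MvPolynomial.aeval u f : ℝ)} = ENNReal.ofReal x) :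
    ∃ (d K : ℕ) (F : MvPolynomial (Fin (n + 2)) ℤ), F.IsHomogeneous d ∧
      ∀ T : ℕ, 0 < T →
        (∀ z : Fin (n + 1) → ℤ,
          0 < MvPolynomial.eval (Fin.cons (T : ℤ) z : Fin (n + 2) → ℤ) F ↔
            0 < (MvPolynomial.aeval (fun i => (z i : ℝ) / T) f : ℝ)) ∧
        |({z : Fin (n + 1) → ℤ |
            0 < MvPolynomial.eval (Fin.cons (T : ℤ) z : Fin (n + 2) → ℤ) F}.ncard : ℝ) -
          x * (T : ℝ) ^ (n + 1)| ≤ K * (T : ℝ) ^ n := by
  obtain ⟨d, K, F, hF, h⟩ := lat_place83 hx f hb hv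
  refine ⟨d, K, F, hF, fun T hT => ⟨(h T hT).1, ?_⟩⟩
  have hT' : (0 : ℝ) < T := by exact_mod_cast hT
  have h1 := (h T hT).2
  have h2 : (K : ℝ) * (T : ℝ) ^ (n + 1) = K * (T : ℝ) ^ n * T := by ring
  rw [h2] at h1
  exact le_of_mul_le_mul_right h1 hT'

end Pool.Agent.WSP
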