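import Pool.Agent.W_2cf66e_h57.Norm57

/-!
# Minima of quadratics: the unit ball of a norm, with its compactness (helper88, after helper57)
-/

set_option autoImplicit false

noncomputable section

open MeasureTheory MvPolynomial
open scoped Classical

namespace Pool.Agent.MinQ

open Pool.Agent.CVol (box)
open Pool.Agent.MinQ57

/-- `norm57` with the compactness of the unit ball. -/
theorem norm88 (x : ℝ) {n : ℕ} {α : Type} [Fintype α] [Nonempty α]
    (r : α → MvPolynomial (Fin n) ℚ) (hd : ∀ b, (r b).totalDegree ≤ 2)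
    (hc : ∀ b, ConcaveOn ℝ Set.univ fun z : Fin n → ℝ => (aeval z (r b) : ℝ))
    (hp : ∀ z ∈ Set.Icc (0 : Fin n → ℝ) 1, ∀ b, (0 : ℝ) < aeval z (r b))
    (hi : (∫ z in Set.Icc (0 : Fin n → ℝ) 1, ⨅ b, (aeval z (r b) : ℝ)) = x) :
    ∃ (N m : ℕ) (q : Fin m → MvPolynomial (Fin N) ℚ) (p : Seminorm ℝ (Fin N → ℝ)),
      (∀ j, (q j).totalDegree ≤ 2 ∧
        ConcaveOn ℝ Set.univ fun z : Fin N → ℝ => (aeval z (q j) : ℝ)) ∧
      (∀ z, p z = 0 → z = 0) ∧
      (∀ z ε : Fin N → ℝ, (∀ i, ε i = 1 ∨ ε i = -1) → p (fun i => ε i * z i) = p z) ∧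
      {z | p z ≤ 1} = {z | ∀ j, (0 : ℝ) ≤ aeval z (q j)} ∧
      IsCompact {z | p z ≤ 1} ∧
      volume {z | p z ≤ 1} = ENNReal.ofReal x := by
  have hcont : Continuous (ev (mn r)) := ev_cont (cont_mn r)
  have hpos : ∀ z ∈ box (Fin n), 0 < ev (mn r) z := by
    intro z hz
    refine ev_pos (fun y hy => ?_) hz
    obtain ⟨b, hb⟩ := exists_eq_ciInf_of_finite (f := fun b => (aeval y (r b) : ℝ))
    show 0 < ⨅ b, (aeval y (r b) : ℝ)
    rw [← hb]
    exact hp y hy b
  have hint : ∫ z in box (Fin n), ev (mn r) z = x := by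
    rw [int_ev (cont_mn r)]
    exact hi
  obtain ⟨p, h1, h2, h3⟩ := Pool.Agent.CVol.exists_norm (Pool.Agent.CVol.body (ev (mn r)))
    (Pool.Agent.CVol.body_compact hcont)
    (Pool.Agent.CVol.body_convex (ev_concave r hc))
    (Pool.Agent.CVol.body_nhds hcont hpos)
    (fun z hz ε hε => Pool.Agent.CVol.body_sign (fun δ hδ w => ev_sign (mn r) δ hδ w) ε hε z hz)
  let J : Type := (Fin n × Bool) ⊕ (((Fin n → Bool) → α) × Bool)
  let f : Fin (Fintype.card J) ≃ J := (Fintype.equivFin J).symm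
  refine ⟨n + 1, Fintype.card J, fun j => qb r (f j), p, fun j => ⟨qb_deg r hd _, qb_cc r hc _⟩,
    h1, h2, ?_, ?_, ?_⟩
  · rw [h3, qb_body]
    ext z
    constructor
    · intro h j
      exact h (f j)
    · intro h j
      have h4 : (0 : ℝ) ≤ aeval z (qb r (f (f.symm j))) := h (f.symm j)
      rwa [Equiv.apply_symm_apply] at h4
  · rw [h3]
    exact Pool.Agent.CVol.body_compact hcont
  · rw [h3, Pool.Agent.CVol.body_volume hcont hpos, hint]

end Pool.Agent.MinQ
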