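import Pool.Agent.W_2cf66e_h88.LpC
import Pool.Agent.W_2cf66e_h88.LpD
import Pool.Agent.W_2cf66e_h88.LpE

/-!
# MP_2cf66e_nt, packing: the equivalences (helper88)
-/

set_option autoImplicit false

noncomputable section

open MeasureTheory Set Filter Topology

namespace Pool.Agent.WSP

open Pool.Agent.CVol (IsSA IsPeriod)

theorem pack_rat88 {n : ℕ} {x : ℝ} (hx : 0 ≤ x) (S : Set (Fin (n + 1) → ℝ)) (hS : IsSA S)
    (hv : volume S = ENNReal.ofReal x) (O : Set (Fin (n + 1) → ℝ)) (hO : IsOpen O)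
    (hxO : ENNReal.ofReal x < volume O) :
    ∃ g : MvPolynomial (Fin (n + 1)) ℚ, g ≠ 0 ∧ Bornology.IsBounded (PS g) ∧
      closure (PS g) ⊆ O ∧ volume (PS g) = ENNReal.ofReal x := by
  obtain ⟨f, hf, hfb, hfv⟩ := fin_V188 S hS (by rw [hv]; exact ENNReal.ofReal_ne_top)
  have h2 : volume (PS f) = ENNReal.ofReal x := by
    rw [← ENNReal.ofReal_toReal hfb.measure_lt_top.ne, hfv, hv, ENNReal.toReal_ofReal hx]
  obtain ⟨g, hg, hgb, hgO, hgv⟩ := pack f hf hfb O hO (by rw [h2]; exact hxO)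
  exact ⟨g, hg, hgb, hgO, by rw [hgv, h2]⟩

theorem pack_tfae88 (n : ℕ) (x : ℝ) (O : Set (Fin (n + 1) → ℝ)) (hx : 0 < x) (hO : IsOpen O)
    (hxO : ENNReal.ofReal x < volume O) : List.TFAE [
      ∃ S : Set (Fin (n + 1) → ℝ), IsSA S ∧ volume S = ENNReal.ofReal x,
      ∃ S : Set (Fin (n + 1) → ℝ), IsSA S ∧ IsCompact S ∧ S ⊆ O ∧ volume S = ENNReal.ofReal x,
      ∃ f : MvPolynomial (Fin (n + 1)) ℤ,
        Bornology.IsBounded {u : Fin (n + 1) → ℝ | 0 < (MvPolynomial.aeval u f : ℝ)} ∧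
        closure {u : Fin (n + 1) → ℝ | 0 < (MvPolynomial.aeval u f : ℝ)} ⊆ O ∧
        volume {u : Fin (n + 1) → ℝ | 0 < (MvPolynomial.aeval u f : ℝ)} = ENNReal.ofReal x,
      ∃ (N : ℕ) (c : Fin N → Fin N → Fin (n + 3)),
        Bornology.IsBounded {u : Fin (n + 1) → ℝ | 0 < (Pool.Agent.OneIneq.mat c u).det} ∧
        closure {u : Fin (n + 1) → ℝ | 0 < (Pool.Agent.OneIneq.mat c u).det} ⊆ O ∧
        volume {u : Fin (n + 1) → ℝ | 0 < (Pool.Agent.OneIneq.mat c u).det} = ENNReal.ofReal x,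
      ∃ (d K : ℕ) (F : MvPolynomial (Fin (n + 2)) ℤ), F.IsHomogeneous d ∧
        ∀ T : ℕ, 0 < T →
          (∀ z : Fin (n + 1) → ℤ,
            0 < MvPolynomial.eval (Fin.cons (T : ℤ) z : Fin (n + 2) → ℤ) F →
              (∀ i, |z i| ≤ K * T) ∧ (fun i => (z i : ℝ) / T) ∈ O) ∧
          |({z : Fin (n + 1) → ℤ |
              0 < MvPolynomial.eval (Fin.cons (T : ℤ) z : Fin (n + 2) → ℤ) F}.ncard : ℝ) -
            x * (T : ℝ) ^ (n + 1)| ≤ K * (T : ℝ) ^ n] := by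
  have H : (∃ S : Set (Fin (n + 1) → ℝ), IsSA S ∧ volume S = ENNReal.ofReal x) →
      ∃ g : MvPolynomial (Fin (n + 1)) ℚ, g ≠ 0 ∧ Bornology.IsBounded (PS g) ∧
        closure (PS g) ⊆ O ∧ volume (PS g) = ENNReal.ofReal x := by
    rintro ⟨S, hS, hv⟩
    exact pack_rat88 hx.le S hS hv O hO hxO
  tfae_have 1 → 3 := by
    intro h
    obtain ⟨g, -, h1, h2, h3⟩ := H h
    obtain ⟨F, hF⟩ := PS_int g
    exact ⟨F, by rw [hF]; exact h1, by rw [hF]; exact h2, by rw [hF]; exact h3⟩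
  tfae_have 3 → 1 := by
    rintro ⟨f, -, -, hv⟩
    exact ⟨_, sa_int88 f, hv⟩
  tfae_have 1 → 2 := by
    intro h
    obtain ⟨g, h0, h1, h2, h3⟩ := H h
    obtain ⟨K, h4, h5, h6, h7⟩ := sa_compact_in g h0 h1 O hO h2
    exact ⟨K, h4, h5, h6, by rw [h7, h3]⟩
  tfae_have 2 → 1 := by
    rintro ⟨S, h1, -, -, h3⟩
    exact ⟨S, h1, h3⟩
  tfae_have 3 → 4 := by
    rintro ⟨f, h⟩
    obtain ⟨N, c, hc⟩ := Pool.Agent.OneIneq.exists_mat f
    exact ⟨N, c, by simpa only [hc] using h⟩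
  tfae_have 4 → 3 := by
    rintro ⟨N, c, h⟩
    obtain ⟨f, hf⟩ := Pool.Agent.OneIneq.mat_poly c
    exact ⟨f, by simpa only [hf] using h⟩
  tfae_have 3 → 5 := by
    rintro ⟨f, h1, h2, h3⟩
    obtain ⟨d, K, F, hF, h⟩ := lat_in hx f h1 h3
    obtain ⟨C0, hC0⟩ := isBounded_iff_forall_norm_le.1 h1
    obtain ⟨C, hC⟩ := exists_nat_ge C0
    refine ⟨d, max C K, F, hF, fun T hT => ⟨fun z hz => ?_, ?_⟩⟩
    · have hT' : (0 : ℝ) < T := by exact_mod_cast hT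
      have h4 : (fun i => (z i : ℝ) / T) ∈
          {u : Fin (n + 1) → ℝ | 0 < (MvPolynomial.aeval u f : ℝ)} := ((h T hT).1 z).1 hz
      refine ⟨fun i => ?_, h2 (subset_closure h4)⟩
      have h5 := (norm_le_pi_norm _ i).trans ((hC0 _ h4).trans hC)
      rw [Real.norm_eq_abs, abs_div, Nat.abs_cast, div_le_iff₀ hT'] at h5
      have h6 : |z i| ≤ (C : ℤ) * T := by exact_mod_cast h5
      refine h6.trans (mul_le_mul_of_nonneg_right ?_ (by positivity))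
      exact_mod_cast le_max_left C K
    · refine (h T hT).2.trans (mul_le_mul_of_nonneg_right ?_ (by positivity))
      exact_mod_cast le_max_right C K
  tfae_have 5 → 1 := by
    rintro ⟨d, K, F, hF, h⟩
    obtain ⟨f, -, h2⟩ := Pool.Agent.OneIneq.vol_of_lat hx (d := d) (K := K) hF fun T hT =>
      ⟨fun z hz => ((h T hT).1 z hz).1, by
        have hT' : (0 : ℝ) < T := by exact_mod_cast hT
        have h3 := mul_le_mul_of_nonneg_right (h T hT).2 hT'.le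
        rw [mul_assoc (K : ℝ), ← pow_succ] at h3
        exact h3⟩
    exact ⟨_, sa_int88 f, h2⟩
  tfae_finish

/-- the open unit cube -/
theorem ocube_eq88 (m : ℕ) : {u : Fin m → ℝ | ∀ i, 0 < u i ∧ u i < 1} =
    Set.pi univ fun _ => Ioo (0 : ℝ) 1 := by
  ext u
  simp [Set.mem_pi]

theorem ocube_open88 (m : ℕ) : IsOpen {u : Fin m → ℝ | ∀ i, 0 < u i ∧ u i < 1} := by
  rw [ocube_eq88]
  exact isOpen_set_pi finite_univ fun _ _ => isOpen_Ioo

theorem ocube_vol88 (m : ℕ) : volume {u : Fin m → ℝ | ∀ i, 0 < u i ∧ u i < 1} = 1 := by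
  rw [ocube_eq88, Real.volume_pi_Ioo]
  simp

theorem sa_cube88 (m : ℕ) : IsSA {u : Fin m → ℝ | ∀ i, 0 ≤ u i ∧ u i ≤ 1} := by
  have h := Pool.Agent.CVol.IsSA.biInter (Finset.univ : Finset (Fin m))
    (fun i => {x : Fin m → ℝ | 0 ≤ MvPolynomial.aeval x (MvPolynomial.X i : MvPolynomial (Fin m) ℚ)} ∩
      {x : Fin m → ℝ | 0 ≤ MvPolynomial.aeval x (1 - MvPolynomial.X i : MvPolynomial (Fin m) ℚ)})
    (fun i => (Pool.Agent.CVol.IsSA.nonneg _).inter (Pool.Agent.CVol.IsSA.nonneg _))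
  have e : (⋂ i ∈ (Finset.univ : Finset (Fin m)),
      ({x : Fin m → ℝ | 0 ≤ MvPolynomial.aeval x (MvPolynomial.X i : MvPolynomial (Fin m) ℚ)} ∩
      {x : Fin m → ℝ | 0 ≤ MvPolynomial.aeval x (1 - MvPolynomial.X i : MvPolynomial (Fin m) ℚ)})) =
        {u : Fin m → ℝ | ∀ i, 0 ≤ u i ∧ u i ≤ 1} := by
    ext x
    simp only [Set.mem_iInter, Set.mem_inter_iff, Set.mem_ofPred_eq, map_sub,
      MvPolynomial.aeval_X, map_one, Finset.mem_univ, forall_true_left]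
    refine forall_congr' fun i => ?_
    constructor
    · rintro ⟨h1, h2⟩
      exact ⟨h1, by linarith⟩
    · rintro ⟨h1, h2⟩
      exact ⟨h1, by linarith⟩
  rwa [e] at h

theorem D88.rat (n : ℕ) (q : ℚ) : D88 n (q : ℝ) := by
  have h : D88 n 1 := ⟨1, 0, V1.one n, V1.zero _, by ring⟩
  simpa using h.smul q

/-- integer plus the volume of a positivity set inside the open unit cube -/
theorem D88.cube88 {n : ℕ} {x : ℝ} (h : D88 n x) :
    ∃ (a : ℤ) (f : MvPolynomial (Fin (n + 1)) ℤ),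
      closure {u : Fin (n + 1) → ℝ | 0 < (MvPolynomial.aeval u f : ℝ)} ⊆
        {u | ∀ i, 0 < u i ∧ u i < 1} ∧
      x = a + (volume {u : Fin (n + 1) → ℝ | 0 < (MvPolynomial.aeval u f : ℝ)}).toReal := by
  have h1 : D88 n (Int.fract x) := by
    have h2 := h.add (D88.rat n (-(⌊x⌋ : ℚ)))
    have h3 : x + ((-(⌊x⌋ : ℚ) : ℚ) : ℝ) = Int.fract x := by
      push_cast
      rw [Int.fract]
      ring
    rwa [h3] at h2
  obtain ⟨f, hf, hfb, hfv⟩ := h1.pos (Int.fract_nonneg x)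
  have h2 : volume (PS f) < volume {u : Fin (n + 1) → ℝ | ∀ i, 0 < u i ∧ u i < 1} := by
    rw [ocube_vol88, ← ENNReal.ofReal_toReal hfb.measure_lt_top.ne, hfv, ENNReal.ofReal_lt_one]
    exact Int.fract_lt_one x
  obtain ⟨g, -, -, hgO, hgv⟩ := pack f hf hfb _ (ocube_open88 _) h2
  obtain ⟨F, hF⟩ := PS_int g
  refine ⟨⌊x⌋, F, by rw [hF]; exact hgO, ?_⟩
  rw [hF, hgv, hfv, Int.floor_add_fract]

theorem D88.of_cube88 {n : ℕ} {x : ℝ} (a : ℤ) (f : MvPolynomial (Fin (n + 1)) ℤ)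
    (hf : {u : Fin (n + 1) → ℝ | 0 < (MvPolynomial.aeval u f : ℝ)} ⊆
      {u | ∀ i, 0 ≤ u i ∧ u i ≤ 1})
    (hx : x = a + (volume {u : Fin (n + 1) → ℝ | 0 < (MvPolynomial.aeval u f : ℝ)}).toReal) :
    D88 n x := by
  have h1 : volume {u : Fin (n + 1) → ℝ | 0 < (MvPolynomial.aeval u f : ℝ)} ≠ ⊤ :=
    ne_top_of_le_ne_top cube_lt_top88.ne (measure_mono hf)
  have h2 := fin_V188 _ (sa_int88 f) h1
  have h3 : D88 n (volume {u : Fin (n + 1) → ℝ | 0 < (MvPolynomial.aeval u f : ℝ)}).toReal :=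
    ⟨_, 0, h2, V1.zero _, by ring⟩
  rw [hx]
  simpa using (D88.rat n (a : ℚ)).add h3

theorem real_pack88 (n : ℕ) (x : ℝ) : List.TFAE [
      ∃ S T : Set (Fin (n + 1) → ℝ), IsSA S ∧ IsSA T ∧
        volume S ≠ ⊤ ∧ volume T ≠ ⊤ ∧ x = (volume S).toReal - (volume T).toReal,
      ∃ (a : ℤ) (f : MvPolynomial (Fin (n + 1)) ℤ),
        closure {u : Fin (n + 1) → ℝ | 0 < (MvPolynomial.aeval u f : ℝ)} ⊆
          {u | ∀ i, 0 < u i ∧ u i < 1} ∧
        x = a + (volume {u : Fin (n + 1) → ℝ | 0 < (MvPolynomial.aeval u f : ℝ)}).toReal,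
      ∃ (M : ℕ) (f : MvPolynomial (Fin (n + 1)) ℤ),
        x = M * ∫ u in {u : Fin (n + 1) → ℝ | ∀ i, 0 ≤ u i ∧ u i ≤ 1},
          (SignType.sign (MvPolynomial.aeval u f : ℝ) : ℝ),
      ∀ M : ℕ, |x| < M → ∃ f : MvPolynomial (Fin (n + 1)) ℤ,
        x = M * ∫ u in {u : Fin (n + 1) → ℝ | ∀ i, 0 ≤ u i ∧ u i ≤ 1},
          (SignType.sign (MvPolynomial.aeval u f : ℝ) : ℝ)] := by
  have hD : (∃ S T : Set (Fin (n + 1) → ℝ), IsSA S ∧ IsSA T ∧
        volume S ≠ ⊤ ∧ volume T ≠ ⊤ ∧ x = (volume S).toReal - (volume T).toReal) ↔ D88 n x := by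
    constructor
    · rintro ⟨S, T, hS, hT, hvS, hvT, hx⟩
      exact ⟨_, _, fin_V188 S hS hvS, fin_V188 T hT hvT, hx⟩
    · rintro ⟨a, b, ⟨f, -, h1, h2⟩, ⟨g, -, h3, h4⟩, hx⟩
      exact ⟨PS f, PS g, Pool.Agent.CVol.IsSA.pos f, Pool.Agent.CVol.IsSA.pos g,
        h1.measure_lt_top.ne, h3.measure_lt_top.ne, by rw [h2, h4, hx]⟩
  tfae_have 1 → 2 := fun h => (hD.1 h).cube88
  tfae_have 2 → 1 := by
    rintro ⟨a, f, h1, h2⟩
    exact hD.2 (D88.of_cube88 a f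
      ((subset_closure.trans h1).trans fun u hu i => ⟨(hu i).1.le, (hu i).2.le⟩) h2)
  tfae_have 1 → 4 := fun h M hM => sgn_all (hD.1 h) M hM
  tfae_have 4 → 3 := by
    intro h
    obtain ⟨M, hM⟩ := exists_nat_gt |x|
    exact ⟨M, h M hM⟩
  tfae_have 3 → 1 := by
    intro h
    exact ((real_tfae88 n x).out 2 0).1 h
  tfae_finish

/-- real numbers: periods as integers plus volumes inside the open unit cube -/
theorem period_pack88 (x : ℝ) : List.TFAE [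
      IsPeriod x,
      ∃ (a : ℤ) (n : ℕ) (f : MvPolynomial (Fin (n + 1)) ℤ),
        closure {u : Fin (n + 1) → ℝ | 0 < (MvPolynomial.aeval u f : ℝ)} ⊆
          {u | ∀ i, 0 < u i ∧ u i < 1} ∧
        x = a + (volume {u : Fin (n + 1) → ℝ | 0 < (MvPolynomial.aeval u f : ℝ)}).toReal,
      ∃ (a : ℤ) (n N : ℕ) (c : Fin N → Fin N → Fin (n + 3)),
        closure {u : Fin (n + 1) → ℝ | 0 < (Pool.Agent.OneIneq.mat c u).det} ⊆
          {u | ∀ i, 0 < u i ∧ u i < 1} ∧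
        x = a + (volume {u : Fin (n + 1) → ℝ | 0 < (Pool.Agent.OneIneq.mat c u).det}).toReal] := by
  tfae_have 1 → 2 := by
    intro h
    obtain ⟨a, k, f, hx⟩ := ((Pool.Agent.OneIneq.main_real x).out 0 1).1 h
    rcases k with _ | n
    · have h1 : ∃ q : ℤ, x = q := by
        rcases Set.eq_empty_or_nonempty {u : Fin 0 → ℝ | (∀ i, 0 ≤ u i ∧ u i ≤ 1) ∧
            0 < (MvPolynomial.aeval u f : ℝ)} with h5 | ⟨v, hv⟩
        · refine ⟨a, ?_⟩
          rw [hx, h5]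
          simp
        · have h6 : {u : Fin 0 → ℝ | (∀ i, 0 ≤ u i ∧ u i ≤ 1) ∧
              0 < (MvPolynomial.aeval u f : ℝ)} = univ := by
            refine eq_univ_of_forall fun w => ?_
            rwa [Subsingleton.elim w v]
          have h7 : volume (univ : Set (Fin 0 → ℝ)) = 1 := by
            simp [volume_pi, Measure.pi_of_empty]
          refine ⟨a + 1, ?_⟩
          rw [hx, h6, h7]
          push_cast
          simp
      obtain ⟨q, hq⟩ := h1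
      have h2 : D88 0 x := by
        rw [hq]
        simpa using D88.rat 0 (q : ℚ)
      obtain ⟨b, g, h3⟩ := h2.cube88
      exact ⟨b, 0, g, h3⟩
    · have h1 : IsSA ({u : Fin (n + 1) → ℝ | (∀ i, 0 ≤ u i ∧ u i ≤ 1) ∧
          0 < (MvPolynomial.aeval u f : ℝ)}) := (sa_cube88 (n + 1)).inter (sa_int88 f)
      have h2 : volume {u : Fin (n + 1) → ℝ | (∀ i, 0 ≤ u i ∧ u i ≤ 1) ∧
          0 < (MvPolynomial.aeval u f : ℝ)} ≠ ⊤ :=
        ne_top_of_le_ne_top cube_lt_top88.ne (measure_mono fun u hu => hu.1)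
      have h3 : D88 n x := by
        have h4 : D88 n (volume {u : Fin (n + 1) → ℝ | (∀ i, 0 ≤ u i ∧ u i ≤ 1) ∧
          0 < (MvPolynomial.aeval u f : ℝ)}).toReal :=
          ⟨_, 0, fin_V188 _ h1 h2, V1.zero _, by ring⟩
        rw [hx]
        simpa using (D88.rat n (a : ℚ)).add h4
      obtain ⟨b, g, h5⟩ := h3.cube88
      exact ⟨b, n, g, h5⟩
  tfae_have 2 → 1 := by
    rintro ⟨a, n, f, h1, h2⟩
    have h3 : {u : Fin (n + 1) → ℝ | (∀ i, 0 ≤ u i ∧ u i ≤ 1) ∧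
        0 < (MvPolynomial.aeval u f : ℝ)} =
          {u : Fin (n + 1) → ℝ | 0 < (MvPolynomial.aeval u f : ℝ)} := by
      ext u
      constructor
      · exact fun hu => hu.2
      · intro hu
        have h4 := h1 (subset_closure hu)
        exact ⟨fun i => ⟨(h4 i).1.le, (h4 i).2.le⟩, hu⟩
    have h5 : ∃ (a : ℤ) (n : ℕ) (f : MvPolynomial (Fin n) ℤ),
        x = a + (volume {u : Fin n → ℝ | (∀ i, 0 ≤ u i ∧ u i ≤ 1) ∧
          0 < (MvPolynomial.aeval u f : ℝ)}).toReal := ⟨a, n + 1, f, by rw [h3]; exact h2⟩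
    exact ((Pool.Agent.OneIneq.main_real x).out 0 1).2 h5
  tfae_have 2 → 3 := by
    rintro ⟨a, n, f, h⟩
    obtain ⟨N, c, hc⟩ := Pool.Agent.OneIneq.exists_mat f
    exact ⟨a, n, N, c, by simpa only [hc] using h⟩
  tfae_have 3 → 2 := by
    rintro ⟨a, n, N, c, h⟩
    obtain ⟨f, hf⟩ := Pool.Agent.OneIneq.mat_poly c
    exact ⟨a, n, f, by simpa only [hf] using h⟩
  tfae_finish

end Pool.Agent.WSP
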