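import Pool.Agent.W_2cf66e_h88.Pk88

/-!
Named sets for the statement of the packing form.
-/

set_option autoImplicit false

namespace Pool.Agent.OneIneq

open MeasureTheory

/-- The set `{u ∈ ℝ^m | 0 < f u}`, `f` one polynomial with integer coefficients. -/
def Pos {m : ℕ} (f : MvPolynomial (Fin m) ℤ) : Set (Fin m → ℝ) :=
  {u | 0 < (MvPolynomial.aeval u f : ℝ)}

/-- The set `{u ∈ ℝ^m | 0 < det M}`, each entry of the square matrix `M` being `0`, `1` or one of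
`u_1, ..., u_m`, as chosen by `c`. -/
def PosD {m N : ℕ} (c : Fin N → Fin N → Fin (m + 2)) : Set (Fin m → ℝ) :=
  {u | 0 < (mat c u).det}

/-- The open unit cube of `ℝ^m`. -/
def Cube (m : ℕ) : Set (Fin m → ℝ) := {u | ∀ i, 0 < u i ∧ u i < 1}

/-- The integral over `[0,1]^m` of the sign of `f`. -/
noncomputable def Sgn {m : ℕ} (f : MvPolynomial (Fin m) ℤ) : ℝ :=
  ∫ u in {u : Fin m → ℝ | ∀ i, 0 ≤ u i ∧ u i ≤ 1}, (SignType.sign (MvPolynomial.aeval u f : ℝ) : ℝ)

/-- There is one homogeneous polynomial `F(t, z_1, ..., z_m)` with integer coefficients, `m = n + 1`,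
such that, for all integers `T ≥ 1`, the integer points `z` with `0 < F(T, z)` satisfy
`|z_i| ≤ K T` and `z / T ∈ O`, and their number differs from `x T ^ m` by at most
`K T ^ (m - 1)`. -/
def Points (n : ℕ) (x : ℝ) (O : Set (Fin (n + 1) → ℝ)) : Prop :=
  ∃ (d K : ℕ) (F : MvPolynomial (Fin (n + 2)) ℤ), F.IsHomogeneous d ∧
    ∀ T : ℕ, 0 < T →
      (∀ z : Fin (n + 1) → ℤ,
        0 < MvPolynomial.eval (Fin.cons (T : ℤ) z : Fin (n + 2) → ℤ) F →
          (∀ i, |z i| ≤ K * T) ∧ (fun i => (z i : ℝ) / T) ∈ O) ∧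
      |({z : Fin (n + 1) → ℤ |
          0 < MvPolynomial.eval (Fin.cons (T : ℤ) z : Fin (n + 2) → ℤ) F}.ncard : ℝ) -
        x * (T : ℝ) ^ (n + 1)| ≤ K * (T : ℝ) ^ n

end Pool.Agent.OneIneq
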