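import Pool.Agent.W_2cf66e_h88.End88
import Pool.Agent.W_2cf66e_h88.Norm88
import Pool.Agent.W_2cf66e_h68.Final68

/-!
# Minima of quadratics: the equivalent forms for positive numbers (helper88)
-/

set_option autoImplicit false

noncomputable section

open MeasureTheory MvPolynomial
open Pool.Agent.CVol (IsPeriod)

namespace Pool.Agent.MinQ

/-- The equivalent forms for positive numbers. -/
theorem period_tfae (x : ℝ) (hx : 0 < x) : List.TFAE [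
    IsPeriod x,
    ∃ (n m : ℕ) (q : Fin (m + 1) → MvPolynomial (Fin n) ℚ),
      (∀ j, (q j).totalDegree ≤ 2 ∧
        ConcaveOn ℝ Set.univ (fun z : Fin n → ℝ => (aeval z (q j) : ℝ)) ∧
        ∀ z ∈ Set.Icc (0 : Fin n → ℝ) 1, (0 : ℝ) < aeval z (q j)) ∧
      x = ∫ z in Set.Icc (0 : Fin n → ℝ) 1, ⨅ j, (aeval z (q j) : ℝ),
    ∃ (N m : ℕ) (q : Fin m → MvPolynomial (Fin N) ℚ) (p : Seminorm ℝ (Fin N → ℝ)),
      (∀ j, (q j).totalDegree ≤ 2 ∧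
        ConcaveOn ℝ Set.univ (fun z : Fin N → ℝ => (aeval z (q j) : ℝ))) ∧
      (∀ z, p z = 0 → z = 0) ∧
      (∀ z ε : Fin N → ℝ, (∀ i, ε i = 1 ∨ ε i = -1) → p (fun i => ε i * z i) = p z) ∧
      {z | p z ≤ 1} = {z | ∀ j, (0 : ℝ) ≤ aeval z (q j)} ∧
      volume {z | p z ≤ 1} = ENNReal.ofReal x,
    ∃ (N m : ℕ) (q : Fin m → MvPolynomial (Fin N) ℚ), (∀ i, Pool.Agent.CQ68.IsCQ (q i)) ∧
      Convex ℝ {z : Fin N → ℝ | ∀ i, 0 ≤ (aeval z (q i) : ℝ)} ∧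
      IsCompact {z : Fin N → ℝ | ∀ i, 0 ≤ (aeval z (q i) : ℝ)} ∧
      volume {z : Fin N → ℝ | ∀ i, 0 ≤ (aeval z (q i) : ℝ)} = ENNReal.ofReal x,
    ∃ (N m : ℕ) (A : Fin m → Matrix (Fin 2) (Fin 2) ℚ)
      (B : Fin m → Fin N → Matrix (Fin 2) (Fin 2) ℚ),
      (∀ i, (A i).IsSymm) ∧ (∀ i k, (B i k).IsSymm) ∧
      IsCompact {z : Fin N → ℝ | ∀ i, ((A i).map (Rat.cast : ℚ → ℝ) +
        ∑ k, z k • (B i k).map (Rat.cast : ℚ → ℝ)).PosSemidef} ∧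
      volume {z : Fin N → ℝ | ∀ i, ((A i).map (Rat.cast : ℚ → ℝ) +
        ∑ k, z k • (B i k).map (Rat.cast : ℚ → ℝ)).PosSemidef} = ENNReal.ofReal x] := by
  tfae_have 1 → 2 := by
    intro h
    obtain ⟨n, m, r, h1, h2, h3, h4⟩ := kq_fin57 (period_kq h) hx
    exact ⟨n, m, r, fun j => ⟨h1 j, h2 j, fun z hz => h3 z hz j⟩, h4⟩
  tfae_have 2 → 1 := by
    rintro ⟨n, m, q, -, h⟩
    rw [h]
    exact period_of_min q
  tfae_have 2 → 3 := by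
    rintro ⟨n, m, q, h1, h2⟩
    obtain ⟨N, m', q', p, h3, h4, h5, h6, -, h8⟩ := norm88 x q (fun j => (h1 j).1)
      (fun j => (h1 j).2.1) (fun z hz j => (h1 j).2.2 z hz) h2.symm
    exact ⟨N, m', q', p, h3, h4, h5, h6, h8⟩
  tfae_have 3 → 1 := by
    rintro ⟨N, m, q, p, -, -, -, h1, h2⟩
    rw [h1] at h2
    refine Pool.Agent.CVol.period_of_volume ?_ x hx h2
    have e : {z : Fin N → ℝ | ∀ j, (0 : ℝ) ≤ aeval z (q j)} =
        ⋂ j, {z : Fin N → ℝ | 0 ≤ aeval z (q j)} := by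
      ext z
      simp only [Set.mem_ofPred_eq, Set.mem_iInter]
    rw [e]
    exact Pool.Agent.CVol.IsSA.iInter _ fun j => Pool.Agent.CVol.IsSA.nonneg (q j)
  tfae_have 1 ↔ 4 := Pool.Agent.CQ68.period_iff_cq x hx
  tfae_have 1 ↔ 5 := Pool.Agent.CQ68.period_iff_soc x hx
  tfae_finish

end Pool.Agent.MinQ
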