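import Pool.Agent.W_2cf66e_h88.Wt14
import Pool.Agent.W_2cf66e_h6.KBoth6
import Pool.Agent.W_2cf66e_h6.KClo6

/-!
# MP_2cf66e_nt (periods), minima of quadratics: every family of quadratics is good (helper14)
-/

set_option autoImplicit false

noncomputable section

namespace Pool.Agent.MinQ

open MeasureTheory MvPolynomial

/-- Every finite family of polynomials of degree at most two is good. -/
theorem wt_good {ι β : Type} [Fintype ι] [Fintype β] (u : β → MvPolynomial ι ℚ)
    (hu : ∀ i, (u i).totalDegree ≤ 2) : GoodF Pool.Agent.TopK.Dq u :=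
  Wt14.wt_good_abs Pool.Agent.TopK.Dq
    (by
      have h := Pool.Agent.TopK.Dq_rat 0
      rw [Rat.cast_zero] at h
      exact h)
    (fun _ _ hx hy => Pool.Agent.TopK.Dq_add hx hy)
    (fun q _ hx => Pool.Agent.TopK.Dq_smul hx q)
    (fun u hu k hk => Pool.Agent.TopK.both6 u hu k hk) u hu

end Pool.Agent.MinQ
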